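import Mathlib

/-!
# Uniform path systems: definitions (MP_876e19_co)
-/

set_option autoImplicit false

namespace Pool.Agent.UPS

variable {V : Type*}

/-- number of ordered pairs `(x,y)`, `x ≠ y`, whose path passes through `v` -/
noncomputable def load {G : SimpleGraph V} (P : ∀ x y : V, G.Walk x y) (v : V) : ℕ :=
  {p : V × V | p.1 ≠ p.2 ∧ v ∈ (P p.1 p.2).support}.ncard

/-- number of ordered pairs `(x,y)`, `x ≠ y`, whose path uses the edge `e` -/
noncomputable def eload {G : SimpleGraph V} (P : ∀ x y : V, G.Walk x y) (e : Sym2 V) : ℕ :=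
  {p : V × V | p.1 ≠ p.2 ∧ e ∈ (P p.1 p.2).edges}.ncard

/-- roots at which the edge `uv` can be toggled -/
def avail {G : SimpleGraph V} (P : ∀ x y : V, G.Walk x y) (u v : V) : Set V :=
  {x | x ≠ u ∧ x ≠ v ∧ v ∉ (P x u).support ∧ u ∉ (P x v).support}

/-- all `P x y`, `x ≠ y`, are paths -/
def Paths {G : SimpleGraph V} (P : ∀ x y : V, G.Walk x y) : Prop :=
  ∀ x y : V, x ≠ y → (P x y).IsPath

/-- `G` has a uniform path system -/
def HasUPS (G : SimpleGraph V) : Prop :=
  ∃ P : ∀ x y : V, G.Walk x y, Paths P ∧ ∃ c : ℕ, ∀ v : V, load P v = c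

/-- `G` is vertex-transitive -/
def VT (G : SimpleGraph V) : Prop := ∀ x y : V, ∃ φ : G ≃g G, φ x = y

/-- neighbourhood of a set -/
def nbhd (G : SimpleGraph V) (U : Set V) : Set V := {w | ∃ u ∈ U, G.Adj u w}

end Pool.Agent.UPS
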