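import Pool.Agent.Lib.MP_876e19_co.Defs

/-!
# Uniform path systems: the identity between vertex and edge loads, and making edge loads even
-/

set_option autoImplicit false

namespace Pool.Agent.UPS

open Finset

variable {V : Type*}

namespace Parity

lemma path_identity [DecidableEq V] {G : SimpleGraph V} {x y : V} (p : G.Walk x y) (hp : p.IsPath) (w : V) :
    p.edges.countP (fun e => decide (w ∈ e)) + (if w = x then 1 else 0) + (if w = y then 1 else 0) =
      2 * (if w ∈ p.support then 1 else 0) := by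
  induction p with
  | @nil a =>
    by_cases h : w = a <;> simp [h]
  | @cons u v y' h p ih =>
    rw [SimpleGraph.Walk.cons_isPath_iff] at hp
    have ih' := ih hp.1
    rw [SimpleGraph.Walk.edges_cons, List.countP_cons, SimpleGraph.Walk.support_cons]
    have hne : u ≠ v := h.ne
    have e1 : (if decide (w ∈ s(u, v)) = true then 1 else 0) =
        (if w = u then 1 else 0) + (if w = v then 1 else 0) := by
      by_cases h1 : w = u
      · subst h1; simp [hne]
      · by_cases h2 : w = v
        · subst h2; simp [h1]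
        · simp [h1, h2]
    have e2 : (if w ∈ u :: p.support then 1 else 0) =
        (if w = u then 1 else 0) + (if w ∈ p.support then 1 else 0) := by
      by_cases h1 : w = u
      · subst h1; simp [hp.2]
      · simp [h1]
    rw [e1, e2]
    omega

lemma eload_eq [Fintype V] [DecidableEq V] {G : SimpleGraph V} (P : ∀ x y : V, G.Walk x y)
    (e : Sym2 V) : eload P e =
      ∑ p : V × V, if p.1 ≠ p.2 ∧ e ∈ (P p.1 p.2).edges then 1 else 0 := by
  rw [eload, Finset.sum_boole, Nat.cast_id, ← Set.ncard_coe_finset]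
  congr 1
  ext p
  simp

lemma load_eq [Fintype V] [DecidableEq V] {G : SimpleGraph V} (P : ∀ x y : V, G.Walk x y)
    (w : V) : load P w =
      ∑ p : V × V, if p.1 ≠ p.2 ∧ w ∈ (P p.1 p.2).support then 1 else 0 := by
  rw [load, Finset.sum_boole, Nat.cast_id, ← Set.ncard_coe_finset]
  congr 1
  ext p
  simp

lemma countP_eq [Fintype V] [DecidableEq V] (l : List (Sym2 V)) (hl : l.Nodup) (w : V) :
    l.countP (fun e => decide (w ∈ e)) =
      ∑ e ∈ univ.filter (fun e : Sym2 V => w ∈ e), if e ∈ l then 1 else 0 := by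
  rw [Finset.sum_boole, Nat.cast_id, List.countP_eq_length_filter,
    ← List.toFinset_card_of_nodup (hl.filter _)]
  congr 1
  ext e
  simp [and_comm]

end Parity

open Parity

theorem load_identity [Fintype V] [DecidableEq V] {G : SimpleGraph V}
    (P : ∀ x y : V, G.Walk x y) (hP : Paths P) (w : V) :
    2 * load P w = ∑ e ∈ univ.filter (fun e : Sym2 V => w ∈ e), eload P e
      + 2 * (Fintype.card V - 1) := by
  have h1 : ∀ p : V × V, 2 * (if p.1 ≠ p.2 ∧ w ∈ (P p.1 p.2).support then 1 else 0) =
      (∑ e ∈ univ.filter (fun e : Sym2 V => w ∈ e),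
        if p.1 ≠ p.2 ∧ e ∈ (P p.1 p.2).edges then 1 else 0) +
      ((if p.1 ≠ p.2 ∧ w = p.1 then 1 else 0) + (if p.1 ≠ p.2 ∧ w = p.2 then 1 else 0)) := by
    intro p
    by_cases h : p.1 = p.2
    · simp [h]
    · have h2 := path_identity _ (hP p.1 p.2 h) w
      rw [countP_eq _ (hP p.1 p.2 h).isTrail.edges_nodup] at h2
      simp only [ne_eq, h, not_false_eq_true, true_and]
      rw [← h2]
      ring
  rw [load_eq, Finset.mul_sum, Finset.sum_congr rfl fun p _ => h1 p, Finset.sum_add_distrib,
    Finset.sum_comm, Finset.sum_congr rfl fun e _ => (eload_eq P e).symm]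
  congr 1
  rw [Finset.sum_add_distrib, two_mul, Fintype.sum_prod_type, Fintype.sum_prod_type_right]
  have h3 : ∀ x : V, (∑ y : V, if x ≠ y ∧ w = x then 1 else 0) =
      if w = x then Fintype.card V - 1 else 0 := by
    intro x
    by_cases h : w = x
    · subst h
      simp only [and_true, if_true]
      rw [Finset.sum_boole, Nat.cast_id]
      have : (univ.filter fun y : V => w ≠ y) = univ.erase w := by ext y; simp [eq_comm]
      rw [this, Finset.card_erase_of_mem (mem_univ _), Finset.card_univ]
    · simp [h]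
  have h4 : ∀ y : V, (∑ x : V, if x ≠ y ∧ w = y then 1 else 0) =
      if w = y then Fintype.card V - 1 else 0 := by
    intro y
    by_cases h : w = y
    · subst h
      simp only [and_true, if_true]
      rw [Finset.sum_boole, Nat.cast_id]
      have : (univ.filter fun x : V => x ≠ w) = univ.erase w := by ext y; simp
      rw [this, Finset.card_erase_of_mem (mem_univ _), Finset.card_univ]
    · simp [h]
  rw [Finset.sum_congr rfl fun x _ => h3 x, Finset.sum_congr rfl fun y _ => h4 y]
  simp

namespace Parity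

/-- in a finite graph with all degrees even no edge is a bridge -/
lemma reach_of_even [Fintype V] (H : SimpleGraph V) [DecidableRel H.Adj]
    (hev : ∀ w, Even (H.degree w)) {x y : V} (h : H.Adj x y) :
    (H.deleteEdges {s(x, y)}).Reachable x y := by
  classical
  set H' := H.deleteEdges {s(x, y)} with hH'
  by_contra hr
  let K : SimpleGraph V :=
    { Adj := fun u v => H'.Adj u v ∧ H'.Reachable x u
      symm := ⟨fun u v huv => ⟨huv.1.symm, huv.2.trans huv.1.reachable⟩⟩
      loopless := ⟨fun u hu => hu.1.ne rfl⟩ }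
  have hK : ∀ u v, K.Adj u v ↔ H'.Adj u v ∧ H'.Reachable x u := fun u v => Iff.rfl
  have hH'adj : ∀ u v, H'.Adj u v ↔ H.Adj u v ∧ s(u, v) ≠ s(x, y) := by
    intro u v
    rw [hH', SimpleGraph.deleteEdges_adj]
    simp
  have hx : Odd (K.degree x) := by
    have e : K.neighborFinset x = (H.neighborFinset x).erase y := by
      ext v
      rw [SimpleGraph.mem_neighborFinset, hK, hH'adj, Finset.mem_erase,
        SimpleGraph.mem_neighborFinset]
      constructor
      · rintro ⟨⟨h1, h2⟩, _⟩
        exact ⟨fun hv => h2 (by rw [hv]), h1⟩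
      · rintro ⟨h1, h2⟩
        refine ⟨⟨h2, fun hv => ?_⟩, SimpleGraph.Reachable.refl _⟩
        rw [Sym2.eq_iff] at hv
        rcases hv with hv | hv
        · exact h1 hv.2
        · exact h.ne hv.1
    rw [SimpleGraph.degree, e, Finset.card_erase_of_mem (by simpa using h),
      SimpleGraph.card_neighborFinset_eq_degree]
    have h1 := hev x
    have h2 : 0 < H.degree x := by
      rw [SimpleGraph.degree_pos_iff_exists_adj]
      exact ⟨y, h⟩
    rcases h1 with ⟨k, hk⟩
    exact ⟨k - 1, by omega⟩
  obtain ⟨w, hwx, hw⟩ := K.exists_ne_odd_degree_of_exists_odd_degree x hx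
  by_cases hxw : H'.Reachable x w
  · have e : K.neighborFinset w = H.neighborFinset w := by
      ext v
      rw [SimpleGraph.mem_neighborFinset, hK, hH'adj, SimpleGraph.mem_neighborFinset]
      constructor
      · rintro ⟨⟨h1, h2⟩, _⟩
        exact h1
      · intro h1
        refine ⟨⟨h1, fun hv => ?_⟩, hxw⟩
        rw [Sym2.eq_iff] at hv
        rcases hv with hv | hv
        · exact hwx hv.1
        · exact hr (hv.1 ▸ hxw)
    rw [SimpleGraph.degree, e, SimpleGraph.card_neighborFinset_eq_degree] at hw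
    exact (Nat.not_even_iff_odd.2 hw) (hev w)
  · have e : K.neighborFinset w = ∅ := by
      ext v
      rw [SimpleGraph.mem_neighborFinset, hK]
      simp [hxw]
    rw [SimpleGraph.degree, e] at hw
    simp at hw

lemma mem_edgeSet_of_eload {G : SimpleGraph V} [Finite V] (P : ∀ x y : V, G.Walk x y) {e : Sym2 V}
    (h : eload P e ≠ 0) : e ∈ G.edgeSet := by
  rw [eload, Ne, Set.ncard_eq_zero (Set.toFinite _)] at h
  obtain ⟨p, hp⟩ := Set.nonempty_iff_ne_empty.2 h
  exact (P p.1 p.2).edges_subset_edgeSet hp.2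

/-- the graph of odd edges -/
def oddG {G : SimpleGraph V} (P : ∀ x y : V, G.Walk x y) : SimpleGraph V :=
  SimpleGraph.fromEdgeSet {e | Odd (eload P e)}

lemma oddG_adj [Finite V] {G : SimpleGraph V} (P : ∀ x y : V, G.Walk x y) (u v : V) :
    (oddG P).Adj u v ↔ Odd (eload P s(u, v)) := by
  rw [oddG, SimpleGraph.fromEdgeSet_adj, Set.mem_ofPred_eq]
  constructor
  · exact fun h => h.1
  · intro h
    refine ⟨h, ?_⟩
    have h1 : s(u, v) ∈ G.edgeSet := mem_edgeSet_of_eload P (fun h0 => by simp [h0] at h)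
    exact (show G.Adj u v from h1).ne

lemma even_deg [Fintype V] {G : SimpleGraph V} (P : ∀ x y : V, G.Walk x y) (hP : Paths P)
    [DecidableRel (oddG P).Adj] (w : V) : Even ((oddG P).degree w) := by
  classical
  rw [← SimpleGraph.card_incidenceFinset_eq_degree]
  have h1 := load_identity P hP w
  have h2 : Even (∑ e ∈ univ.filter (fun e : Sym2 V => w ∈ e), eload P e) := by
    have : Even (∑ e ∈ univ.filter (fun e : Sym2 V => w ∈ e), eload P e
      + 2 * (Fintype.card V - 1)) := by rw [← h1]; exact even_two_mul _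
    rwa [Nat.even_add, iff_true_right (even_two_mul _)] at this
  rw [Finset.even_sum_iff_even_card_odd] at h2
  convert h2 using 2
  ext e
  simp only [SimpleGraph.mem_incidenceFinset, mem_filter, mem_univ, true_and]
  rw [SimpleGraph.incidenceSet, Set.mem_ofPred_eq, and_comm]
  refine and_congr_right fun _ => ?_
  induction e with
  | _ a b => exact oddG_adj P a b

lemma step [Fintype V] {G : SimpleGraph V} (P : ∀ x y : V, G.Walk x y) (hP : Paths P)
    (hlen : ∀ x y, Odd (eload P s(x, y)) → (P x y).length = 1) (x y : V)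
    (hxy : Odd (eload P s(x, y))) :
    ∃ P' : ∀ x y : V, G.Walk x y, Paths P' ∧ (∀ a b, ¬ G.Adj a b → P' a b = P a b) ∧
      (∀ f, Odd (eload P' f) → Odd (eload P f) ∧ eload P' f = eload P f) ∧
      (∀ f, Even (eload P f) → eload P' f = eload P f) ∧
      (∀ f, eload P' f ≤ eload P f + 1 ∧ eload P f ≤ eload P' f + 1) ∧
      Even (eload P' s(x, y)) ∧
      (∀ a b, Odd (eload P' s(a, b)) → P' a b = P a b) := by
  classical
  have hG' : s(x, y) ∈ G.edgeSet :=
    mem_edgeSet_of_eload P (fun h0 => by rw [h0] at hxy; simp at hxy)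
  have hG : G.Adj x y := hG'
  have hr := reach_of_even (oddG P) (even_deg P hP) ((oddG_adj P x y).2 hxy)
  obtain ⟨q⟩ := hr.symm
  have hle : (oddG P).deleteEdges {s(x, y)} ≤ G := by
    intro a b hab
    rw [SimpleGraph.deleteEdges_adj, oddG_adj] at hab
    have h1 := hab.1
    have h2 : s(a, b) ∈ G.edgeSet :=
      mem_edgeSet_of_eload P (fun h0 => by rw [h0] at h1; simp at h1)
    exact h2
  set Q : G.Walk y x := q.bypass.mapLe hle with hQ
  have hQp : Q.IsPath := (SimpleGraph.Walk.isPath_mapLe hle).2 q.bypass_isPath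
  have hQe : ∀ f ∈ Q.edges, Odd (eload P f) ∧ f ≠ s(x, y) := by
    intro f hf
    rw [hQ, SimpleGraph.Walk.edges_mapLe_eq_edges] at hf
    have h1 := q.bypass.edges_subset_edgeSet hf
    induction f with
    | _ a b =>
      rw [SimpleGraph.mem_edgeSet, SimpleGraph.deleteEdges_adj, oddG_adj] at h1
      simpa using h1
  let P' : ∀ x y : V, G.Walk x y := Function.update P y (Function.update (P y) x Q)
  have hP'1 : P' y x = Q := by simp [P']
  have hP'2 : ∀ a b, ¬ (a = y ∧ b = x) → P' a b = P a b := by
    intro a b hab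
    by_cases ha : a = y
    · subst ha
      have hb : b ≠ x := fun h => hab ⟨rfl, h⟩
      simp [P', hb]
    · simp [P', ha]
  have hedge : (P y x).edges = [s(x, y)] := by
    have h1 : (P y x).length = 1 := hlen y x (by rwa [Sym2.eq_swap])
    revert h1
    cases P y x with
    | nil => intro h; simp at h
    | cons h' p =>
      intro h1
      rw [SimpleGraph.Walk.length_cons] at h1
      have h2 : p.length = 0 := by omega
      cases p with
      | nil => rw [SimpleGraph.Walk.edges_cons]; simp [Sym2.eq_swap]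
      | cons _ _ => simp at h2
  have hel : ∀ f, eload P' f + (if f = s(x, y) then 1 else 0) =
      eload P f + (if f ∈ Q.edges then 1 else 0) := by
    intro f
    rw [eload_eq, eload_eq, ← Finset.add_sum_erase univ _ (mem_univ ((y, x) : V × V)),
      ← Finset.add_sum_erase univ (fun p : V × V => if p.1 ≠ p.2 ∧ f ∈ (P p.1 p.2).edges
        then 1 else 0) (mem_univ ((y, x) : V × V))]
    have h1 : ∑ p ∈ univ.erase ((y, x) : V × V),
        (if p.1 ≠ p.2 ∧ f ∈ (P' p.1 p.2).edges then 1 else 0) =
        ∑ p ∈ univ.erase ((y, x) : V × V),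
        (if p.1 ≠ p.2 ∧ f ∈ (P p.1 p.2).edges then 1 else 0) := by
      refine Finset.sum_congr rfl fun p hp => ?_
      rw [hP'2 p.1 p.2 (fun h => (Finset.mem_erase.1 hp).1 (Prod.ext h.1 h.2))]
    rw [h1]
    simp only [hP'1, hedge, List.mem_singleton, ne_eq, hG.ne', not_false_eq_true, true_and]
    ring
  have hQxy : s(x, y) ∉ Q.edges := fun h => (hQe _ h).2 rfl
  -- summary of the three cases
  have hcase : ∀ f, (eload P' f = eload P f) ∨ (Odd (eload P f) ∧ Even (eload P' f) ∧
      eload P' f ≤ eload P f + 1 ∧ eload P f ≤ eload P' f + 1) := by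
    intro f
    have h1 := hel f
    by_cases h2 : f = s(x, y)
    · subst h2
      rw [if_pos rfl, if_neg hQxy] at h1
      refine Or.inr ⟨hxy, ?_, by omega, by omega⟩
      rcases hxy with ⟨k, hk⟩
      exact ⟨k, by omega⟩
    · rw [if_neg h2] at h1
      by_cases h3 : f ∈ Q.edges
      · rw [if_pos h3] at h1
        refine Or.inr ⟨(hQe f h3).1, ?_, by omega, by omega⟩
        rcases (hQe f h3).1 with ⟨k, hk⟩
        exact ⟨k + 1, by omega⟩
      · rw [if_neg h3] at h1
        exact Or.inl (by omega)
  refine ⟨P', ?_, ?_, ?_, ?_, ?_, ?_, ?_⟩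
  · intro a b hab
    by_cases h : a = y ∧ b = x
    · obtain ⟨rfl, rfl⟩ := h
      rw [hP'1]; exact hQp
    · rw [hP'2 a b h]; exact hP a b hab
  · intro a b hab
    apply hP'2
    rintro ⟨rfl, rfl⟩
    exact hab hG.symm
  · intro f hf
    rcases hcase f with h | h
    · exact ⟨by rwa [← h], h⟩
    · exact absurd h.2.1 (Nat.not_even_iff_odd.2 hf)
  · intro f hf
    rcases hcase f with h | h
    · exact h
    · exact absurd hf (Nat.not_even_iff_odd.2 h.1)
  · intro f
    rcases hcase f with h | h
    · omega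
    · exact h.2.2
  · have h1 := hel s(x, y)
    rw [if_pos rfl, if_neg hQxy] at h1
    rcases hxy with ⟨k, hk⟩
    exact ⟨k, by omega⟩
  · intro a b hab
    apply hP'2
    rintro ⟨rfl, rfl⟩
    rw [Sym2.eq_swap] at hab
    have h1 := hel s(b, a)
    rw [if_pos rfl, if_neg hQxy] at h1
    rcases hxy with ⟨k, hk⟩
    rcases hab with ⟨l, hl⟩
    omega

lemma main [Fintype V] {G : SimpleGraph V} : ∀ (k : ℕ) (P : ∀ x y : V, G.Walk x y), Paths P →
    (∀ x y, Odd (eload P s(x, y)) → (P x y).length = 1) →
    {e | Odd (eload P e)}.ncard = k →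
    ∃ P' : ∀ x y : V, G.Walk x y, Paths P' ∧ (∀ a b, ¬ G.Adj a b → P' a b = P a b) ∧
      (∀ e, Even (eload P' e)) ∧ (∀ e, Even (eload P e) → eload P' e = eload P e) ∧
      (∀ e, eload P' e ≤ eload P e + 1 ∧ eload P e ≤ eload P' e + 1) := by
  intro k
  induction k using Nat.strong_induction_on with
  | _ k ih =>
    intro P hP hlen hk
    by_cases hall : ∀ e, Even (eload P e)
    · exact ⟨P, hP, fun _ _ _ => rfl, hall, fun _ _ => rfl, fun e => ⟨by omega, by omega⟩⟩
    push Not at hall
    obtain ⟨e, he⟩ := hall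
    rw [Nat.not_even_iff_odd] at he
    induction e with
    | _ x y =>
      obtain ⟨P₁, h1, h2, h3, h4, h5, h6, h7⟩ := step P hP hlen x y he
      have hlt : {e | Odd (eload P₁ e)}.ncard < k := by
        rw [← hk]
        apply Set.ncard_lt_ncard _ (Set.toFinite _)
        exact ⟨fun f hf => (h3 f hf).1, fun hsub => (Nat.not_even_iff_odd.2
          (show Odd (eload P₁ s(x, y)) from hsub he)) h6⟩
      obtain ⟨P', k1, k2, k3, k4, k5⟩ := ih _ hlt P₁ h1 (fun a b hab => by
        rw [h7 a b hab]; exact hlen a b (h3 _ hab).1) rfl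
      refine ⟨P', k1, fun a b hab => by rw [k2 a b hab, h2 a b hab], k3, fun f hf => ?_,
        fun f => ?_⟩
      · have e1 := h4 f hf
        rw [k4 f (by rwa [e1]), e1]
      · rcases Nat.even_or_odd (eload P₁ f) with hf | hf
        · rw [k4 f hf]; exact h5 f
        · rw [← (h3 f hf).2]; exact k5 f

end Parity

theorem parity_fix [Finite V] {G : SimpleGraph V}
    (P : ∀ x y : V, G.Walk x y) (hP : Paths P)
    (hadj : ∀ x y, G.Adj x y → (P x y).length = 1) :
    ∃ P' : ∀ x y : V, G.Walk x y, Paths P' ∧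
      (∀ x y, ¬ G.Adj x y → P' x y = P x y) ∧
      (∀ e, Even (eload P' e)) ∧
      (∀ e, eload P' e ≤ eload P e + 1 ∧ eload P e ≤ eload P' e + 1) := by
  have := Fintype.ofFinite V
  have hodd : ∀ x y, Odd (eload P s(x, y)) → (P x y).length = 1 := by
    intro x y hxy
    have hG' : s(x, y) ∈ G.edgeSet :=
      mem_edgeSet_of_eload P (fun h0 => by rw [h0] at hxy; simp at hxy)
    exact hadj x y hG'
  obtain ⟨P', h1, h2, h3, _, h5⟩ := Parity.main _ P hP hodd rfl
  exact ⟨P', h1, h2, h3, h5⟩

end Pool.Agent.UPS
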