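import Pool.Agent.Lib.MP_876e19_co.Defs

/-!
# T5: two averages over independent choices
-/

set_option autoImplicit false

namespace Pool.Agent.UPS

open Finset

theorem exp_sum {I O : Type*} [Fintype I] [DecidableEq I] [Fintype O] [Nonempty O]
    (X : I → O → ℝ) (hX : ∀ i o, X i o = 0 ∨ X i o = 1) (θ : ℝ) (hθ : |θ| ≤ 1) :
    ∑ ω : I → O, Real.exp (θ * (∑ i, X i (ω i) - ∑ i, (∑ o, X i o) / (Fintype.card O : ℝ))) ≤
      (Fintype.card (I → O) : ℝ) *
        Real.exp (θ ^ 2 * ∑ i, (∑ o, X i o) / (Fintype.card O : ℝ)) := by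
  classical
  have hO : (0 : ℝ) < Fintype.card O := by exact_mod_cast Fintype.card_pos
  have h1 : ∑ ω : I → O,
      Real.exp (θ * (∑ i, X i (ω i) - ∑ i, (∑ o, X i o) / (Fintype.card O : ℝ))) =
      ∏ i, ∑ o, Real.exp (θ * (X i o - (∑ o, X i o) / (Fintype.card O : ℝ))) := by
    rw [Finset.prod_univ_sum]
    rw [Fintype.piFinset_univ]
    refine Finset.sum_congr rfl fun ω _ => ?_
    rw [← Real.exp_sum, ← Finset.mul_sum, Finset.sum_sub_distrib]
  have h2 : (Fintype.card (I → O) : ℝ) *
        Real.exp (θ ^ 2 * ∑ i, (∑ o, X i o) / (Fintype.card O : ℝ)) =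
      ∏ i, ((Fintype.card O : ℝ) * Real.exp (θ ^ 2 * ((∑ o, X i o) / (Fintype.card O : ℝ)))) := by
    rw [Finset.prod_mul_distrib, ← Real.exp_sum, ← Finset.mul_sum, Finset.prod_const,
      Finset.card_univ, Fintype.card_fun]
    push_cast
    rfl
  rw [h1, h2]
  refine Finset.prod_le_prod (fun i _ => Finset.sum_nonneg fun o _ => (Real.exp_pos _).le)
    fun i _ => ?_
  set p : ℝ := (∑ o, X i o) / (Fintype.card O : ℝ) with hp
  have hp0 : 0 ≤ p := by
    refine div_nonneg (Finset.sum_nonneg fun o _ => ?_) hO.le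
    rcases hX i o with h | h <;> rw [h]
    exact zero_le_one
  have h3 : ∀ o, Real.exp (θ * (X i o - p)) =
      Real.exp (-(θ * p)) * (1 + X i o * (Real.exp θ - 1)) := by
    intro o
    rw [mul_sub, sub_eq_add_neg, add_comm, Real.exp_add]
    congr 1
    rcases hX i o with h | h <;> rw [h] <;> simp
  rw [Finset.sum_congr rfl fun o _ => h3 o, ← Finset.mul_sum, Finset.sum_add_distrib,
    ← Finset.sum_mul]
  have h4 : (∑ o, X i o) = Fintype.card O * p := by
    rw [hp]; field_simp
  rw [h4]
  simp only [Finset.sum_const, Finset.card_univ, nsmul_eq_mul, mul_one]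
  have h5 : 1 + p * (Real.exp θ - 1) ≤ Real.exp (p * (Real.exp θ - 1)) := by
    have := Real.add_one_le_exp (p * (Real.exp θ - 1))
    linarith
  have h6 : Real.exp θ - 1 - θ ≤ θ ^ 2 :=
    (le_abs_self _).trans (Real.abs_exp_sub_one_sub_id_le hθ)
  calc Real.exp (-(θ * p)) * (Fintype.card O + Fintype.card O * p * (Real.exp θ - 1))
      = Fintype.card O * (Real.exp (-(θ * p)) * (1 + p * (Real.exp θ - 1))) := by ring
    _ ≤ Fintype.card O * (Real.exp (-(θ * p)) * Real.exp (p * (Real.exp θ - 1))) := by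
        refine mul_le_mul_of_nonneg_left ?_ hO.le
        exact mul_le_mul_of_nonneg_left h5 (Real.exp_pos _).le
    _ = Fintype.card O * Real.exp (p * (Real.exp θ - 1 - θ)) := by
        rw [← Real.exp_add]; ring_nf
    _ ≤ Fintype.card O * Real.exp (θ ^ 2 * p) := by
        refine mul_le_mul_of_nonneg_left ?_ hO.le
        rw [Real.exp_le_exp]
        nlinarith

/-- resampling one coordinate -/
lemma sum_update {I O : Type*} [Fintype I] [DecidableEq I] [Fintype O] (a : I)
    (H : (I → O) → ℝ) :
    ∑ ω : I → O, ∑ o, H (Function.update ω a o) = (Fintype.card O : ℝ) * ∑ ω : I → O, H ω := by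
  classical
  let e : (I → O) × O ≃ (I → O) × O :=
    { toFun := fun q => (Function.update q.1 a q.2, q.1 a)
      invFun := fun q => (Function.update q.1 a q.2, q.1 a)
      left_inv := by
        rintro ⟨ω, o⟩
        simp
      right_inv := by
        rintro ⟨ω, o⟩
        simp }
  have h1 : ∑ ω : I → O, ∑ o, H (Function.update ω a o) =
      ∑ q : (I → O) × O, H (e q).1 := by
    rw [Fintype.sum_prod_type]
    rfl
  rw [h1, Equiv.sum_comp e (fun q => H q.1), Fintype.sum_prod_type]
  simp only [Finset.sum_const, Finset.card_univ, nsmul_eq_mul]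
  rw [Finset.mul_sum]

theorem avail_sum {V O : Type*} [Fintype V] [DecidableEq V] [Fintype O]
    (good : V → V → V → O → Prop) (u v : V) (huv : u ≠ v)
    (hgood : ∀ x, x ≠ u → x ≠ v →
      Fintype.card O ≤ 2 * {o | good x u v o}.ncard ∧
      Fintype.card O ≤ 2 * {o | good x v u o}.ncard) :
    ∑ ω : Sym2 V → O,
      (1 / 2 : ℝ) ^ ({x | x ≠ u ∧ x ≠ v ∧ good x u v (ω s(x, u)) ∧
        good x v u (ω s(x, v))}.ncard)
      ≤ (Fintype.card (Sym2 V → O) : ℝ) * (7 / 8 : ℝ) ^ (Fintype.card V - 2) := by
  classical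
  rcases isEmpty_or_nonempty O with hO | hO
  · have : IsEmpty (Sym2 V → O) := ⟨fun f => hO.elim (f s(u, u))⟩
    simp
  set A : V → O → ℝ := fun x o => if good x u v o then 1 else 0 with hA
  set B : V → O → ℝ := fun x o => if good x v u o then 1 else 0 with hB
  set F : V → O → O → ℝ := fun x o o' => 1 - A x o * B x o' / 2 with hF
  set S : Finset V := univ.filter fun x => x ≠ u ∧ x ≠ v with hS
  have hScard : S.card = Fintype.card V - 2 := by
    have : S = (univ.erase u).erase v := by
      ext x
      simp only [hS, Finset.mem_filter, Finset.mem_univ, true_and, Finset.mem_erase, and_true]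
      tauto
    rw [this, Finset.card_erase_of_mem, Finset.card_erase_of_mem (Finset.mem_univ _),
      Finset.card_univ]
    · omega
    · simp [huv.symm]
  have hterm : ∀ ω : Sym2 V → O,
      (1 / 2 : ℝ) ^ ({x | x ≠ u ∧ x ≠ v ∧ good x u v (ω s(x, u)) ∧
        good x v u (ω s(x, v))}.ncard) = ∏ x ∈ S, F x (ω s(x, u)) (ω s(x, v)) := by
    intro ω
    have e1 : {x | x ≠ u ∧ x ≠ v ∧ good x u v (ω s(x, u)) ∧ good x v u (ω s(x, v))} =
        ↑(S.filter fun x => good x u v (ω s(x, u)) ∧ good x v u (ω s(x, v))) := by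
      ext x
      simp only [Set.mem_ofPred_eq, hS, Finset.coe_filter, Finset.mem_filter, Finset.mem_univ,
        true_and]
      tauto
    rw [e1, Set.ncard_coe_finset, ← Finset.prod_const, Finset.prod_filter]
    refine Finset.prod_congr rfl fun x _ => ?_
    simp only [hF, hA, hB]
    by_cases h1 : good x u v (ω s(x, u)) <;> by_cases h2 : good x v u (ω s(x, v)) <;>
      simp [h1, h2] <;> norm_num
  rw [Finset.sum_congr rfl fun ω _ => hterm ω, ← hScard]
  have hF0 : ∀ x o o', 0 ≤ F x o o' := by
    intro x o o'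
    simp only [hF, hA, hB]
    split_ifs <;> norm_num
  have hOpos : (0 : ℝ) < Fintype.card O := by exact_mod_cast Fintype.card_pos
  have hsum : ∀ x ∈ S, ∑ o, ∑ o', F x o o' ≤ (7 / 8) * (Fintype.card O : ℝ) ^ 2 := by
    intro x hx
    simp only [hS, Finset.mem_filter, Finset.mem_univ, true_and] at hx
    obtain ⟨g1, g2⟩ := hgood x hx.1 hx.2
    have a1 : ∑ o, A x o = ({o | good x u v o}.ncard : ℝ) := by
      simp only [hA, Finset.sum_boole]
      congr 1
      rw [← Set.ncard_coe_finset]
      congr 1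
      ext o; simp
    have a2 : ∑ o, B x o = ({o | good x v u o}.ncard : ℝ) := by
      simp only [hB, Finset.sum_boole]
      congr 1
      rw [← Set.ncard_coe_finset]
      congr 1
      ext o; simp
    have a3 : ∑ o, ∑ o', F x o o' = (Fintype.card O : ℝ) ^ 2 - (∑ o, A x o) * (∑ o, B x o) / 2 := by
      simp only [hF, Finset.sum_sub_distrib, Finset.sum_const, Finset.card_univ, nsmul_eq_mul,
        mul_one]
      rw [Finset.sum_mul_sum, Finset.sum_div]
      simp only [Finset.sum_div]
      ring
    rw [a3, a1, a2]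
    have g1' : (Fintype.card O : ℝ) ≤ 2 * ({o | good x u v o}.ncard : ℝ) := by exact_mod_cast g1
    have g2' : (Fintype.card O : ℝ) ≤ 2 * ({o | good x v u o}.ncard : ℝ) := by exact_mod_cast g2
    nlinarith [mul_le_mul g1' g2' hOpos.le (by positivity)]
  have key : ∀ T : Finset V, T ⊆ S →
      ∑ ω : Sym2 V → O, ∏ x ∈ T, F x (ω s(x, u)) (ω s(x, v)) ≤
        (Fintype.card (Sym2 V → O) : ℝ) * (7 / 8 : ℝ) ^ T.card := by
    intro T
    induction T using Finset.induction_on with
    | empty => intro _; simp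
    | insert x₀ T hx₀ ih =>
      intro hT
      have hxS : x₀ ∈ S := hT (Finset.mem_insert_self _ _)
      have hTS : T ⊆ S := fun y hy => hT (Finset.mem_insert_of_mem hy)
      have hx₀' := hxS
      simp only [hS, Finset.mem_filter, Finset.mem_univ, true_and] at hx₀'
      set G : (Sym2 V → O) → ℝ := fun ω => ∏ x ∈ T, F x (ω s(x, u)) (ω s(x, v)) with hG
      have hG0 : ∀ ω, 0 ≤ G ω := fun ω => Finset.prod_nonneg fun x _ => hF0 _ _ _
      have inv1 : ∀ ω o, G (Function.update ω s(x₀, u) o) = G ω := by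
        intro ω o
        simp only [hG]
        refine Finset.prod_congr rfl fun x hx => ?_
        have hxs := hTS hx
        simp only [hS, Finset.mem_filter, Finset.mem_univ, true_and] at hxs
        have hne : x ≠ x₀ := fun h => hx₀ (h ▸ hx)
        rw [Function.update_of_ne, Function.update_of_ne]
        · intro h
          rw [Sym2.eq_iff] at h
          rcases h with ⟨h, _⟩ | ⟨h, _⟩
          · exact hne h
          · exact hxs.1 h
        · intro h
          rw [Sym2.eq_iff] at h
          rcases h with ⟨h, _⟩ | ⟨h, _⟩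
          · exact hne h
          · exact hxs.1 h
      have inv2 : ∀ ω o, G (Function.update ω s(x₀, v) o) = G ω := by
        intro ω o
        simp only [hG]
        refine Finset.prod_congr rfl fun x hx => ?_
        have hxs := hTS hx
        simp only [hS, Finset.mem_filter, Finset.mem_univ, true_and] at hxs
        have hne : x ≠ x₀ := fun h => hx₀ (h ▸ hx)
        rw [Function.update_of_ne, Function.update_of_ne]
        · intro h
          rw [Sym2.eq_iff] at h
          rcases h with ⟨h, _⟩ | ⟨h, _⟩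
          · exact hne h
          · exact hxs.2 h
        · intro h
          rw [Sym2.eq_iff] at h
          rcases h with ⟨h, _⟩ | ⟨h, _⟩
          · exact hne h
          · exact hxs.2 h
      have hab : s(x₀, u) ≠ s(x₀, v) := by
        intro h
        rw [Sym2.eq_iff] at h
        rcases h with ⟨_, h⟩ | ⟨h, _⟩
        · exact huv h
        · exact hx₀'.2 h
      set H : (Sym2 V → O) → ℝ := fun ω => F x₀ (ω s(x₀, u)) (ω s(x₀, v)) * G ω with hH
      have e1 : ∀ ω : Sym2 V → O, ∏ x ∈ insert x₀ T, F x (ω s(x, u)) (ω s(x, v)) = H ω := by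
        intro ω
        rw [Finset.prod_insert hx₀]
      rw [Finset.sum_congr rfl fun ω _ => e1 ω, Finset.card_insert_of_notMem hx₀]
      have e2 := sum_update s(x₀, v) H
      have e3 := sum_update s(x₀, u) (fun ω => ∑ o', H (Function.update ω s(x₀, v) o'))
      rw [e2] at e3
      have e4 : ∑ ω : Sym2 V → O, ∑ o, ∑ o', H (Function.update (Function.update ω s(x₀, u) o)
          s(x₀, v) o') = (∑ o, ∑ o', F x₀ o o') * ∑ ω, G ω := by
        rw [Finset.mul_sum]
        refine Finset.sum_congr rfl fun ω _ => ?_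
        rw [Finset.sum_mul]
        refine Finset.sum_congr rfl fun o _ => ?_
        rw [Finset.sum_mul]
        refine Finset.sum_congr rfl fun o' _ => ?_
        simp only [hH]
        rw [inv2, inv1, Function.update_self, Function.update_of_ne hab, Function.update_self]
      rw [e4] at e3
      have e5 := ih hTS
      have e6 : (∑ o, ∑ o', F x₀ o o') * ∑ ω, G ω ≤ ((7 / 8) * (Fintype.card O : ℝ) ^ 2) *
          ((Fintype.card (Sym2 V → O) : ℝ) * (7 / 8 : ℝ) ^ T.card) := by
        refine mul_le_mul (hsum x₀ hxS) e5 (Finset.sum_nonneg fun ω _ => hG0 ω) (by positivity)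
      rw [e3] at e6
      have e7 : (0 : ℝ) < (Fintype.card O : ℝ) ^ 2 := by positivity
      have e8 : (Fintype.card O : ℝ) ^ 2 * ∑ ω, H ω ≤ (Fintype.card O : ℝ) ^ 2 *
          ((Fintype.card (Sym2 V → O) : ℝ) * (7 / 8 : ℝ) ^ (T.card + 1)) := by
        calc _ = (Fintype.card O : ℝ) * ((Fintype.card O : ℝ) * ∑ ω, H ω) := by ring
          _ ≤ _ := e6
          _ = _ := by rw [pow_succ]; ring
      exact le_of_mul_le_mul_left e8 e7
  exact key S le_rfl

end Pool.Agent.UPS
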