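import Pool.Agent.Lib.MP_876e19_co.Defs

/-!
# Uniform path systems: two short internally disjoint routes
-/

set_option autoImplicit false

namespace Pool.Agent.UPS

open Finset

variable {V : Type*}

theorem no_cut_vertex [Finite V] {G : SimpleGraph V} (hG : G.Connected) (hT : VT G) :
    ∀ v x y : V, x ≠ v → y ≠ v → ∃ p : G.Walk x y, v ∉ p.support := by
  intro v x y hx hy
  have : Nontrivial V := ⟨x, v, hx⟩
  obtain ⟨v₀, h₀⟩ := hG.exists_connected_induce_compl_singleton_of_finite_nontrivial
  obtain ⟨φ, hφ⟩ := hT v v₀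
  have hx' : φ x ∈ ({v₀}ᶜ : Set V) := by
    rw [Set.mem_compl_singleton_iff, ← hφ]
    exact fun h => hx (φ.injective h)
  have hy' : φ y ∈ ({v₀}ᶜ : Set V) := by
    rw [Set.mem_compl_singleton_iff, ← hφ]
    exact fun h => hy (φ.injective h)
  obtain ⟨q⟩ := h₀.preconnected ⟨φ x, hx'⟩ ⟨φ y, hy'⟩
  let ψ : G.induce ({v₀}ᶜ : Set V) →g G :=
    φ.symm.toHom.comp (SimpleGraph.Embedding.induce (G := G) ({v₀}ᶜ : Set V)).toHom
  have hψ : ∀ a, ψ a = φ.symm a.1 := fun _ => rfl
  have e1 : ψ ⟨φ x, hx'⟩ = x := by simp [hψ]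
  have e2 : ψ ⟨φ y, hy'⟩ = y := by simp [hψ]
  refine ⟨(q.map ψ).copy e1 e2, ?_⟩
  rw [SimpleGraph.Walk.support_copy, SimpleGraph.Walk.support_map]
  intro hv
  obtain ⟨a, _, ha⟩ := List.mem_map.1 hv
  have h2 : a.1 ≠ v₀ := a.2
  have h3 : φ.symm a.1 = v := ha
  have h4 : φ (φ.symm a.1) = φ v := congrArg φ h3
  rw [RelIso.apply_symm_apply, hφ] at h4
  exact h2 h4

namespace Routes

/-- `A` and `B` meet only in their end points -/
def Adm {G : SimpleGraph V} {x u : V} (A B : G.Walk x u) : Prop :=
  ∀ w, w ∈ A.support → w ∈ B.support → w = x ∨ w = u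

lemma Adm.symm {G : SimpleGraph V} {x u : V} {A B : G.Walk x u} (h : Adm A B) : Adm B A :=
  fun w h1 h2 => h w h2 h1

lemma first_hit {G : SimpleGraph V} (S : Set V) {u x : V} (R : G.Walk u x) (hx : x ∈ S) :
    ∃ z ∈ S, ∃ R' : G.Walk u z, (∀ w ∈ R'.support, w ∈ R.support) ∧
      ∀ w ∈ R'.support, w ∈ S → w = z := by
  induction R with
  | @nil a => exact ⟨a, hx, SimpleGraph.Walk.nil, by simp, by simp⟩
  | @cons a b c h p ih =>
    by_cases ha : a ∈ S
    · exact ⟨a, ha, SimpleGraph.Walk.nil, by simp, by simp⟩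
    · obtain ⟨z, hz, R', h1, h2⟩ := ih hx
      refine ⟨z, hz, SimpleGraph.Walk.cons h R', fun w hw => ?_, fun w hw hwS => ?_⟩
      · rw [SimpleGraph.Walk.support_cons, List.mem_cons] at hw ⊢
        rcases hw with hw | hw
        · exact Or.inl hw
        · exact Or.inr (h1 w hw)
      · rw [SimpleGraph.Walk.support_cons, List.mem_cons] at hw
        rcases hw with hw | hw
        · exact absurd (hw ▸ hwS) ha
        · exact h2 w hw hwS

/-- one case of the induction step of Whitney's theorem -/
lemma whitney_case [DecidableEq V] {G : SimpleGraph V} {x w u z : V} (P Q : G.Walk x w)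
    (hP : P.IsPath) (hPQ : Adm P Q) (hwu : G.Adj w u) (hzw : z ≠ w)
    (hz : z ∈ P.support) (R' : G.Walk u z) (hR : ∀ y ∈ R'.support, y ∈ Q.support → y = z)
    : ∃ A B : G.Walk x u, Adm A B := by
  refine ⟨(P.takeUntil z hz).append R'.reverse, Q.concat hwu, fun y h1 h2 => ?_⟩
  rw [SimpleGraph.Walk.mem_support_append_iff, SimpleGraph.Walk.support_reverse,
    List.mem_reverse] at h1
  rw [SimpleGraph.Walk.support_concat, List.mem_append, List.mem_singleton] at h2
  rcases h2 with h2 | h2
  swap
  · exact Or.inr h2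
  left
  have key : ∀ y', y' ∈ (P.takeUntil z hz).support → y' ∈ Q.support → y' = x := by
    intro y' h3 h4
    rcases hPQ y' (P.support_takeUntil_subset_support hz h3) h4 with h5 | h5
    · exact h5
    · subst h5
      exact absurd h3 (SimpleGraph.Walk.endpoint_notMem_support_takeUntil hP hz hzw.symm)
  rcases h1 with h1 | h1
  · exact key y h1 h2
  · have := hR y h1 h2
    subst this
    exact key y (SimpleGraph.Walk.end_mem_support _) h2

lemma Adm.bypass [DecidableEq V] {G : SimpleGraph V} {x u : V} {A B : G.Walk x u}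
    (h : Adm A B) : Adm A.bypass B.bypass :=
  fun w h1 h2 => h w (A.support_bypass_subset_support h1) (B.support_bypass_subset_support h2)

/-- Whitney's theorem -/
lemma whitney [DecidableEq V] {G : SimpleGraph V} (hG : G.Connected)
    (hcut : ∀ v x y : V, x ≠ v → y ≠ v → ∃ p : G.Walk x y, v ∉ p.support) (x : V) :
    ∀ (n : ℕ) (u : V), G.dist x u = n + 1 → ∃ A B : G.Walk x u, Adm A B := by
  intro n
  induction n with
  | zero =>
    intro u hu
    have h : G.Adj x u := SimpleGraph.dist_eq_one_iff_adj.1 hu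
    refine ⟨SimpleGraph.Walk.cons h SimpleGraph.Walk.nil,
      SimpleGraph.Walk.cons h SimpleGraph.Walk.nil, fun w hw _ => ?_⟩
    simpa using hw
  | succ n ih =>
    intro u hu
    obtain ⟨p, hp⟩ := (hG x u).exists_walk_length_eq_dist
    rw [hu] at hp
    -- the last but one vertex
    set w := p.getVert (n + 1) with hw
    have hwu : G.Adj w u := by
      have := p.adj_getVert_succ (i := n + 1) (by omega)
      rwa [show n + 1 + 1 = p.length by omega, p.getVert_length] at this
    have hdw : G.dist x w = n + 1 := by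
      apply le_antisymm
      · refine (SimpleGraph.dist_le (p.take (n + 1))).trans ?_
        rw [SimpleGraph.Walk.take_length]; exact min_le_left _ _
      · have h1 := hG.dist_triangle (u := x) (v := w) (w := u)
        have h2 : G.dist w u = 1 := SimpleGraph.dist_eq_one_iff_adj.2 hwu
        omega
    have hxw : x ≠ w := by
      intro h
      rw [← h, SimpleGraph.dist_self] at hdw
      omega
    have hxu : x ≠ u := by
      intro h
      rw [← h, SimpleGraph.dist_self] at hu
      omega
    obtain ⟨P₀, Q₀, hPQ₀⟩ := ih w hdw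
    set P := P₀.bypass
    set Q := Q₀.bypass
    have hPQ : Adm P Q := hPQ₀.bypass
    have hP : P.IsPath := P₀.bypass_isPath
    have hQ : Q.IsPath := Q₀.bypass_isPath
    by_cases huP : u ∈ P.support
    · refine whitney_case P Q hP hPQ hwu hwu.ne' huP SimpleGraph.Walk.nil ?_
      intro y hy hyQ
      simpa using hy
    by_cases huQ : u ∈ Q.support
    · refine whitney_case Q P hQ hPQ.symm hwu hwu.ne' huQ SimpleGraph.Walk.nil ?_
      intro y hy hyQ
      simpa using hy
    obtain ⟨R, hR⟩ := hcut w u x hwu.ne' hxw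
    obtain ⟨z, hz, R', h1, h2⟩ := first_hit {y | y ∈ P.support ∨ y ∈ Q.support} R
      (Or.inl P.start_mem_support)
    have hzw : z ≠ w := by
      intro h
      exact hR (h ▸ h1 z (SimpleGraph.Walk.end_mem_support _))
    rcases hz with hz | hz
    · exact whitney_case P Q hP hPQ hwu hzw hz R' (fun y hy hyQ => h2 y hy (Or.inr hyQ))
    · exact whitney_case Q P hQ hPQ.symm hwu hzw hz R' (fun y hy hyQ => h2 y hy (Or.inl hyQ))

lemma mem_take {G : SimpleGraph V} {x u : V} (A : G.Walk x u) (i : ℕ) {w : V}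
    (h : w ∈ (A.take i).support) : ∃ k, k ≤ i ∧ k ≤ A.length ∧ A.getVert k = w := by
  obtain ⟨k, h1, h2⟩ := SimpleGraph.Walk.mem_support_iff_exists_getVert.1 h
  rw [SimpleGraph.Walk.take_length] at h2
  rw [SimpleGraph.Walk.take_getVert] at h1
  exact ⟨i ⊓ k, min_le_left _ _, by omega, h1⟩

lemma mem_drop {G : SimpleGraph V} {x u : V} (A : G.Walk x u) {i : ℕ} (hi : i ≤ A.length) {w : V}
    (h : w ∈ (A.drop i).support) : ∃ k, i ≤ k ∧ k ≤ A.length ∧ A.getVert k = w := by
  obtain ⟨k, h1, h2⟩ := SimpleGraph.Walk.mem_support_iff_exists_getVert.1 h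
  rw [SimpleGraph.Walk.drop_length] at h2
  rw [SimpleGraph.Walk.drop_getVert] at h1
  exact ⟨i + k, by omega, by omega, h1⟩

lemma fact1 {G : SimpleGraph V} {x u : V} {A B : G.Walk x u} (hAB : Adm A B)
    (hmin : ∀ A' B' : G.Walk x u, Adm A' B' → A.length + B.length ≤ A'.length + B'.length)
    {i i' : ℕ} (hii : i + 3 ≤ i') (hi' : i' ≤ A.length) {w : V} (h1 : G.Adj (A.getVert i) w)
    (h2 : G.Adj (A.getVert i') w) : w ∈ B.support ∧ w ≠ x ∧ w ≠ u := by
  by_contra hcon
  let A' : G.Walk x u := (A.take i).append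
    (SimpleGraph.Walk.cons h1 (SimpleGraph.Walk.cons h2.symm (A.drop i')))
  have hadm : Adm A' B := by
    intro v hv hvB
    rw [SimpleGraph.Walk.mem_support_append_iff, SimpleGraph.Walk.support_cons,
      SimpleGraph.Walk.support_cons, List.mem_cons, List.mem_cons] at hv
    rcases hv with hv | hv | hv | hv
    · obtain ⟨k, _, hk, rfl⟩ := mem_take A i hv
      exact hAB _ (A.getVert_mem_support k) hvB
    · exact hAB _ (hv ▸ A.getVert_mem_support i) hvB
    · subst hv
      by_contra h3
      push Not at h3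
      exact hcon ⟨hvB, h3.1, h3.2⟩
    · obtain ⟨k, _, hk, rfl⟩ := mem_drop A hi' hv
      exact hAB _ (A.getVert_mem_support k) hvB
  have h3 := hmin A' B hadm
  have h4 : A'.length = i + (A.length - i' + 1 + 1) := by
    rw [SimpleGraph.Walk.length_append, SimpleGraph.Walk.length_cons,
      SimpleGraph.Walk.length_cons, SimpleGraph.Walk.take_length, SimpleGraph.Walk.drop_length,
      min_eq_left (by omega)]
  omega

lemma fact2 {G : SimpleGraph V} {x u : V} {A B : G.Walk x u} (hA : A.IsPath) (hB : B.IsPath)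
    (hAB : Adm A B)
    (hmin : ∀ A' B' : G.Walk x u, Adm A' B' → A.length + B.length ≤ A'.length + B'.length)
    {i i' j j' : ℕ} (hii : i + 3 ≤ i') (hi' : i' ≤ A.length) (hj : j ≤ B.length)
    (h1 : G.Adj (A.getVert i) (B.getVert j))
    (h2 : G.Adj (A.getVert i') (B.getVert j')) : j ≤ j' := by
  by_contra hcon
  push Not at hcon
  let A' : G.Walk x u := (A.take i).append (SimpleGraph.Walk.cons h1 (B.drop j))
  let B' : G.Walk x u := (B.take j').append (SimpleGraph.Walk.cons h2.symm (A.drop i'))
  have hA' : ∀ v ∈ A'.support, (∃ k, k ≤ i ∧ A.getVert k = v) ∨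
      (∃ k, j ≤ k ∧ k ≤ B.length ∧ B.getVert k = v) := by
    intro v hv
    rw [SimpleGraph.Walk.mem_support_append_iff, SimpleGraph.Walk.support_cons,
      List.mem_cons] at hv
    rcases hv with hv | hv | hv
    · obtain ⟨k, hk, _, rfl⟩ := mem_take A i hv
      exact Or.inl ⟨k, hk, rfl⟩
    · exact Or.inl ⟨i, le_rfl, hv.symm⟩
    · exact Or.inr (mem_drop B hj hv)
  have hB' : ∀ v ∈ B'.support, (∃ k, k ≤ j' ∧ B.getVert k = v) ∨
      (∃ k, i' ≤ k ∧ k ≤ A.length ∧ A.getVert k = v) := by
    intro v hv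
    rw [SimpleGraph.Walk.mem_support_append_iff, SimpleGraph.Walk.support_cons,
      List.mem_cons] at hv
    rcases hv with hv | hv | hv
    · obtain ⟨k, hk, _, rfl⟩ := mem_take B j' hv
      exact Or.inl ⟨k, hk, rfl⟩
    · exact Or.inl ⟨j', le_rfl, hv.symm⟩
    · exact Or.inr (mem_drop A hi' hv)
  have hadm : Adm A' B' := by
    intro v hv hvB
    rcases hA' v hv with ⟨k, hk, rfl⟩ | ⟨k, hk, hk', rfl⟩
    · rcases hB' _ hvB with ⟨l, hl, hkl⟩ | ⟨l, hl, hl', hkl⟩
      · exact hAB _ (A.getVert_mem_support k) (hkl ▸ B.getVert_mem_support l)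
      · exfalso
        have := hA.getVert_injOn (by rw [Set.mem_ofPred_eq]; exact hl')
          (by rw [Set.mem_ofPred_eq]; omega) hkl
        omega
    · rcases hB' _ hvB with ⟨l, hl, hkl⟩ | ⟨l, hl, hl', hkl⟩
      · exfalso
        have := hB.getVert_injOn (by rw [Set.mem_ofPred_eq]; omega)
          (by rw [Set.mem_ofPred_eq]; exact hk') hkl
        omega
      · exact hAB _ (hkl ▸ A.getVert_mem_support l) (B.getVert_mem_support k)
  have h3 := hmin A' B' hadm
  have h4 : A'.length = i + (B.length - j + 1) := by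
    rw [SimpleGraph.Walk.length_append, SimpleGraph.Walk.length_cons,
      SimpleGraph.Walk.take_length, SimpleGraph.Walk.drop_length, min_eq_left (by omega)]
  have h5 : B'.length = j' + (A.length - i' + 1) := by
    rw [SimpleGraph.Walk.length_append, SimpleGraph.Walk.length_cons,
      SimpleGraph.Walk.take_length, SimpleGraph.Walk.drop_length, min_eq_left (by omega)]
  omega

lemma half [Fintype V] {G : SimpleGraph V} (d : ℕ) (hd : ∀ v, (G.neighborSet v).ncard = d)
    {x u : V} {A B : G.Walk x u} (hA : A.IsPath) (hB : B.IsPath) (hAB : Adm A B)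
    (hmin : ∀ A' B' : G.Walk x u, Adm A' B' → A.length + B.length ≤ A'.length + B'.length) :
    A.length * (d - 1) ≤ 6 * Fintype.card V := by
  classical
  set m := A.length / 3 with hm
  let N : ℕ → Finset V := fun t => univ.filter fun w =>
    G.Adj (A.getVert (3 * t)) w ∧ ¬ (w ∈ B.support ∧ w ≠ x ∧ w ≠ u)
  let J : ℕ → Finset ℕ := fun t => (Ico 1 B.length).filter fun j =>
    G.Adj (A.getVert (3 * t)) (B.getVert j)
  let J' : ℕ → Finset ℕ := fun t => (J t).filter fun j => ∃ j₂ ∈ J t, j₂ < j
  have hdle : ∀ t, d ≤ (N t).card + (J t).card := by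
    intro t
    have h1 : (univ.filter fun w => G.Adj (A.getVert (3 * t)) w) ⊆
        N t ∪ (J t).image B.getVert := by
      intro w hw
      rw [mem_filter] at hw
      rw [mem_union, mem_image]
      by_cases h : w ∈ B.support ∧ w ≠ x ∧ w ≠ u
      · right
        obtain ⟨j, hj1, hj2⟩ := SimpleGraph.Walk.mem_support_iff_exists_getVert.1 h.1
        refine ⟨j, ?_, hj1⟩
        rw [mem_filter, mem_Ico]
        refine ⟨⟨?_, ?_⟩, hj1 ▸ hw.2⟩
        · rcases Nat.eq_zero_or_pos j with h0 | h0
          · rw [h0, SimpleGraph.Walk.getVert_zero] at hj1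
            exact absurd hj1.symm h.2.1
          · exact h0
        · rcases Nat.lt_or_ge j B.length with h0 | h0
          · exact h0
          · have : j = B.length := le_antisymm hj2 h0
            rw [this, SimpleGraph.Walk.getVert_length] at hj1
            exact absurd hj1.symm h.2.2
      · left
        exact mem_filter.2 ⟨mem_univ _, hw.2, h⟩
    have h2 : (univ.filter fun w => G.Adj (A.getVert (3 * t)) w).card = d := by
      rw [← hd (A.getVert (3 * t)), ← Set.ncard_coe_finset]
      congr 1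
      ext w
      simp
    rw [← h2]
    exact (card_le_card h1).trans ((card_union_le _ _).trans
      (Nat.add_le_add_left card_image_le _))
  have hJ : ∀ t, (J t).card ≤ (J' t).card + 1 := by
    intro t
    rcases (J t).eq_empty_or_nonempty with h | h
    · rw [h]; simp
    · have h1 : J t ⊆ insert ((J t).min' h) (J' t) := by
        intro j hj
        rw [mem_insert]
        by_cases h2 : j = (J t).min' h
        · exact Or.inl h2
        · right
          exact mem_filter.2 ⟨hj, (J t).min' h, min'_mem _ _,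
            lt_of_le_of_ne (min'_le _ _ hj) (Ne.symm h2)⟩
      exact (card_le_card h1).trans (card_insert_le _ _)
  have h3t : ∀ t ∈ range (m + 1), 3 * t ≤ A.length := by
    intro t ht
    rw [mem_range] at ht
    omega
  have hNd : ∑ t ∈ range (m + 1), (N t).card ≤ Fintype.card V := by
    rw [← card_biUnion]
    · exact card_le_univ _
    · intro t ht t' ht' hne
      rw [Function.onFun, disjoint_left]
      have key : ∀ t t', t ∈ range (m + 1) → t' ∈ range (m + 1) → t < t' → ∀ w, w ∈ N t →
          w ∉ N t' := by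
        intro t t' ht ht' hlt w hw hw'
        rw [mem_filter] at hw hw'
        exact hw.2.2 (fact1 hAB hmin (i := 3 * t) (i' := 3 * t') (by omega) (h3t t' ht')
          hw.2.1 hw'.2.1)
      intro w hw hw'
      rcases lt_or_gt_of_ne hne with h | h
      · exact key t t' ht ht' h w hw hw'
      · exact key t' t ht' ht h w hw' hw
  have hJd : ∑ t ∈ range (m + 1), (J' t).card ≤ B.length := by
    rw [← card_biUnion]
    · refine (card_le_card (t := Ico 1 B.length) ?_).trans (by simp)
      intro j hj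
      rw [mem_biUnion] at hj
      obtain ⟨t, _, hj⟩ := hj
      exact (mem_filter.1 (mem_filter.1 hj).1).1
    · intro t ht t' ht' hne
      rw [Function.onFun, disjoint_left]
      have key : ∀ t t', t ∈ range (m + 1) → t' ∈ range (m + 1) → t < t' → ∀ w, w ∈ J' t →
          w ∉ J' t' := by
        intro t t' ht ht' hlt j hj hj'
        rw [mem_filter, mem_filter, mem_Ico] at hj hj'
        obtain ⟨j₂, hj₂, hlt₂⟩ := hj'.2
        rw [mem_filter, mem_Ico] at hj₂
        have := fact2 hA hB hAB hmin (i := 3 * t) (i' := 3 * t') (j := j) (j' := j₂)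
          (by omega) (h3t t' ht') (by omega) hj.1.2 hj₂.2
        omega
      intro w hw hw'
      rcases lt_or_gt_of_ne hne with h | h
      · exact key t t' ht ht' h w hw hw'
      · exact key t' t ht' ht h w hw' hw
  have hsum : (m + 1) * d ≤ Fintype.card V + B.length + (m + 1) := by
    calc (m + 1) * d = ∑ t ∈ range (m + 1), d := by simp
      _ ≤ ∑ t ∈ range (m + 1), ((N t).card + ((J' t).card + 1)) :=
          sum_le_sum fun t _ => (hdle t).trans (Nat.add_le_add_left (hJ t) _)
      _ = ∑ t ∈ range (m + 1), (N t).card + (∑ t ∈ range (m + 1), (J' t).card + (m + 1)) := by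
          rw [sum_add_distrib, sum_add_distrib]; simp
      _ ≤ Fintype.card V + (B.length + (m + 1)) := by gcongr
      _ = _ := by ring
  have hBn : B.length < Fintype.card V := hB.length_lt
  rcases Nat.eq_zero_or_pos d with h0 | h0
  · rw [h0]; simp
  obtain ⟨k, rfl⟩ : ∃ k, d = k + 1 := ⟨d - 1, by omega⟩
  rw [Nat.add_sub_cancel]
  have h6 : (m + 1) * k ≤ 2 * Fintype.card V := by
    have : (m + 1) * (k + 1) = (m + 1) * k + (m + 1) := by ring
    omega
  have h7 : A.length ≤ 3 * (m + 1) := by omega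
  calc A.length * k ≤ 3 * (m + 1) * k := Nat.mul_le_mul_right _ h7
    _ = 3 * ((m + 1) * k) := by ring
    _ ≤ 3 * (2 * Fintype.card V) := Nat.mul_le_mul_left _ h6
    _ = _ := by ring

end Routes

open Routes

theorem exists_routes [Fintype V] {G : SimpleGraph V} (hG : G.Connected)
    (d : ℕ) (hd : ∀ v, (G.neighborSet v).ncard = d)
    (hcut : ∀ v x y : V, x ≠ v → y ≠ v → ∃ p : G.Walk x y, v ∉ p.support)
    (x u : V) (hxu : x ≠ u) :
    ∃ A B : G.Walk x u, A.IsPath ∧ B.IsPath ∧
      (∀ w, w ∈ A.support → w ∈ B.support → w = x ∨ w = u) ∧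
      (A.length + B.length) * d ≤ 24 * Fintype.card V ∧
      (G.Adj x u → A.length = 1 ∧ B.length = 1) := by
  classical
  have hdn : d ≤ Fintype.card V := by
    rw [← hd x, ← Nat.card_eq_fintype_card]
    exact Set.ncard_le_card _
  by_cases hadj : G.Adj x u
  · refine ⟨hadj.toWalk, hadj.toWalk, ?_, ?_, ?_, ?_, fun _ => ⟨rfl, rfl⟩⟩
    · exact SimpleGraph.Walk.IsPath.of_adj hadj
    · exact SimpleGraph.Walk.IsPath.of_adj hadj
    · intro w hw _
      simpa using hw
    · show (1 + 1) * d ≤ _
      omega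
  have hdist : ∃ n, G.dist x u = n + 1 := by
    have := hG.pos_dist_of_ne hxu
    exact ⟨G.dist x u - 1, by omega⟩
  obtain ⟨n, hn⟩ := hdist
  obtain ⟨A₀, B₀, h₀⟩ := whitney hG hcut x n u hn
  have hex : ∃ k, ∃ A B : G.Walk x u, Adm A B ∧ A.length + B.length = k :=
    ⟨_, A₀, B₀, h₀, rfl⟩
  obtain ⟨A₁, B₁, h₁, hk⟩ := Nat.find_spec hex
  have hmin : ∀ A' B' : G.Walk x u, Adm A' B' → A₁.length + B₁.length ≤ A'.length + B'.length :=
    fun A' B' h => hk ▸ Nat.find_min' hex ⟨A', B', h, rfl⟩
  set A := A₁.bypass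
  set B := B₁.bypass
  have hA : A.IsPath := A₁.bypass_isPath
  have hB : B.IsPath := B₁.bypass_isPath
  have hAB : Adm A B := h₁.bypass
  have hmin' : ∀ A' B' : G.Walk x u, Adm A' B' → A.length + B.length ≤ A'.length + B'.length := by
    intro A' B' h
    have h1 := hmin A' B' h
    have h2 : A.length ≤ A₁.length := A₁.length_bypass_le_length
    have h3 : B.length ≤ B₁.length := B₁.length_bypass_le_length
    omega
  refine ⟨A, B, hA, hB, hAB, ?_, fun h => absurd h hadj⟩
  have e1 := half d hd hA hB hAB hmin'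
  have e2 := half d hd hB hA hAB.symm (fun A' B' h => by
    have := hmin' B' A' h.symm
    omega)
  have l1 := hA.length_lt
  have l2 := hB.length_lt
  rcases Nat.lt_or_ge d 2 with h2 | h2
  · calc (A.length + B.length) * d ≤ (A.length + B.length) * 1 :=
          Nat.mul_le_mul_left _ (by omega)
      _ ≤ _ := by omega
  · calc (A.length + B.length) * d ≤ (A.length + B.length) * (2 * (d - 1)) :=
          Nat.mul_le_mul_left _ (by omega)
      _ = 2 * (A.length * (d - 1) + B.length * (d - 1)) := by ring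
      _ ≤ _ := by omega

end Pool.Agent.UPS
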