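import Pool.Agent.Lib.MP_876e19_co.Gsw

/-!
# Balanced selection (helper96)
-/

set_option autoImplicit false

namespace Pool.Agent.UPS

open Finset Real

lemma round_binary {ι K : Type*} [Fintype ι] [Fintype K] (D : ι → K → ℝ) (r : ℝ) (hr : 0 ≤ r)
    (hD : ∀ i, ∑ e, D i e ^ 2 ≤ r ^ 2) (x₀ : ι → ℝ) (hx₀ : ∀ i, |x₀ i| ≤ 1) :
    ∃ x : ι → ℝ, (∀ i, x i = 1 ∨ x i = -1) ∧ ∀ e,
      |∑ i, (x i - x₀ i) * D i e| ≤ 3 * r * sqrt (log (2 * (Fintype.card K : ℝ))) := by
  classical
  rcases isEmpty_or_nonempty K with hK | hK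
  · exact ⟨fun _ => 1, fun _ => Or.inl rfl, fun e => (IsEmpty.false e).elim⟩
  rcases hr.eq_or_lt with hr0 | hr0
  · refine ⟨fun _ => 1, fun _ => Or.inl rfl, fun e => ?_⟩
    have : ∀ i, D i e = 0 := by
      intro i
      have h1 := hD i
      rw [← hr0] at h1
      have h2 : D i e ^ 2 ≤ ∑ e, D i e ^ 2 :=
        Finset.single_le_sum (f := fun e => D i e ^ 2) (fun _ _ => sq_nonneg _) (Finset.mem_univ e)
      have h3 : D i e ^ 2 ≤ 0 := by linarith
      exact pow_eq_zero_iff two_ne_zero |>.1 (le_antisymm h3 (sq_nonneg _))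
    simp [this, ← hr0]
  have hcard : (1:ℝ) ≤ Fintype.card K := by exact_mod_cast Fintype.card_pos
  set Lg := log (2 * (Fintype.card K : ℝ)) with hLg
  have hLg0 : 0 < Lg := log_pos (by linarith)
  set lam := sqrt (Lg / 2) with hlam
  have hlam0 : 0 < lam := sqrt_pos.2 (by linarith)
  have hlam2 : lam ^ 2 = Lg / 2 := sq_sqrt (by linarith)
  let u : ι → EuclideanSpace ℝ K := fun i => WithLp.toLp 2 (fun e => D i e / r)
  have hu : ∀ i, ‖u i‖ ≤ 1 := by
    intro i
    rw [EuclideanSpace.norm_eq]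
    apply Real.sqrt_le_one.2
    simp only [u, Real.norm_eq_abs, sq_abs, div_pow]
    rw [← Finset.sum_div, div_le_one (by positivity)]
    exact hD i
  let θ : K × Bool → EuclideanSpace ℝ K :=
    fun t => EuclideanSpace.single t.1 (if t.2 then lam else -lam)
  have hθ : ∀ t, ‖θ t‖ ^ 2 = lam ^ 2 := by
    intro t
    simp only [θ, PiLp.norm_single, Real.norm_eq_abs, sq_abs]
    split_ifs <;> ring
  obtain ⟨x, hx1, hx2⟩ := gsw u hu θ x₀ hx₀
  refine ⟨x, hx1, fun e => ?_⟩
  set S := ∑ i, (x i - x₀ i) * D i e with hS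
  have hin : ∀ b : Bool, inner ℝ (θ (e, b)) (∑ i, (x i - x₀ i) • u i) =
      (if b then lam else -lam) * (S / r) := by
    intro b
    simp only [θ]
    rw [EuclideanSpace.inner_single_left]
    simp only [conj_trivial]
    congr 1
    rw [hS, Finset.sum_div]
    simp only [WithLp.ofLp_sum, Finset.sum_apply, WithLp.ofLp_smul, Pi.smul_apply, smul_eq_mul, u]
    apply Finset.sum_congr rfl
    intro i _
    ring
  have hsum : ∑ t, exp (2 * ‖θ t‖ ^ 2) = (2 * (Fintype.card K : ℝ)) ^ 2 := by
    simp_rw [hθ, hlam2]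
    rw [Finset.sum_const, Finset.card_univ, Fintype.card_prod, Fintype.card_bool, nsmul_eq_mul]
    rw [show 2 * (Lg / 2) = Lg by ring, hLg, exp_log (by linarith)]
    push_cast
    ring
  rw [hsum] at hx2
  have hone : ∀ b : Bool, (if b then lam else -lam) * (S / r) ≤ 2 * Lg := by
    intro b
    have h1 : exp ((if b then lam else -lam) * (S / r)) ≤ (2 * (Fintype.card K : ℝ)) ^ 2 := by
      rw [← hin b]
      refine le_trans ?_ hx2
      exact Finset.single_le_sum
        (f := fun t => exp (inner ℝ (θ t) (∑ i, (x i - x₀ i) • u i)))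
        (fun _ _ => (exp_pos _).le) (Finset.mem_univ (e, b))
    have h2 := (le_log_iff_exp_le (by positivity)).2 h1
    rw [log_pow, ← hLg] at h2
    push_cast at h2
    exact h2
  have h1 : lam * (S / r) ≤ 2 * Lg := by simpa using hone true
  have h2 : -lam * (S / r) ≤ 2 * Lg := by simpa using hone false
  have h3 : lam * (|S| / r) ≤ 2 * Lg := by
    rcases abs_cases S with ⟨h, _⟩ | ⟨h, _⟩
    · rw [h]; exact h1
    · rw [h]
      calc lam * (-S / r) = -lam * (S / r) := by ring
        _ ≤ _ := h2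
  have h4 : |S| / r ≤ 3 * sqrt Lg := by
    have h5 : sqrt Lg ^ 2 = Lg := sq_sqrt hLg0.le
    have h6 : 0 < sqrt Lg := sqrt_pos.2 hLg0
    have h7 : 2 * Lg ≤ lam * (3 * sqrt Lg) := by
      have h8 : (2 * sqrt Lg) ^ 2 ≤ (3 * lam) ^ 2 := by
        rw [mul_pow, mul_pow, h5, hlam2]; linarith
      have h9 : 2 * sqrt Lg ≤ 3 * lam := by
        exact le_of_sq_le_sq h8 (by positivity) 
      calc 2 * Lg = (2 * sqrt Lg) * sqrt Lg := by nlinarith
        _ ≤ (3 * lam) * sqrt Lg := by gcongr
        _ = _ := by ring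
    have h10 : lam * (|S| / r) ≤ lam * (3 * sqrt Lg) := h3.trans h7
    exact le_of_mul_le_mul_left h10 hlam0
  rw [div_le_iff₀ hr0] at h4
  calc |S| ≤ 3 * sqrt Lg * r := h4
    _ = _ := by ring

lemma select_aux {ι K : Type*} [Fintype ι] [Fintype K] (ρ : ℝ) (hρ0 : 0 ≤ ρ) (k : ℕ) :
    ∀ (a : ι → (Fin k → Bool) → K → ℝ) (w : ι → (Fin k → Bool) → ℝ) (η : ℝ),
      (∀ i o, 0 ≤ w i o) → (∀ i o, w i o ≤ η) → 0 ≤ η →
      (∀ i o o', ∑ e, (a i o e - a i o' e) ^ 2 ≤ ρ ^ 2) →
      ∃ s : ι → (Fin k → Bool), ∀ e,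
        |∑ i, (∑ o, w i o) * a i (s i) e - ∑ i, ∑ o, w i o * a i o e| ≤
          3 * ρ * η * (2 ^ k - 1) * sqrt (log (2 * (Fintype.card K : ℝ))) := by
  induction k with
  | zero =>
    intro a w η _ _ _ _
    refine ⟨fun _ => default, fun e => ?_⟩
    have h : ∀ i, (∑ o, w i o) * a i default e = ∑ o, w i o * a i o e := by
      intro i
      rw [Fintype.sum_subsingleton _ (default : Fin 0 → Bool),
        Fintype.sum_subsingleton _ (default : Fin 0 → Bool)]
    rw [Finset.sum_congr rfl (fun i _ => h i), sub_self, abs_zero]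
    simp
  | succ k ih =>
    intro a w η hw0 hwη hη hρ
    classical
    -- the two sub-options
    set w0 : ι × (Fin k → Bool) → ℝ := fun q => w q.1 (Fin.cons false q.2) with hw0d
    set w1 : ι × (Fin k → Bool) → ℝ := fun q => w q.1 (Fin.cons true q.2) with hw1d
    set W : ι × (Fin k → Bool) → ℝ := fun q => w0 q + w1 q with hW
    set D : ι × (Fin k → Bool) → K → ℝ := fun q e =>
      W q / 2 * (a q.1 (Fin.cons false q.2) e - a q.1 (Fin.cons true q.2) e) with hD
    set x₀ : ι × (Fin k → Bool) → ℝ := fun q => (w0 q - w1 q) / W q with hx₀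
    have hW0 : ∀ q, 0 ≤ W q := fun q => add_nonneg (hw0 _ _) (hw0 _ _)
    have hWη : ∀ q, W q ≤ 2 * η := by
      intro q
      have h1 := hwη q.1 (Fin.cons false q.2)
      have h2 := hwη q.1 (Fin.cons true q.2)
      simp only [hW, hw0d, hw1d]; linarith
    have hx₀1 : ∀ q, |x₀ q| ≤ 1 := by
      intro q
      simp only [hx₀]
      rw [abs_div, abs_of_nonneg (hW0 q)]
      apply div_le_one_of_le₀ _ (hW0 q)
      rw [abs_le]
      have h1 := hw0 q.1 (Fin.cons false q.2)
      have h2 := hw0 q.1 (Fin.cons true q.2)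
      simp only [hW, hw0d, hw1d]
      constructor <;> linarith
    have hDr : ∀ q, ∑ e, D q e ^ 2 ≤ (η * ρ) ^ 2 := by
      intro q
      simp only [hD, mul_pow]
      rw [← Finset.mul_sum]
      have h1 : (W q / 2) ^ 2 ≤ η ^ 2 := by
        apply pow_le_pow_left₀ (by have := hW0 q; positivity)
        have := hWη q; linarith
      exact mul_le_mul h1 (hρ _ _ _) (Finset.sum_nonneg fun _ _ => sq_nonneg _) (sq_nonneg _)
    obtain ⟨x, hx1, hx2⟩ := round_binary D (η * ρ) (by positivity) hDr x₀ hx₀1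
    -- chosen bits
    set bt : ι × (Fin k → Bool) → Bool := fun q => if x q = 1 then false else true with hbt
    obtain ⟨s, hs⟩ := ih (fun i o => a i (Fin.cons (bt (i, o)) o)) (fun i o => W (i, o)) (2 * η)
      (fun i o => hW0 _) (fun i o => hWη _) (by positivity) (fun i o o' => hρ _ _ _)
    refine ⟨fun i => Fin.cons (bt (i, s i)) (s i), fun e => ?_⟩
    -- rewrite sums over Fin (k+1) → Bool
    have hsplit : ∀ f : (Fin (k+1) → Bool) → ℝ, ∑ o, f o =
        ∑ o : Fin k → Bool, (f (Fin.cons false o) + f (Fin.cons true o)) := by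
      intro f
      rw [← (Fin.consEquiv (fun _ : Fin (k+1) => Bool)).sum_comp, Fintype.sum_prod_type_right]
      apply Finset.sum_congr rfl
      intro o _
      rw [Fintype.sum_bool, add_comm]
      rfl
    have e1 : ∀ i, ∑ o, w i o = ∑ o : Fin k → Bool, W (i, o) := by
      intro i; rw [hsplit]
    have e2 : ∑ i, ∑ o, w i o * a i o e =
        ∑ i, ∑ o : Fin k → Bool, (w0 (i, o) * a i (Fin.cons false o) e +
          w1 (i, o) * a i (Fin.cons true o) e) := by
      apply Finset.sum_congr rfl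
      intro i _
      rw [hsplit]
    have e3 : ∑ i, ∑ o : Fin k → Bool, W (i, o) * a i (Fin.cons (bt (i, o)) o) e -
        ∑ i, ∑ o, w i o * a i o e = ∑ q, (x q - x₀ q) * D q e := by
      rw [e2, ← Finset.sum_sub_distrib, Fintype.sum_prod_type]
      apply Finset.sum_congr rfl
      intro i _
      rw [← Finset.sum_sub_distrib]
      apply Finset.sum_congr rfl
      intro o _
      have hWeq : W (i, o) = w0 (i, o) + w1 (i, o) := rfl
      have hx0W : x₀ (i, o) * W (i, o) = w0 (i, o) - w1 (i, o) := by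
        simp only [hx₀]
        by_cases h : W (i, o) = 0
        · have h1 : 0 ≤ w0 (i, o) := hw0 _ _
          have h2 : 0 ≤ w1 (i, o) := hw0 _ _
          rw [h, mul_zero]
          have h3 : w0 (i, o) + w1 (i, o) = 0 := by rw [← hWeq]; exact h
          linarith
        · rw [div_mul_cancel₀ _ h]
      rcases hx1 (i, o) with h | h
      · have hb : bt (i, o) = false := by simp [hbt, h]
        rw [hb, h]
        simp only [hD]
        have : (1 - x₀ (i, o)) * (W (i, o) / 2 * (a i (Fin.cons false o) e -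
            a i (Fin.cons true o) e)) = (W (i, o) - x₀ (i, o) * W (i, o)) / 2 *
            (a i (Fin.cons false o) e - a i (Fin.cons true o) e) := by ring
        rw [this, hx0W, hWeq]; ring
      · have hb : bt (i, o) = true := by
          simp only [hbt]; rw [if_neg]; rw [h]; norm_num
        rw [hb, h]
        simp only [hD]
        have : (-1 - x₀ (i, o)) * (W (i, o) / 2 * (a i (Fin.cons false o) e -
            a i (Fin.cons true o) e)) = (-W (i, o) - x₀ (i, o) * W (i, o)) / 2 *
            (a i (Fin.cons false o) e - a i (Fin.cons true o) e) := by ring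
        rw [this, hx0W, hWeq]; ring
    have h1 := hs e
    have h2 := hx2 e
    rw [← e3] at h2
    simp_rw [e1]
    set L := sqrt (log (2 * (Fintype.card K : ℝ)))
    have h3 : |∑ i, (∑ o : Fin k → Bool, W (i, o)) * a i (Fin.cons (bt (i, s i)) (s i)) e -
        ∑ i, ∑ o, w i o * a i o e| ≤ 3 * ρ * (2 * η) * (2 ^ k - 1) * L + 3 * (η * ρ) * L := by
      calc _ ≤ |∑ i, (∑ o : Fin k → Bool, W (i, o)) * a i (Fin.cons (bt (i, s i)) (s i)) e -
            ∑ i, ∑ o : Fin k → Bool, W (i, o) * a i (Fin.cons (bt (i, o)) o) e| +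
            |∑ i, ∑ o : Fin k → Bool, W (i, o) * a i (Fin.cons (bt (i, o)) o) e -
        ∑ i, ∑ o, w i o * a i o e| := abs_sub_le _ _ _
        _ ≤ _ := add_le_add h1 h2
    refine h3.trans (le_of_eq ?_)
    ring

/-- **Balanced selection**: choose one option for every index so that all coordinates are
close to their averages. -/
theorem select_balanced {ι O K : Type*} [Fintype ι] [Fintype O] [Nonempty O] [Fintype K]
    (a : ι → O → K → ℝ) (ρ : ℝ) (hρ0 : 0 ≤ ρ)
    (hρ : ∀ i o o', ∑ e, (a i o e - a i o' e) ^ 2 ≤ ρ ^ 2) :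
    ∃ s : ι → O, ∀ e : K,
      |∑ i, a i (s i) e - ∑ i, (∑ o, a i o e) / (Fintype.card O : ℝ)| ≤
        6 * ρ * Real.sqrt (Real.log (2 * (Fintype.card K : ℝ))) := by
  classical
  set M := Fintype.card O with hM
  have hM1 : 1 ≤ M := Fintype.card_pos
  set k := Nat.clog 2 M with hk
  have hk1 : M ≤ 2 ^ k := Nat.le_pow_clog (by norm_num) M
  have hk2 : 2 ^ k ≤ 2 * M := by
    rcases Nat.eq_zero_or_pos k with h | h
    · rw [h]; omega
    · have := Nat.pow_pred_clog_lt_self (b := 2) (by norm_num) (x := M) (by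
        by_contra hneg
        push Not at hneg
        have : M = 1 := by omega
        rw [this, Nat.clog_one_right] at hk
        omega)
      rw [← hk] at this
      have h2 : 2 ^ k = 2 * 2 ^ (k - 1) := by
        rw [← pow_succ']; congr 1; omega
      rw [h2]
      have h3 : 2 ^ k.pred ≤ M := this.le
      rw [Nat.pred_eq_sub_one] at h3
      omega
  have hcard : Fintype.card (Fin k → Bool) = 2 ^ k := by simp
  obtain ⟨j⟩ : Nonempty (O ↪ (Fin k → Bool)) :=
    Function.Embedding.nonempty_of_card_le (by rw [hcard]; exact hk1)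
  set dec : (Fin k → Bool) → O := Function.invFun j with hdec
  have hdecj : ∀ o, dec (j o) = o := fun o => Function.leftInverse_invFun j.injective o
  set w : ι → (Fin k → Bool) → ℝ := fun _ o => if o ∈ Set.range j then (M:ℝ)⁻¹ else 0 with hw
  have hMpos : (0:ℝ) < M := by exact_mod_cast hM1
  obtain ⟨s, hs⟩ := select_aux ρ hρ0 k (fun i o => a i (dec o)) w (M:ℝ)⁻¹
    (fun i o => by simp only [hw]; split_ifs <;> positivity)
    (fun i o => by simp only [hw]; split_ifs; exacts [le_rfl, by positivity])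
    (by positivity) (fun i o o' => hρ _ _ _)
  have hsumj : ∀ f : (Fin k → Bool) → ℝ, ∑ o, (if o ∈ Set.range j then (M:ℝ)⁻¹ else 0) * f o =
      (∑ o : O, f (j o)) / M := by
    intro f
    have : ∑ o, (if o ∈ Set.range j then (M:ℝ)⁻¹ else 0) * f o =
        ∑ o ∈ Finset.univ.map j, (M:ℝ)⁻¹ * f o := by
      symm
      rw [← Finset.sum_filter_add_sum_filter_not Finset.univ (fun o => o ∈ Set.range j)
        (fun o => (if o ∈ Set.range j then (M:ℝ)⁻¹ else 0) * f o)]
      rw [Finset.sum_eq_zero (s := Finset.univ.filter (fun o => ¬ o ∈ Set.range j)), add_zero]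
      · have hset : Finset.univ.map j = Finset.univ.filter (fun o => o ∈ Set.range j) := by
          ext o; simp
        rw [hset]
        apply Finset.sum_congr rfl
        intro o ho
        rw [if_pos (Finset.mem_filter.1 ho).2]
      · intro o ho
        rw [if_neg (Finset.mem_filter.1 ho).2, zero_mul]
    rw [this, Finset.sum_map, ← Finset.mul_sum, div_eq_inv_mul]
  have hsum1 : ∀ i, ∑ o, w i o = 1 := by
    intro i
    have := hsumj (fun _ => 1)
    simp only [mul_one] at this
    simp only [hw]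
    rw [this, Finset.sum_const, Finset.card_univ, nsmul_eq_mul, mul_one, ← hM,
      div_self hMpos.ne']
  refine ⟨fun i => dec (s i), fun e => ?_⟩
  have h1 := hs e
  simp only [hsum1, one_mul] at h1
  have h2 : ∑ i, ∑ o, w i o * a i (dec o) e = ∑ i, (∑ o, a i o e) / (M:ℝ) := by
    apply Finset.sum_congr rfl
    intro i _
    simp only [hw]
    rw [hsumj (fun o => a i (dec o) e)]
    simp only [hdecj]
  rw [h2] at h1
  refine h1.trans ?_
  have hL : 0 ≤ sqrt (log (2 * (Fintype.card K : ℝ))) := sqrt_nonneg _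
  have h3 : (M:ℝ)⁻¹ * (2 ^ k - 1) ≤ 2 := by
    rw [inv_mul_le_iff₀ hMpos]
    have : ((2:ℝ) ^ k) ≤ 2 * M := by exact_mod_cast hk2
    linarith
  calc 3 * ρ * (M:ℝ)⁻¹ * (2 ^ k - 1) * sqrt (log (2 * (Fintype.card K : ℝ)))
      = 3 * ρ * ((M:ℝ)⁻¹ * (2 ^ k - 1)) * sqrt (log (2 * (Fintype.card K : ℝ))) := by ring
    _ ≤ 3 * ρ * 2 * sqrt (log (2 * (Fintype.card K : ℝ))) := by gcongr
    _ = _ := by ring

end Pool.Agent.UPS
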