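import Pool.Agent.Lib.MP_876e19_co.Defs

/-!
# Uniform path systems: correcting the vertex loads by toggling edges
-/

set_option autoImplicit false

namespace Pool.Agent.UPS

open Finset

variable {V : Type*}

namespace Toggle

/-- greedy list edge colouring -/
lemma greedy [Fintype V] [DecidableEq V] (AV : Sym2 V → Finset V) (t : Sym2 V → ℕ) (Δ : ℕ)
    (hΔ : ∀ v, ∑ e ∈ univ.filter (fun e : Sym2 V => v ∈ e), t e ≤ Δ)
    (hav : ∀ e, t e ≠ 0 → 2 * Δ ≤ (AV e).card) (S : Finset (Sym2 V)) :
    ∃ R : Sym2 V → Finset V, (∀ e ∈ S, R e ⊆ AV e ∧ (R e).card = t e) ∧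
      ∀ e ∈ S, ∀ f ∈ S, e ≠ f → ∀ v, v ∈ e → v ∈ f → Disjoint (R e) (R f) := by
  induction S using Finset.induction_on with
  | empty => exact ⟨fun _ => ∅, by simp, by simp⟩
  | insert e S he ih =>
    obtain ⟨R, h1, h2⟩ := ih
    -- choose the set for `e`
    obtain ⟨T, hT1, hT2, hT3⟩ : ∃ T : Finset V, T ⊆ AV e ∧ T.card = t e ∧
        ∀ f ∈ S, ∀ v, v ∈ e → v ∈ f → Disjoint T (R f) := by
      by_cases ht : t e = 0
      · exact ⟨∅, by simp, by simp [ht], by simp⟩
      · let F := (S.filter fun f => ∃ v, v ∈ e ∧ v ∈ f).biUnion R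
        have hF : F.card + 2 * t e ≤ 2 * Δ := by
          induction e with
          | _ a b =>
            have h3 : F.card ≤ ∑ f ∈ S.filter (fun f => ∃ v, v ∈ s(a, b) ∧ v ∈ f), t f := by
              refine card_biUnion_le.trans (sum_le_sum fun f hf => ?_)
              rw [(h1 f (mem_filter.1 hf).1).2]
            have h4 : ∑ f ∈ S.filter (fun f => ∃ v, v ∈ s(a, b) ∧ v ∈ f), t f ≤
                ∑ f ∈ (univ.filter (fun f : Sym2 V => a ∈ f)).erase s(a, b), t f +
                ∑ f ∈ (univ.filter (fun f : Sym2 V => b ∈ f)).erase s(a, b), t f := by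
              rw [← sum_union_inter]
              refine le_trans (sum_le_sum_of_subset ?_) (Nat.le_add_right _ _)
              intro f hf
              obtain ⟨hfS, v, hv, hvf⟩ := mem_filter.1 hf
              have hne : f ≠ s(a, b) := fun h => he (h ▸ hfS)
              rw [mem_union, mem_erase, mem_erase, mem_filter, mem_filter]
              rcases Sym2.mem_iff.1 hv with rfl | rfl
              · exact Or.inl ⟨hne, mem_univ _, hvf⟩
              · exact Or.inr ⟨hne, mem_univ _, hvf⟩
            have h5 := add_sum_erase (univ.filter (fun f : Sym2 V => a ∈ f)) t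
              (a := s(a, b)) (by simp)
            have h6 := add_sum_erase (univ.filter (fun f : Sym2 V => b ∈ f)) t
              (a := s(a, b)) (by simp)
            have h7 := hΔ a
            have h8 := hΔ b
            omega
        have h3 : t e ≤ (AV e \ F).card := by
          have := le_card_sdiff F (AV e)
          have := hav e ht
          omega
        obtain ⟨T, hT, hTc⟩ := exists_subset_card_eq h3
        refine ⟨T, hT.trans sdiff_subset, hTc, fun f hf v hve hvf => ?_⟩
        rw [disjoint_left]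
        intro x hx hxf
        have := (mem_sdiff.1 (hT hx)).2
        exact this (mem_biUnion.2 ⟨f, mem_filter.2 ⟨hf, v, hve, hvf⟩, hxf⟩)
    refine ⟨Function.update R e T, ?_, ?_⟩
    · intro f hf
      by_cases hfe : f = e
      · subst hfe; simp [hT1, hT2]
      · rw [Function.update_of_ne hfe]
        exact h1 f ((mem_insert.1 hf).resolve_left hfe)
    · intro f hf g hg hfg v hvf hvg
      by_cases hfe : f = e
      · subst hfe
        have hge : g ≠ f := fun h => hfg h.symm
        rw [Function.update_self, Function.update_of_ne hge]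
        exact hT3 g ((mem_insert.1 hg).resolve_left hge) v hvf hvg
      · by_cases hge : g = e
        · subst hge
          rw [Function.update_self, Function.update_of_ne hfe]
          exact (hT3 f ((mem_insert.1 hf).resolve_left hfe) v hvg hvf).symm
        · rw [Function.update_of_ne hfe, Function.update_of_ne hge]
          exact h2 f ((mem_insert.1 hf).resolve_left hfe) g
            ((mem_insert.1 hg).resolve_left hge) hfg v hvf hvg

/-- toggling at one root: `π` is the partner map -/
lemma one_root [Fintype V] [DecidableEq V] {G : SimpleGraph V} (x : V)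
    (p : ∀ u : V, G.Walk x u) (hp : ∀ u, x ≠ u → (p u).IsPath) (π : V → V)
    (hπ : ∀ u, π (π u) = u) (hx : π x = x) (hadj : ∀ u, π u ≠ u → G.Adj (π u) u)
    (hsup : ∀ u, π u ≠ u → u ∉ (p (π u)).support) :
    ∃ q : ∀ u : V, G.Walk x u, (∀ u, x ≠ u → (q u).IsPath) ∧
      ∀ w, (univ.filter fun u => x ≠ u ∧ w ∈ (q u).support).card =
        (univ.filter fun u => x ≠ u ∧ w ∈ (p u).support).card + (if π w ≠ w then 1 else 0) := by
  let q : ∀ u : V, G.Walk x u := fun u =>
    if h : π u ≠ u then (p (π u)).concat (hadj u h) else p u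
  have hq1 : ∀ u (h : π u ≠ u), q u = (p (π u)).concat (hadj u h) := fun u h => dif_pos h
  have hq2 : ∀ u, π u = u → q u = p u := fun u h => dif_neg (fun h' => h' h)
  refine ⟨q, fun u hu => ?_, fun w => ?_⟩
  · by_cases h : π u = u
    · rw [hq2 u h]; exact hp u hu
    · rw [hq1 u h]
      refine (hp _ fun hxu => ?_).concat (hsup u h) (hadj u h)
      rw [hxu] at hx
      rw [hπ, ← hxu] at hx
      exact hu hx.symm
  · have e : (univ.filter fun u => x ≠ u ∧ w ∈ (q u).support) =
        (univ.filter fun u => x ≠ u ∧ w ∈ (p (π u)).support) ∪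
          (univ.filter fun u => π u ≠ u ∧ w = u) := by
      ext u
      rw [mem_union, mem_filter, mem_filter, mem_filter]
      simp only [mem_univ, true_and]
      by_cases h : π u = u
      · rw [hq2 u h, h]; simp
      · rw [hq1 u h, SimpleGraph.Walk.support_concat, List.mem_append, List.mem_singleton]
        constructor
        · rintro ⟨h1, h2 | h2⟩
          · exact Or.inl ⟨h1, h2⟩
          · exact Or.inr ⟨h, h2⟩
        · rintro (⟨h1, h2⟩ | ⟨_, h2⟩)
          · exact ⟨h1, Or.inl h2⟩
          · refine ⟨fun hxu => ?_, Or.inr h2⟩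
            exact h (by rw [← hxu]; exact hx)
    rw [e, card_union_of_disjoint]
    · congr 1
      · apply card_bij (fun u _ => π u)
        · intro u hu
          simp only [mem_filter, mem_univ, true_and] at hu ⊢
          refine ⟨fun h => hu.1 ?_, hu.2⟩
          rw [← hπ u, ← h, hx]
        · intro u _ v _ huv
          rw [← hπ u, huv, hπ]
        · intro u hu
          simp only [mem_filter, mem_univ, true_and] at hu
          refine ⟨π u, ?_, hπ u⟩
          rw [mem_filter]
          refine ⟨mem_univ _, fun h => hu.1 ?_, ?_⟩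
          · rw [← hπ u, ← h, hx]
          · rw [hπ]; exact hu.2
      · by_cases h : π w ≠ w
        · rw [if_pos h, card_eq_one]
          refine ⟨w, ?_⟩
          ext u
          simp only [mem_filter, mem_univ, true_and, mem_singleton]
          constructor
          · exact fun h => h.2.symm
          · rintro rfl; exact ⟨h, rfl⟩
        · rw [if_neg h, card_eq_zero, filter_eq_empty_iff]
          rintro u _ ⟨h1, rfl⟩
          exact h h1
    · rw [disjoint_left]
      intro u h1 h2
      simp only [mem_filter, mem_univ, true_and] at h1 h2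
      exact hsup u h2.1 (h2.2 ▸ h1.2)

lemma load_eq_sum [Fintype V] [DecidableEq V] {G : SimpleGraph V} (P : ∀ x y : V, G.Walk x y)
    (w : V) : load P w =
      ∑ x, (univ.filter fun u => x ≠ u ∧ w ∈ (P x u).support).card := by
  have : load P w = (univ.filter fun p : V × V => p.1 ≠ p.2 ∧ w ∈ (P p.1 p.2).support).card := by
    rw [load, ← Set.ncard_coe_finset]
    congr 1
    ext p
    simp
  rw [this, card_filter, Fintype.sum_prod_type]
  refine sum_congr rfl fun x _ => ?_
  rw [card_filter]

end Toggle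

open Toggle

theorem toggle_finish [Fintype V] [DecidableEq V] {G : SimpleGraph V}
    (P : ∀ x y : V, G.Walk x y) (hP : Paths P)
    (t : Sym2 V → ℕ) (ht : ∀ e, t e ≠ 0 → e ∈ G.edgeSet)
    (Δ c : ℕ)
    (hΔ : ∀ v, ∑ e ∈ univ.filter (fun e : Sym2 V => v ∈ e), t e ≤ Δ)
    (hav : ∀ u v, G.Adj u v → 2 * Δ ≤ (avail P u v).ncard)
    (hc : ∀ v, load P v + ∑ e ∈ univ.filter (fun e : Sym2 V => v ∈ e), t e = c) :
    HasUPS G := by
  classical
  let AV : Sym2 V → Finset V := fun e =>
    univ.filter fun x => ∃ u v, e = s(u, v) ∧ x ∈ avail P u v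
  have hsymm : ∀ u v x, x ∈ avail P u v → x ∈ avail P v u := by
    rintro u v x ⟨h1, h2, h3, h4⟩
    exact ⟨h2, h1, h4, h3⟩
  have hAV : ∀ u v x, x ∈ AV s(u, v) ↔ x ∈ avail P u v := by
    intro u v x
    rw [mem_filter]
    constructor
    · rintro ⟨_, u', v', h1, h2⟩
      rcases Sym2.eq_iff.1 h1 with ⟨rfl, rfl⟩ | ⟨rfl, rfl⟩
      · exact h2
      · exact hsymm _ _ _ h2
    · exact fun h => ⟨mem_univ _, u, v, rfl, h⟩
  obtain ⟨R, hR1, hR2⟩ := greedy AV t Δ hΔ (by
    intro e he
    have h1 := ht e he
    induction e with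
    | _ u v =>
      refine (hav u v h1).trans (le_of_eq ?_)
      rw [← Set.ncard_coe_finset]
      congr 1
      ext x
      simp [hAV]) univ
  have hR3 : ∀ u v x, x ∈ R s(u, v) → G.Adj u v ∧ x ∈ avail P u v := by
    intro u v x hx
    refine ⟨?_, (hAV u v x).1 ((hR1 _ (mem_univ _)).1 hx)⟩
    have h1 : t s(u, v) ≠ 0 := by
      rw [← (hR1 _ (mem_univ _)).2]
      exact card_ne_zero_of_mem hx
    exact ht _ h1
  have hmatch : ∀ x u v v', x ∈ R s(u, v) → x ∈ R s(u, v') → v = v' := by
    intro x u v v' h1 h2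
    by_contra hne
    have h3 : s(u, v) ≠ s(u, v') := fun h => hne (Sym2.congr_right.1 h)
    exact disjoint_left.1 (hR2 _ (mem_univ _) _ (mem_univ _) h3 u (by simp) (by simp)) h1 h2
  let π : V → V → V := fun x u => if h : ∃ v, x ∈ R s(u, v) then h.choose else u
  have hπ1 : ∀ x u v, x ∈ R s(u, v) → π x u = v := by
    intro x u v h
    have h1 : ∃ v, x ∈ R s(u, v) := ⟨v, h⟩
    have h2 : π x u = h1.choose := dif_pos h1
    rw [h2]
    exact hmatch x u _ _ h1.choose_spec h
  have hπ2 : ∀ x u, (¬ ∃ v, x ∈ R s(u, v)) → π x u = u := fun x u h => dif_neg h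
  have hπ3 : ∀ x u, π x u ≠ u → x ∈ R s(u, π x u) := by
    intro x u h
    by_cases h1 : ∃ v, x ∈ R s(u, v)
    · obtain ⟨v, hv⟩ := h1
      rw [hπ1 x u v hv]; exact hv
    · exact absurd (hπ2 x u h1) h
  have hπ4 : ∀ x u, π x (π x u) = u := by
    intro x u
    by_cases h : π x u = u
    · rw [h, h]
    · apply hπ1
      rw [Sym2.eq_swap]
      exact hπ3 x u h
  have hπ5 : ∀ x, π x x = x := by
    intro x
    apply hπ2
    rintro ⟨v, hv⟩
    exact (hR3 x v x hv).2.1 rfl
  have hroot := fun x => one_root x (fun u => P x u) (fun u hu => hP x u hu) (π x) (hπ4 x) (hπ5 x)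
    (fun u hu => (hR3 _ _ _ (hπ3 x u hu)).1.symm)
    (fun u hu => (hR3 _ _ _ (hπ3 x u hu)).2.2.2.2)
  choose P' hP'1 hP'2 using hroot
  refine ⟨P', fun x y hxy => hP'1 x y hxy, c, fun w => ?_⟩
  rw [← hc w, load_eq_sum, load_eq_sum, sum_congr rfl fun x _ => hP'2 x w, sum_add_distrib]
  congr 1
  -- count
  have h1 : ∀ x, (if π x w ≠ w then 1 else 0) =
      ∑ e ∈ univ.filter (fun e : Sym2 V => w ∈ e), if x ∈ R e then 1 else 0 := by
    intro x
    rw [sum_boole, Nat.cast_id, filter_filter]
    by_cases h : π x w ≠ w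
    · rw [if_pos h, eq_comm, card_eq_one]
      refine ⟨s(w, π x w), ?_⟩
      ext e
      simp only [mem_filter, mem_univ, true_and, mem_singleton]
      constructor
      · rintro ⟨h2, h3⟩
        obtain ⟨v, rfl⟩ := h2
        rw [hπ1 x w v h3]
      · rintro rfl
        exact ⟨by simp, hπ3 x w h⟩
    · rw [if_neg h, eq_comm, card_eq_zero, filter_eq_empty_iff]
      rintro e _ ⟨h2, h3⟩
      obtain ⟨v, rfl⟩ := h2
      push Not at h
      have h4 := hπ1 x w v h3
      rw [h] at h4
      subst h4
      exact (hR3 _ _ _ h3).1.ne rfl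
  rw [sum_congr rfl fun x _ => h1 x, sum_comm]
  refine sum_congr rfl fun e _ => ?_
  rw [← (hR1 e (mem_univ _)).2, sum_boole, Nat.cast_id]
  congr 1
  ext x
  simp

end Pool.Agent.UPS
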