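import Pool.Agent.Lib.MP_876e19_co.Family
import Pool.Agent.Lib.MP_876e19_co.Select
import Pool.Agent.Lib.MP_876e19_co.Prob
import Pool.Agent.Lib.MP_876e19_co.Routes
import Pool.Agent.Lib.MP_876e19_co.Toggle
import Pool.Agent.Lib.MP_876e19_co.Parity

/-!
# The sparse regime `d log n ≤ c n` (helper96)
-/

set_option autoImplicit false

namespace Pool.Agent.UPS

open Finset Real

variable {V : Type*}

/-- the path system obtained from pairs of routes by coins: the two directions use different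
routes -/
def coinSys {G : SimpleGraph V} (f : V → ℕ) (R' : ∀ x u : V, Bool → G.Walk x u)
    (c : Sym2 V → Bool) : ∀ x u : V, G.Walk x u :=
  fun x u => R' x u (if f x < f u then c s(x, u) else !(c s(x, u)))

lemma exists_coins [Fintype V] [DecidableEq V] {G : SimpleGraph V} (f : V → ℕ)
    (R' : ∀ x u : V, Bool → G.Walk x u)
    (hdisj : ∀ x u w, w ∈ (R' x u false).support → w ∈ (R' x u true).support → w = x ∨ w = u)
    (hn : ∀ k : ℕ, 16 * k < Fintype.card V →
      (Fintype.card V : ℝ) ^ 2 * (7 / 8 : ℝ) ^ (Fintype.card V - 2) < (1 / 2 : ℝ) ^ k) :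
    ∃ c : Sym2 V → Bool, ∀ u v, G.Adj u v →
      Fintype.card V ≤ 16 * (avail (coinSys f R' c) u v).ncard := by
  classical
  set good : V → V → V → Bool → Prop := fun x u v o =>
    v ∉ (R' x u (if f x < f u then o else !o)).support with hgood
  have hav : ∀ (c : Sym2 V → Bool) (u v : V), avail (coinSys f R' c) u v =
      {x | x ≠ u ∧ x ≠ v ∧ good x u v (c s(x, u)) ∧ good x v u (c s(x, v))} := by
    intro c u v; rfl
  have hg1 : ∀ x u v, x ≠ v → u ≠ v → Fintype.card Bool ≤ 2 * {o | good x u v o}.ncard := by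
    intro x u v hxv huv
    have hex : ∃ o, good x u v o := by
      by_contra hneg
      push Not at hneg
      have h1 := hneg true
      have h2 := hneg false
      simp only [hgood, not_not] at h1 h2
      by_cases h : f x < f u
      · simp only [h, if_true] at h1 h2
        rcases hdisj x u v h2 h1 with h3 | h3
        · exact hxv h3.symm
        · exact huv h3.symm
      · simp only [h, if_false] at h1 h2
        rcases hdisj x u v h1 h2 with h3 | h3
        · exact hxv h3.symm
        · exact huv h3.symm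
    obtain ⟨o, ho⟩ := hex
    have : 1 ≤ {o | good x u v o}.ncard := by
      rw [Nat.one_le_iff_ne_zero, ← Nat.pos_iff_ne_zero, Set.ncard_pos]
      exact ⟨o, ho⟩
    rw [Fintype.card_bool]; omega
  by_contra hcon
  push Not at hcon
  set n := Fintype.card V with hnV
  set T : (Sym2 V → Bool) → V × V → ℝ := fun c p =>
    if G.Adj p.1 p.2 then (1 / 2 : ℝ) ^ ((avail (coinSys f R' c) p.1 p.2).ncard) else 0 with hT
  have hT0 : ∀ c p, 0 ≤ T c p := by
    intro c p; simp only [hT]; split_ifs <;> positivity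
  have hlow : ∀ c, (n:ℝ) ^ 2 * (7 / 8 : ℝ) ^ (n - 2) < ∑ p, T c p := by
    intro c
    obtain ⟨u, v, huv, h⟩ := hcon c
    have h1 := hn _ h
    refine lt_of_lt_of_le h1 ?_
    have h2 : T c (u, v) ≤ ∑ p, T c p :=
      Finset.single_le_sum (fun p _ => hT0 c p) (Finset.mem_univ (u, v))
    have h3 : T c (u, v) = (1 / 2 : ℝ) ^ ((avail (coinSys f R' c) u v).ncard) := by
      simp only [hT]; rw [if_pos huv]
    rw [← h3]; exact h2
  have hup : ∀ p : V × V, ∑ c, T c p ≤
      (Fintype.card (Sym2 V → Bool) : ℝ) * (7 / 8 : ℝ) ^ (n - 2) := by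
    intro p
    by_cases h : G.Adj p.1 p.2
    · simp only [hT, if_pos h]
      have h0 := avail_sum good p.1 p.2 h.ne (fun x hx1 hx2 =>
        ⟨hg1 x p.1 p.2 hx2 h.ne, hg1 x p.2 p.1 hx1 h.ne.symm⟩)
      simp_rw [hav]
      exact h0
    · simp only [hT, if_neg h, Finset.sum_const_zero]
      positivity
  have hsum : ∑ c, ∑ p, T c p ≤ (n:ℝ) ^ 2 *
      ((Fintype.card (Sym2 V → Bool) : ℝ) * (7 / 8 : ℝ) ^ (n - 2)) := by
    rw [Finset.sum_comm]
    calc ∑ p : V × V, ∑ c, T c p ≤ ∑ p : V × V,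
          (Fintype.card (Sym2 V → Bool) : ℝ) * (7 / 8 : ℝ) ^ (n - 2) :=
          Finset.sum_le_sum fun p _ => hup p
      _ = _ := by
          rw [Finset.sum_const, Finset.card_univ, Fintype.card_prod, nsmul_eq_mul]
          push_cast; ring
  have hsum2 : (Fintype.card (Sym2 V → Bool) : ℝ) * ((n:ℝ) ^ 2 * (7 / 8 : ℝ) ^ (n - 2)) <
      ∑ c, ∑ p, T c p := by
    have : ∑ c : Sym2 V → Bool, (n:ℝ) ^ 2 * (7 / 8 : ℝ) ^ (n - 2) < ∑ c, ∑ p, T c p :=
      Finset.sum_lt_sum_of_nonempty ⟨fun _ => true, Finset.mem_univ _⟩ fun c _ => hlow c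
    rw [Finset.sum_const, Finset.card_univ, nsmul_eq_mul] at this
    exact this
  nlinarith

/-- numeric condition for the coins -/
lemma coins_numeric : ∃ N : ℕ, ∀ n : ℕ, N ≤ n → ∀ k : ℕ, 16 * k < n →
    (n : ℝ) ^ 2 * (7 / 8 : ℝ) ^ (n - 2) < (1 / 2 : ℝ) ^ k := by
  have h := tendsto_pow_const_mul_const_pow_of_abs_lt_one 2 (r := (14/15 : ℝ)) (by
    rw [abs_of_pos (by norm_num)]; norm_num)
  have h2 := h.eventually (gt_mem_nhds (show (0:ℝ) < 49/64 by norm_num))
  obtain ⟨N, hN⟩ := Filter.eventually_atTop.1 h2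
  refine ⟨max N 2, fun n hn k hk => ?_⟩
  have hn1 : N ≤ n := le_trans (le_max_left _ _) hn
  have hn2 : 2 ≤ n := le_trans (le_max_right _ _) hn
  have h3 := hN n hn1
  have h4 : (7 / 8 : ℝ) ^ (n - 2) = (64/49) * (7/8 : ℝ) ^ n := by
    obtain ⟨m, rfl⟩ := Nat.exists_eq_add_of_le hn2
    rw [show 2 + m - 2 = m by omega, pow_add]; ring
  have h5 : (15 / 16 : ℝ) ^ n ≤ (1 / 2 : ℝ) ^ k := by
    calc (15 / 16 : ℝ) ^ n ≤ (15 / 16 : ℝ) ^ (16 * k) := by
          apply pow_le_pow_of_le_one (by norm_num) (by norm_num) hk.le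
      _ = ((15 / 16 : ℝ) ^ 16) ^ k := by rw [pow_mul]
      _ ≤ (1 / 2 : ℝ) ^ k := by
          apply pow_le_pow_left₀ (by norm_num)
          norm_num
  have h6 : (7 / 8 : ℝ) ^ n = (14/15 : ℝ) ^ n * (15/16 : ℝ) ^ n := by
    rw [← mul_pow]; norm_num
  refine lt_of_lt_of_le ?_ h5
  rw [h4, h6]
  have h7 : (0:ℝ) < (15/16 : ℝ) ^ n := by positivity
  calc (n:ℝ) ^ 2 * (64 / 49 * ((14 / 15) ^ n * (15 / 16) ^ n))
      = (64 / 49) * ((n:ℝ) ^ 2 * (14 / 15) ^ n) * (15 / 16) ^ n := by ring
    _ < (64/49) * (49/64) * (15 / 16) ^ n := by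
        apply mul_lt_mul_of_pos_right _ h7
        apply mul_lt_mul_of_pos_left h3 (by norm_num)
    _ = (15/16) ^ n := by norm_num

open Classical in
lemma eload_coinSys [Fintype V] {G : SimpleGraph V} (f : V → ℕ) (hf : Function.Injective f)
    (R' : ∀ x u : V, Bool → G.Walk x u) (hsym : ∀ x u b, R' u x b = (R' x u b).reverse)
    (c : Sym2 V → Bool) (e : Sym2 V) :
    (eload (coinSys f R' c) e : ℝ) = ∑ x, ∑ u, (if f x < f u then
      ((if e ∈ (R' x u false).edges then (1:ℝ) else 0) +
        (if e ∈ (R' x u true).edges then (1:ℝ) else 0)) else 0) := by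
  unfold eload
  rw [ncard_eq_sum f hf (fun x u => e ∈ (coinSys f R' c x u).edges)]
  apply Finset.sum_congr rfl
  intro x _
  apply Finset.sum_congr rfl
  intro u _
  by_cases h : f x < f u
  · rw [if_pos h, if_pos h]
    have h1 : coinSys f R' c x u = R' x u (c s(x, u)) := by
      unfold coinSys; rw [if_pos h]
    have h2 : coinSys f R' c u x = (R' x u (!(c s(x, u)))).reverse := by
      unfold coinSys
      rw [if_neg (by omega), Sym2.eq_swap, hsym x u]
    have h3 : e ∈ (coinSys f R' c u x).edges ↔ e ∈ (R' x u (!(c s(x, u)))).edges := by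
      rw [h2, SimpleGraph.Walk.edges_reverse, List.mem_reverse]
    by_cases ha : e ∈ (R' x u false).edges <;> by_cases hb : e ∈ (R' x u true).edges <;>
      cases hc : c s(x, u) <;> simp [h1, h3, hc, ha, hb]
  · rw [if_neg h, if_neg h]

open Classical in
lemma sum_mem_edges [Fintype V] {G : SimpleGraph V} {x u : V} (p : G.Walk x u) (hp : p.IsPath) :
    ∑ e : Sym2 V, (if e ∈ p.edges then (1:ℝ) else 0) = p.length := by
  rw [Finset.sum_boole]
  have : Finset.univ.filter (fun e => e ∈ p.edges) = p.edges.toFinset := by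
    ext e; simp
  rw [this, List.toFinset_card_of_nodup hp.isTrail.edges_nodup, SimpleGraph.Walk.length_edges]

lemma sum_ecount [Fintype V] {G : SimpleGraph V} {d : ℕ} (hd0 : 0 < d) (F : RFam G d)
    (γ : G ≃g G) (x u : V) :
    ∑ e, ecount F.R γ x u e ≤ 24 * (Fintype.card V : ℝ) / d := by
  classical
  unfold ecount
  rw [Finset.sum_add_distrib, sum_mem_edges _ (isPath_tr γ F.R F.path x u false),
    sum_mem_edges _ (isPath_tr γ F.R F.path x u true), length_tr, length_tr]
  rw [le_div_iff₀ (by exact_mod_cast hd0)]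
  exact_mod_cast F.len (γ x) (γ u)

lemma ecount_nonneg {G : SimpleGraph V} (R : ∀ x u : V, Bool → G.Walk x u)
    (γ : G ≃g G) (x u : V) (e : Sym2 V) : 0 ≤ ecount R γ x u e := by
  unfold ecount
  positivity

lemma ecount_le {G : SimpleGraph V} (R : ∀ x u : V, Bool → G.Walk x u)
    (γ : G ≃g G) (x u : V) (e : Sym2 V) : ecount R γ x u e ≤ 2 := by
  unfold ecount
  split_ifs <;> norm_num

lemma degree_pos [Fintype V] {G : SimpleGraph V} (hG : G.Connected)
    (d : ℕ) (hd : ∀ v, (G.neighborSet v).ncard = d) (hn2 : 2 ≤ Fintype.card V) : 0 < d := by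
  obtain ⟨x, u, hxu⟩ := Fintype.exists_pair_of_one_lt_card (by omega : 1 < Fintype.card V)
  obtain ⟨p⟩ := hG.preconnected x u
  cases p with
  | nil => exact absurd rfl hxu
  | cons h q =>
    rw [← hd x, Set.ncard_pos]
    exact ⟨_, h⟩

theorem edge_core [Fintype V] [DecidableEq V] {G : SimpleGraph V} (hG : G.Connected) (hT : VT G)
    (d : ℕ) (hd : ∀ v, (G.neighborSet v).ncard = d) (hn2 : 2 ≤ Fintype.card V)
    (hcoin : ∀ k : ℕ, 16 * k < Fintype.card V →
      (Fintype.card V : ℝ) ^ 2 * (7 / 8 : ℝ) ^ (Fintype.card V - 2) < (1 / 2 : ℝ) ^ k)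
    (E : ℝ) (hE0 : 0 ≤ E) (hE : 6 * sqrt (96 * Fintype.card V / d) *
      sqrt (log (2 * (Fintype.card (Sym2 V) : ℝ))) ≤ E)
    (hnum : 32 * d * (E + 4) ≤ Fintype.card V) : HasUPS G := by
  classical
  have hd0 := degree_pos hG d hd hn2
  have hdR : (0:ℝ) < d := by exact_mod_cast hd0
  set n := Fintype.card V with hnV
  have hcut := no_cut_vertex hG hT
  obtain ⟨F⟩ := exists_rfam d (fun x u hxu => exists_routes hG d hd hcut x u hxu)
  set f : V → ℕ := fun v => (Fintype.equivFin V v : ℕ) with hfdef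
  have hf : Function.Injective f := fun a b h => (Fintype.equivFin V).injective (Fin.ext h)
  set a : V × V → (G ≃g G) → Sym2 V → ℝ := fun p γ e =>
    if f p.1 < f p.2 then ecount F.R γ p.1 p.2 e else 0 with ha
  set ρ := sqrt (96 * n / d) with hρd
  have hρ2 : ρ ^ 2 = 96 * n / d := sq_sqrt (by positivity)
  have hρ : ∀ i o o', ∑ e, (a i o e - a i o' e) ^ 2 ≤ ρ ^ 2 := by
    intro i o o'
    have h1 : ∀ e, (a i o e - a i o' e) ^ 2 ≤ 2 * (a i o e + a i o' e) := by
      intro e
      have e1 : 0 ≤ a i o e ∧ a i o e ≤ 2 := by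
        simp only [ha]; split_ifs
        · exact ⟨ecount_nonneg _ _ _ _ _, ecount_le _ _ _ _ _⟩
        · norm_num
      have e2 : 0 ≤ a i o' e ∧ a i o' e ≤ 2 := by
        simp only [ha]; split_ifs
        · exact ⟨ecount_nonneg _ _ _ _ _, ecount_le _ _ _ _ _⟩
        · norm_num
      nlinarith [mul_nonneg e1.1 e2.1, mul_nonneg e1.1 (sub_nonneg.2 e1.2),
        mul_nonneg e2.1 (sub_nonneg.2 e2.2)]
    have h2 : ∀ o, ∑ e, a i o e ≤ 24 * (n : ℝ) / d := by
      intro o
      by_cases h : f i.1 < f i.2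
      · simp only [ha, if_pos h]
        exact sum_ecount hd0 F o i.1 i.2
      · simp only [ha, if_neg h, Finset.sum_const_zero]
        positivity
    calc ∑ e, (a i o e - a i o' e) ^ 2 ≤ ∑ e, 2 * (a i o e + a i o' e) :=
          Finset.sum_le_sum fun e _ => h1 e
      _ = 2 * (∑ e, a i o e + ∑ e, a i o' e) := by
          rw [← Finset.mul_sum, Finset.sum_add_distrib]
      _ ≤ 2 * (24 * (n : ℝ) / d + 24 * (n : ℝ) / d) := by
          have := h2 o; have := h2 o'; linarith
      _ = ρ ^ 2 := by rw [hρ2]; ring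
  obtain ⟨sel, hsel⟩ := select_balanced a ρ (sqrt_nonneg _) hρ
  set R' : ∀ x u : V, Bool → G.Walk x u := fun x u b =>
    tr (if f x < f u then sel (x, u) else sel (u, x)) F.R x u b with hR'
  have hsym' : ∀ x u b, R' u x b = (R' x u b).reverse := by
    intro x u b
    have hidx : (if f u < f x then sel (u, x) else sel (x, u)) =
        (if f x < f u then sel (x, u) else sel (u, x)) := by
      by_cases hxu : x = u
      · subst hxu; rfl
      · have : f x ≠ f u := fun h => hxu (hf h)
        rcases lt_or_gt_of_ne this with h | h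
        · rw [if_pos h, if_neg (by omega)]
        · rw [if_pos h, if_neg (by omega)]
    simp only [hR']
    rw [hidx]
    exact sym_tr _ F.R F.sym x u b
  have hpath' : ∀ x u b, (R' x u b).IsPath := fun x u b => isPath_tr _ F.R F.path x u b
  have hdisj' : ∀ x u w, w ∈ (R' x u false).support → w ∈ (R' x u true).support →
      w = x ∨ w = u := by
    intro x u w h1 h2
    simp only [hR'] at h1 h2
    rw [mem_support_tr] at h1 h2
    rcases F.disj _ _ _ h1 h2 with h | h
    · left; exact (RelIso.injective _) h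
    · right; exact (RelIso.injective _) h
  have hadj' : ∀ x u b, G.Adj x u → (R' x u b).length = 1 := by
    intro x u b h
    simp only [hR']
    rw [length_tr]
    apply F.adj
    exact (SimpleGraph.Iso.map_adj_iff _).2 h
  obtain ⟨c, hc⟩ := exists_coins f R' hdisj' hcoin
  set P := coinSys f R' c with hP
  have hPpath : Paths P := fun x y _ => hpath' _ _ _
  have hPadj : ∀ x y, G.Adj x y → (P x y).length = 1 := fun x y h => hadj' _ _ _ h
  -- the invariant mean
  set m : Sym2 V → ℝ := fun e => ∑ p, (∑ o, a p o e) / (Fintype.card (G ≃g G) : ℝ) with hm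
  have hm' : ∀ e, m e = (∑ x, ∑ u, (if f x < f u then ∑ γ, ecount F.R γ x u e else 0)) /
      (Fintype.card (G ≃g G) : ℝ) := by
    intro e
    simp only [hm]
    rw [← Finset.sum_div, Fintype.sum_prod_type]
    congr 1
    apply Finset.sum_congr rfl
    intro x _
    apply Finset.sum_congr rfl
    intro u _
    simp only [ha]
    split_ifs <;> simp
  have hm0 : ∀ e, 0 ≤ m e := by
    intro e
    simp only [hm]
    apply Finset.sum_nonneg
    intro p _
    apply div_nonneg _ (by positivity)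
    apply Finset.sum_nonneg
    intro o _
    simp only [ha]
    split_ifs
    · exact ecount_nonneg _ _ _ _ _
    · exact le_rfl
  have hminv : ∀ (δ : G ≃g G) (e : Sym2 V), m (Sym2.map δ e) = m e := by
    intro δ e
    rw [hm', hm']
    congr 1
    exact mean_inv (fun δ e => Sym2.map δ e) (fun γ x u e => ecount F.R γ x u e)
      (fun γ δ x u e => ecount_inv F.R γ δ x u e)
      (fun γ x u e => ecount_symm F.R F.sym γ x u e) f hf δ e
  have hload : ∀ e, |(eload P e : ℝ) - m e| ≤ E := by
    intro e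
    refine le_trans (le_of_eq ?_) ((hsel e).trans hE)
    congr 2
    rw [hP, eload_coinSys f hf R' hsym', Fintype.sum_prod_type]
    apply Finset.sum_congr rfl
    intro x _
    apply Finset.sum_congr rfl
    intro u _
    simp only [ha]
    by_cases h : f x < f u
    · rw [if_pos h, if_pos h]
      unfold ecount
      simp only [hR', if_pos h]
      congr!
    · rw [if_neg h, if_neg h]
  obtain ⟨P', hP', hP'1, hP'2, hP'3⟩ := parity_fix P hPpath hPadj
  -- the toggles
  set K : Sym2 V → ℕ := fun e => ⌈(m e + E + 2) / 2⌉₊ with hK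
  set t : Sym2 V → ℕ := fun e => if e ∈ G.edgeSet then K e - eload P' e / 2 else 0 with ht
  have heven : ∀ e, 2 * (eload P' e / 2) = eload P' e := fun e =>
    Nat.two_mul_div_two_of_even (hP'2 e)
  have hevenR : ∀ e, ((eload P' e / 2 : ℕ) : ℝ) = (eload P' e : ℝ) / 2 := by
    intro e
    have h : (2:ℝ) * ((eload P' e / 2 : ℕ) : ℝ) = (eload P' e : ℝ) := by
      exact_mod_cast heven e
    linarith
  have hle : ∀ e, eload P' e / 2 ≤ K e := by
    intro e
    have h1 := (abs_le.1 (hload e)).2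
    have h2 : (eload P' e : ℝ) ≤ eload P e + 1 := by exact_mod_cast (hP'3 e).1
    have h3 : (m e + E + 2) / 2 ≤ K e := Nat.le_ceil _
    have h4 : ((eload P' e / 2 : ℕ) : ℝ) ≤ K e := by
      rw [hevenR]; linarith
    exact_mod_cast h4
  have htle : ∀ e, (t e : ℝ) ≤ E + 3 := by
    intro e
    simp only [ht]
    split_ifs
    · rw [Nat.cast_sub (hle e), hevenR]
      have h1 := (abs_le.1 (hload e)).1
      have h2 : (eload P e : ℝ) ≤ eload P' e + 1 := by exact_mod_cast (hP'3 e).2
      have h3 : (K e : ℝ) < (m e + E + 2) / 2 + 1 :=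
        Nat.ceil_lt_add_one (by have := hm0 e; positivity)
      linarith
    · push_cast; linarith
  have heload0 : ∀ e, e ∉ G.edgeSet → eload P' e = 0 := by
    intro e he
    unfold eload
    rw [Set.ncard_eq_zero, Set.eq_empty_iff_forall_notMem]
    rintro p ⟨_, hp⟩
    exact he (SimpleGraph.Walk.edges_subset_edgeSet _ hp)
  set κ : V → ℕ := fun v => ∑ e ∈ univ.filter (fun e : Sym2 V => v ∈ e),
    (if e ∈ G.edgeSet then K e else 0) with hκ
  have hκc : ∀ v w, κ v = κ w := by
    intro v w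
    obtain ⟨δ, hδ⟩ := hT v w
    simp only [hκ]
    refine Finset.sum_nbij' (fun e => Sym2.map δ e) (fun e => Sym2.map δ.symm e) ?_ ?_ ?_ ?_ ?_
    · intro e he
      simp only [Finset.mem_filter, Finset.mem_univ, true_and] at he ⊢
      rw [Sym2.mem_map]
      exact ⟨v, he, hδ⟩
    · intro e he
      simp only [Finset.mem_filter, Finset.mem_univ, true_and] at he ⊢
      rw [Sym2.mem_map]
      exact ⟨w, he, by rw [← hδ]; exact δ.symm_apply_apply v⟩
    · intro e _
      rw [Sym2.map_map]
      have : (δ.symm ∘ δ : V → V) = id := by funext z; exact δ.symm_apply_apply z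
      rw [this, Sym2.map_id]; rfl
    · intro e _
      rw [Sym2.map_map]
      have : (δ ∘ δ.symm : V → V) = id := by funext z; exact δ.apply_symm_apply z
      rw [this, Sym2.map_id]; rfl
    · intro e _
      have h1 : Sym2.map δ e ∈ G.edgeSet ↔ e ∈ G.edgeSet := by
        induction e using Sym2.ind with
        | _ x y =>
          rw [Sym2.map_mk, SimpleGraph.mem_edgeSet, SimpleGraph.mem_edgeSet]
          exact δ.map_adj_iff
      have h2 : K (Sym2.map δ e) = K e := by simp only [hK, hminv]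
      rw [h2]
      by_cases h : e ∈ G.edgeSet
      · rw [if_pos h, if_pos (h1.2 h)]
      · rw [if_neg h, if_neg (fun h' => h (h1.1 h'))]
  have hsum : ∀ v, load P' v + ∑ e ∈ univ.filter (fun e : Sym2 V => v ∈ e), t e =
      κ v + (n - 1) := by
    intro v
    have h1 := load_identity P' hP' v
    have h2 : ∑ e ∈ univ.filter (fun e : Sym2 V => v ∈ e), (2 * t e + eload P' e) = 2 * κ v := by
      simp only [hκ]
      rw [Finset.mul_sum]
      apply Finset.sum_congr rfl
      intro e _
      simp only [ht]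
      by_cases h : e ∈ G.edgeSet
      · rw [if_pos h, if_pos h]
        have := hle e; have := heven e; omega
      · rw [if_neg h, if_neg h, heload0 e h]; rfl
    rw [Finset.sum_add_distrib, ← Finset.mul_sum] at h2
    omega
  obtain ⟨v0⟩ := hG.nonempty
  refine toggle_finish P' hP' t ?_ ⌊(d:ℝ) * (E + 3)⌋₊ (κ v0 + (n - 1)) ?_ ?_ ?_
  · intro e he
    by_contra h
    exact he (by simp only [ht]; rw [if_neg h])
  · intro v
    apply Nat.le_floor
    push_cast
    have h1 : ∑ e ∈ univ.filter (fun e : Sym2 V => v ∈ e), (t e : ℝ) ≤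
        ∑ e ∈ univ.filter (fun e : Sym2 V => v ∈ e ∧ e ∈ G.edgeSet), (E + 3) := by
      rw [← Finset.filter_filter, Finset.sum_filter (s := univ.filter _)]
      apply Finset.sum_le_sum
      intro e _
      by_cases h : e ∈ G.edgeSet
      · rw [if_pos h]; exact htle e
      · rw [if_neg h]; simp only [ht]; rw [if_neg h]; simp
    refine h1.trans ?_
    rw [Finset.sum_const, nsmul_eq_mul]
    apply mul_le_mul_of_nonneg_right _ (by linarith)
    have h2 : (univ.filter (fun e : Sym2 V => v ∈ e ∧ e ∈ G.edgeSet)) ⊆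
        (G.neighborSet v).toFinset.image (fun w => s(v, w)) := by
      intro e he
      simp only [Finset.mem_filter, Finset.mem_univ, true_and] at he
      obtain ⟨he1, he2⟩ := he
      rw [Finset.mem_image]
      obtain ⟨w, rfl⟩ := he1
      exact ⟨w, by simpa using he2, rfl⟩
    have h3 := (Finset.card_le_card h2).trans Finset.card_image_le
    rw [← Set.ncard_eq_toFinset_card', hd v] at h3
    exact_mod_cast h3
  · intro u v huv
    have h1 : avail P u v ⊆ avail P' u v ∪ (G.neighborSet u ∪ G.neighborSet v) := by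
      intro x hx
      by_cases hxu : G.Adj x u
      · right; left; exact hxu.symm
      by_cases hxv : G.Adj x v
      · right; right; exact hxv.symm
      left
      obtain ⟨h1, h2, h3, h4⟩ := hx
      refine ⟨h1, h2, ?_, ?_⟩
      · rw [hP'1 x u hxu]; exact h3
      · rw [hP'1 x v hxv]; exact h4
    have h2 : (avail P u v).ncard ≤ (avail P' u v).ncard + (d + d) := by
      calc _ ≤ _ := Set.ncard_le_ncard h1 (Set.toFinite _)
        _ ≤ _ := Set.ncard_union_le _ _
        _ ≤ _ := by
            gcongr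
            refine (Set.ncard_union_le _ _).trans ?_
            rw [hd u, hd v]
    have h3 := hc u v huv
    have h4 : (n:ℝ) ≤ 16 * (((avail P' u v).ncard : ℝ) + (d + d)) := by
      have : n ≤ 16 * ((avail P' u v).ncard + (d + d)) := by omega
      exact_mod_cast this
    have h5 : ((⌊(d:ℝ) * (E + 3)⌋₊ : ℕ) : ℝ) ≤ (d:ℝ) * (E + 3) :=
      Nat.floor_le (by positivity)
    have h6 : ((2 * ⌊(d:ℝ) * (E + 3)⌋₊ : ℕ) : ℝ) ≤ ((avail P' u v).ncard : ℝ) := by
      push_cast
      nlinarith
    exact_mod_cast h6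
  · intro v
    rw [hsum v, hκc v v0]

/-- **Sparse regime.** -/
theorem edge_regime : ∃ (c : ℝ) (N : ℕ), 0 < c ∧ ∀ (V : Type) [Fintype V] (G : SimpleGraph V)
    (d : ℕ), G.Connected → VT G → (∀ v, (G.neighborSet v).ncard = d) → N ≤ Fintype.card V →
    (d : ℝ) * Real.log (Fintype.card V) ≤ c * Fintype.card V → HasUPS G := by
  classical
  obtain ⟨N1, hN1⟩ := coins_numeric
  refine ⟨1 / 10 ^ 8, max N1 3, by norm_num, ?_⟩
  intro V _ G d hG hT hd hN hc
  set n := Fintype.card V with hn
  have hn1 : N1 ≤ n := le_trans (le_max_left _ _) hN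
  have hn3 : 3 ≤ n := le_trans (le_max_right _ _) hN
  have hd0 := degree_pos hG d hd (by omega)
  have hdR : (0:ℝ) < d := by exact_mod_cast hd0
  have hnR : (3:ℝ) ≤ n := by exact_mod_cast hn3
  have hlog1 : 1 ≤ log n := by
    rw [le_log_iff_exp_le (by linarith)]
    have := exp_one_lt_d9
    linarith
  have hcard : (Fintype.card (Sym2 V) : ℝ) ≤ (n:ℝ) ^ 2 := by
    have h1 : Fintype.card (Sym2 V) ≤ Fintype.card (V × V) :=
      Fintype.card_le_of_surjective (fun p : V × V => s(p.1, p.2)) (by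
        intro e
        induction e using Sym2.ind with
        | _ x y => exact ⟨(x, y), rfl⟩)
    rw [Fintype.card_prod, ← pow_two] at h1
    exact_mod_cast h1
  have hcard0 : (1:ℝ) ≤ Fintype.card (Sym2 V) := by
    obtain ⟨v0⟩ := hG.nonempty
    have : 0 < Fintype.card (Sym2 V) := Fintype.card_pos_iff.2 ⟨s(v0, v0)⟩
    exact_mod_cast this
  have hlog2 : log (2 * (Fintype.card (Sym2 V) : ℝ)) ≤ 3 * log n := by
    have h1 : 2 * (Fintype.card (Sym2 V) : ℝ) ≤ (n:ℝ) ^ 3 := by nlinarith
    calc log (2 * (Fintype.card (Sym2 V) : ℝ)) ≤ log ((n:ℝ) ^ 3) := log_le_log (by positivity) h1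
      _ = 3 * log n := by rw [log_pow]; norm_num
  have hlog20 : 0 ≤ log (2 * (Fintype.card (Sym2 V) : ℝ)) := log_nonneg (by linarith)
  set E := 6 * sqrt (96 * n / d) * sqrt (log (2 * (Fintype.card (Sym2 V) : ℝ))) with hE
  have hE0 : 0 ≤ E := by positivity
  have hdE : (d * E) ^ 2 ≤ ((n:ℝ) / 64) ^ 2 := by
    have h1 : E ^ 2 = 36 * (96 * n / d) * log (2 * (Fintype.card (Sym2 V) : ℝ)) := by
      rw [hE, mul_pow, mul_pow, sq_sqrt (by positivity), sq_sqrt hlog20]; ring
    calc (d * E) ^ 2 = d ^ 2 * E ^ 2 := by ring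
      _ = 36 * 96 * n * d * log (2 * (Fintype.card (Sym2 V) : ℝ)) := by
          rw [h1]; field_simp
      _ ≤ 36 * 96 * n * d * (3 * log n) := by gcongr
      _ = 36 * 96 * 3 * n * (d * log n) := by ring
      _ ≤ 36 * 96 * 3 * n * (1 / 10 ^ 8 * n) := by gcongr
      _ ≤ ((n:ℝ) / 64) ^ 2 := by nlinarith [sq_nonneg (n:ℝ)]
  have hdE' : d * E ≤ (n:ℝ) / 64 := le_of_sq_le_sq hdE (by positivity)
  have hdn : (d:ℝ) ≤ 1 / 10 ^ 8 * n := by
    calc (d:ℝ) ≤ d * log n := by nlinarith
      _ ≤ _ := hc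
  exact edge_core hG hT d hd (by omega) (hN1 n hn1) E hE0 le_rfl (by nlinarith)

end Pool.Agent.UPS
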