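import Pool.Agent.Lib.MP_876e19_co.Defs

/-!
# T6: expansion in vertex-transitive graphs and transport
-/

set_option autoImplicit false

namespace Pool.Agent.UPS

open Finset Classical

namespace Exp

variable {V : Type*} [Fintype V] {G : SimpleGraph V}

/-- neighbourhood as a finset -/
noncomputable def Nf (G : SimpleGraph V) (U : Finset V) : Finset V :=
  univ.filter fun w => ∃ u ∈ U, G.Adj u w

/-- vertices joined to `v` by an even walk -/
noncomputable def Cf (G : SimpleGraph V) (v : V) : Finset V :=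
  univ.filter fun u => ∃ p : G.Walk v u, Even p.length

/-- vertices joined to `v` by an odd walk -/
noncomputable def Df (G : SimpleGraph V) (v : V) : Finset V :=
  univ.filter fun u => ∃ p : G.Walk v u, Odd p.length

lemma mem_Nf {U : Finset V} {w : V} : w ∈ Nf G U ↔ ∃ u ∈ U, G.Adj u w := by simp [Nf]

lemma mem_Cf {v u : V} : u ∈ Cf G v ↔ ∃ p : G.Walk v u, Even p.length := by simp [Cf]

lemma mem_Df {v u : V} : u ∈ Df G v ↔ ∃ p : G.Walk v u, Odd p.length := by simp [Df]

lemma self_mem_Cf (v : V) : v ∈ Cf G v := mem_Cf.2 ⟨SimpleGraph.Walk.nil, by simp⟩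

lemma Nf_mono {U U' : Finset V} (h : U ⊆ U') : Nf G U ⊆ Nf G U' := by
  intro w hw
  obtain ⟨u, hu, hw⟩ := mem_Nf.1 hw
  exact mem_Nf.2 ⟨u, h hu, hw⟩

lemma Nf_union (U U' : Finset V) : Nf G (U ∪ U') = Nf G U ∪ Nf G U' := by
  ext w
  simp only [mem_Nf, Finset.mem_union]
  constructor
  · rintro ⟨u, hu | hu, h⟩
    · exact Or.inl ⟨u, hu, h⟩
    · exact Or.inr ⟨u, hu, h⟩
  · rintro (⟨u, hu, h⟩ | ⟨u, hu, h⟩)
    · exact ⟨u, Or.inl hu, h⟩
    · exact ⟨u, Or.inr hu, h⟩

lemma Cf_eq_of_mem {v u : V} (h : u ∈ Cf G v) : Cf G u = Cf G v := by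
  obtain ⟨p, hp⟩ := mem_Cf.1 h
  ext w
  rw [mem_Cf, mem_Cf]
  constructor
  · rintro ⟨q, hq⟩
    exact ⟨p.append q, by rw [SimpleGraph.Walk.length_append]; exact hp.add hq⟩
  · rintro ⟨q, hq⟩
    exact ⟨p.reverse.append q, by
      rw [SimpleGraph.Walk.length_append, SimpleGraph.Walk.length_reverse]; exact hp.add hq⟩

lemma Df_eq_of_mem {v u : V} (h : u ∈ Cf G v) : Df G u = Df G v := by
  obtain ⟨p, hp⟩ := mem_Cf.1 h
  ext w
  rw [mem_Df, mem_Df]
  constructor
  · rintro ⟨q, hq⟩
    exact ⟨p.append q, by rw [SimpleGraph.Walk.length_append]; exact hp.add_odd hq⟩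
  · rintro ⟨q, hq⟩
    exact ⟨p.reverse.append q, by
      rw [SimpleGraph.Walk.length_append, SimpleGraph.Walk.length_reverse]; exact hp.add_odd hq⟩

lemma Cf_eq_Df_of_mem {v u : V} (h : u ∈ Df G v) : Cf G u = Df G v := by
  obtain ⟨p, hp⟩ := mem_Df.1 h
  ext w
  rw [mem_Cf, mem_Df]
  constructor
  · rintro ⟨q, hq⟩
    exact ⟨p.append q, by rw [SimpleGraph.Walk.length_append]; exact hp.add_even hq⟩
  · rintro ⟨q, hq⟩
    exact ⟨p.reverse.append q, by
      rw [SimpleGraph.Walk.length_append, SimpleGraph.Walk.length_reverse]; exact hp.add_odd hq⟩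

lemma Df_eq_Cf_of_mem {v u : V} (h : u ∈ Df G v) : Df G u = Cf G v := by
  obtain ⟨p, hp⟩ := mem_Df.1 h
  ext w
  rw [mem_Cf, mem_Df]
  constructor
  · rintro ⟨q, hq⟩
    exact ⟨p.append q, by rw [SimpleGraph.Walk.length_append]; exact hp.add_odd hq⟩
  · rintro ⟨q, hq⟩
    exact ⟨p.reverse.append q, by
      rw [SimpleGraph.Walk.length_append, SimpleGraph.Walk.length_reverse]; exact hp.add_even hq⟩

lemma adj_mem_Df {v u w : V} (h : u ∈ Cf G v) (hw : G.Adj u w) : w ∈ Df G v := by
  obtain ⟨p, hp⟩ := mem_Cf.1 h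
  exact mem_Df.2 ⟨p.concat hw, by rw [SimpleGraph.Walk.length_concat]; exact hp.add_one⟩

lemma adj_mem_Cf {v u w : V} (h : u ∈ Df G v) (hw : G.Adj u w) : w ∈ Cf G v := by
  obtain ⟨p, hp⟩ := mem_Df.1 h
  exact mem_Cf.2 ⟨p.concat hw, by rw [SimpleGraph.Walk.length_concat]; exact hp.add_one⟩

lemma Nf_subset_Df {v : V} {U : Finset V} (h : U ⊆ Cf G v) : Nf G U ⊆ Df G v := by
  intro w hw
  obtain ⟨u, hu, hw⟩ := mem_Nf.1 hw
  exact adj_mem_Df (h hu) hw

lemma Nf_Cf (v : V) : Nf G (Cf G v) = Df G v := by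
  refine Finset.Subset.antisymm (Nf_subset_Df (Finset.Subset.refl _)) ?_
  intro w hw
  obtain ⟨p, hp⟩ := mem_Df.1 hw
  obtain ⟨q, hq⟩ : ∃ q : G.Walk w v, Odd q.length :=
    ⟨p.reverse, by rw [SimpleGraph.Walk.length_reverse]; exact hp⟩
  cases q with
  | nil => simp at hq
  | cons h q' =>
    rename_i u
    refine mem_Nf.2 ⟨u, mem_Cf.2 ⟨q'.reverse, ?_⟩, h.symm⟩
    rw [SimpleGraph.Walk.length_reverse]
    rw [SimpleGraph.Walk.length_cons] at hq
    rcases Nat.even_or_odd q'.length with h1 | h1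
    · exact h1
    · exact absurd hq (Nat.not_odd_iff_even.2 h1.add_one)

/-- closed under two steps implies everything -/
lemma Cf_subset_of_closed {v : V} {U : Finset V} (hv : v ∈ U)
    (h : ∀ u ∈ U, ∀ w x, G.Adj u w → G.Adj w x → x ∈ U) : Cf G v ⊆ U := by
  have key : ∀ n : ℕ, ∀ u x : V, u ∈ U → ∀ p : G.Walk u x, p.length = 2 * n → x ∈ U := by
    intro n
    induction n with
    | zero =>
      intro u x hu p hp
      cases p with
      | nil => exact hu
      | cons _ _ => simp at hp
    | succ n ih =>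
      intro u x hu p hp
      cases p with
      | nil => simp at hp
      | cons h1 p1 =>
        cases p1 with
        | nil => simp at hp; omega
        | cons h2 p2 =>
          refine ih _ x (h u hu _ _ h1 h2) p2 ?_
          simp only [SimpleGraph.Walk.length_cons] at hp
          omega
  intro x hx
  obtain ⟨p, n, hn⟩ := mem_Cf.1 hx
  exact key n v x hv p (by omega)

variable {d : ℕ} (hd : ∀ v, (univ.filter fun w => G.Adj v w).card = d)

include hd

lemma count (U W : Finset V) (h : Nf G U ⊆ W) :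
    d * U.card = ∑ b ∈ W, (U.filter fun a => G.Adj a b).card := by
  have h1 : ∑ a ∈ U, (W.filter fun b => G.Adj a b).card =
      ∑ b ∈ W, (U.filter fun a => G.Adj a b).card :=
    Finset.sum_card_bipartiteAbove_eq_sum_card_bipartiteBelow _
  rw [← h1]
  have h2 : ∀ a ∈ U, (W.filter fun b => G.Adj a b).card = d := by
    intro a ha
    rw [← hd a]
    congr 1
    ext b
    simp only [Finset.mem_filter, Finset.mem_univ, true_and, and_iff_right_iff_imp]
    intro hb
    exact h (mem_Nf.2 ⟨a, ha, hb⟩)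
  rw [Finset.sum_congr rfl h2]
  simp [mul_comm]

lemma filter_le (U : Finset V) (b : V) : (U.filter fun a => G.Adj a b).card ≤ d := by
  rw [← hd b]
  refine Finset.card_le_card ?_
  intro a ha
  simp only [Finset.mem_filter, Finset.mem_univ, true_and] at ha ⊢
  exact ha.2.symm

lemma card_le_of (hd0 : 0 < d) (U W : Finset V) (h : Nf G U ⊆ W) : U.card ≤ W.card := by
  have h1 := count hd U W h
  have h2 : ∑ b ∈ W, (U.filter fun a => G.Adj a b).card ≤ ∑ b ∈ W, d :=
    Finset.sum_le_sum fun b _ => filter_le hd U b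
  rw [← h1] at h2
  simp only [Finset.sum_const, smul_eq_mul] at h2
  rw [mul_comm] at h2
  exact Nat.le_of_mul_le_mul_right h2 hd0

lemma closed_of_card_eq (U W : Finset V) (h : Nf G U ⊆ W) (hc : U.card = W.card) :
    ∀ b ∈ W, ∀ a, G.Adj a b → a ∈ U := by
  have h1 := count hd U W h
  have h2 : ∑ b ∈ W, (U.filter fun a => G.Adj a b).card = ∑ b ∈ W, d := by
    rw [← h1, hc]; simp [mul_comm]
  have h3 := (Finset.sum_eq_sum_iff_of_le fun b _ => filter_le hd U b).1 h2
  intro b hb a hab
  have h4 := h3 b hb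
  have h5 : (U.filter fun a => G.Adj a b) = univ.filter fun w => G.Adj b w := by
    refine Finset.eq_of_subset_of_card_le ?_ ?_
    · intro a ha
      simp only [Finset.mem_filter, Finset.mem_univ, true_and] at ha ⊢
      exact ha.2.symm
    · rw [h4, hd b]
  have h6 : a ∈ univ.filter fun w => G.Adj b w := by simpa using hab.symm
  rw [← h5] at h6
  exact (Finset.mem_filter.1 h6).1

lemma card_Cf_eq (hd0 : 0 < d) (v : V) : (Cf G v).card = (Df G v).card := by
  refine le_antisymm (card_le_of hd hd0 _ _ (by rw [Nf_Cf])) ?_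
  refine card_le_of hd hd0 _ _ ?_
  intro w hw
  obtain ⟨u, hu, hw⟩ := mem_Nf.1 hw
  exact adj_mem_Cf hu hw

omit hd in
/-- candidates -/
def Cand (G : SimpleGraph V) (U : Finset V) : Prop :=
  ∃ v ∈ U, U ⊆ Cf G v ∧ ¬ (Df G v ⊆ Nf G U)

omit hd in
lemma Cand.of_mem {U : Finset V} (h : Cand G U) {x : V} (hx : x ∈ U) :
    U ⊆ Cf G x ∧ ¬ (Df G x ⊆ Nf G U) := by
  obtain ⟨v, hv, h1, h2⟩ := h
  have h3 := h1 hx
  rw [Cf_eq_of_mem h3, Df_eq_of_mem h3]
  exact ⟨h1, h2⟩

lemma lt_of_cand (hd0 : 0 < d) {U : Finset V} (h : Cand G U) : U.card < (Nf G U).card := by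
  obtain ⟨v, hv, h1, h2⟩ := h
  refine lt_of_le_of_ne (card_le_of hd hd0 _ _ (Finset.Subset.refl _)) ?_
  intro hc
  have h3 := closed_of_card_eq hd U _ (Finset.Subset.refl _) hc
  apply h2
  have h4 : Cf G v ⊆ U := by
    refine Cf_subset_of_closed hv ?_
    intro u hu w x h5 h6
    exact h3 w (mem_Nf.2 ⟨u, hu, h5⟩) x h6.symm
  rw [← Nf_Cf]
  exact Nf_mono h4

/-- the main expansion statement in finset form -/
theorem expansion (hG : G.Connected) (hT : VT G) (hd0 : 0 < d) {U : Finset V} (hU : Cand G U) :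
    2 * U.card + d ≤ 2 * (Nf G U).card := by
  -- minimal value
  obtain ⟨A0, hA0, hκmin⟩ := Finset.exists_min_image (univ.filter fun U : Finset V => Cand G U)
    (fun U => (Nf G U).card - U.card) ⟨U, by simpa using hU⟩
  set κ := (Nf G A0).card - A0.card with hκ
  -- atom
  obtain ⟨A, hA, hamin⟩ := Finset.exists_min_image
    (univ.filter fun U : Finset V => Cand G U ∧ (Nf G U).card - U.card = κ)
    (fun U => U.card) ⟨A0, by
      simp only [Finset.mem_filter, Finset.mem_univ, true_and] at hA0 ⊢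
      exact ⟨hA0, rfl⟩⟩
  set a := A.card with ha
  simp only [Finset.mem_filter, Finset.mem_univ, true_and] at hA hκmin hamin
  obtain ⟨hAc, hAκ⟩ := hA
  have hmin : ∀ W, Cand G W → W.card + κ ≤ (Nf G W).card := by
    intro W hW
    have := hκmin W hW
    have h2 := lt_of_cand hd hd0 hW
    omega
  have hamin' : ∀ W, Cand G W → (Nf G W).card = W.card + κ → a ≤ W.card := by
    intro W hW h
    exact hamin W ⟨hW, by omega⟩
  have hκpos : 0 < κ := by
    have := lt_of_cand hd hd0 hAc
    omega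
  have hNA : (Nf G A).card = a + κ := by
    have := lt_of_cand hd hd0 hAc
    omega
  -- (i)
  have hi : ∀ x ∈ A, 2 * a + κ ≤ (Cf G x).card := by
    intro x hx
    obtain ⟨h1, h2⟩ := hAc.of_mem hx
    set A' := Df G x \ Nf G A with hA'
    obtain ⟨w, hw1, hw2⟩ := Finset.not_subset.1 h2
    have hwA' : w ∈ A' := Finset.mem_sdiff.2 ⟨hw1, hw2⟩
    have hCw := Cf_eq_Df_of_mem hw1
    have hDw := Df_eq_Cf_of_mem hw1
    have hNA' : Nf G A' ⊆ Cf G x \ A := by
      intro y hy
      obtain ⟨u, hu, hy⟩ := mem_Nf.1 hy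
      rw [Finset.mem_sdiff] at hu ⊢
      refine ⟨adj_mem_Cf hu.1 hy, fun hyA => hu.2 (mem_Nf.2 ⟨y, hyA, hy.symm⟩)⟩
    have hcand : Cand G A' := by
      refine ⟨w, hwA', ?_, ?_⟩
      · rw [hCw]; exact Finset.sdiff_subset
      · rw [hDw]
        intro h
        have := hNA' (h (h1 hx))
        exact (Finset.mem_sdiff.1 this).2 hx
    have hc1 : (Nf G A').card ≤ (Cf G x).card - a := by
      have := Finset.card_le_card hNA'
      rwa [Finset.card_sdiff_of_subset h1] at this
    have hc2 : A'.card = (Df G x).card - (a + κ) := by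
      rw [hA', Finset.card_sdiff_of_subset (Nf_subset_Df h1), hNA]
    have hc3 := card_Cf_eq hd hd0 x
    have hc4 := hmin A' hcand
    have hc5 : a + κ ≤ (Df G x).card := by
      rw [← hNA]; exact Finset.card_le_card (Nf_subset_Df h1)
    have hc6 : (Nf G A').card = A'.card + κ := by omega
    have hc7 := hamin' A' hcand hc6
    omega
  -- (ii)
  have hii : ∀ A1 A2 : Finset V, Cand G A1 → Cand G A2 → A1.card = a → A2.card = a →
      (Nf G A1).card = a + κ → (Nf G A2).card = a + κ → (∀ x ∈ A1, 2 * a + κ ≤ (Cf G x).card) →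
      ∀ x, x ∈ A1 → x ∈ A2 → A1 = A2 := by
    intro A1 A2 c1 c2 k1 k2 n1 n2 hbig x hx1 hx2
    by_contra hne
    obtain ⟨s1, t1⟩ := c1.of_mem hx1
    obtain ⟨s2, t2⟩ := c2.of_mem hx2
    set I := A1 ∩ A2 with hI
    have hxI : x ∈ I := Finset.mem_inter.2 ⟨hx1, hx2⟩
    have hIlt : I.card < a := by
      rw [← k1]
      refine Finset.card_lt_card ⟨Finset.inter_subset_left, fun h => hne ?_⟩
      have h3 : A1 ⊆ A2 := h.trans Finset.inter_subset_right
      exact Finset.eq_of_subset_of_card_le h3 (by rw [k1, k2])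
    have hIcand : Cand G I :=
      ⟨x, hxI, Finset.inter_subset_left.trans s1, fun h => t1 (h.trans
        (Nf_mono Finset.inter_subset_left))⟩
    have hI1 := hmin I hIcand
    have hI2 : (Nf G I).card ≠ I.card + κ := fun h => by
      have := hamin' I hIcand h
      omega
    have hsub : (Nf G I).card + (Nf G (A1 ∪ A2)).card ≤ (a + κ) + (a + κ) := by
      have e1 : Nf G I ⊆ Nf G A1 ∩ Nf G A2 := by
        refine Finset.subset_inter (Nf_mono Finset.inter_subset_left)
          (Nf_mono Finset.inter_subset_right)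
      have e2 := Finset.card_le_card e1
      rw [Nf_union]
      have e3 := Finset.card_union_add_card_inter (Nf G A1) (Nf G A2)
      rw [n1, n2] at e3
      omega
    have hcard := Finset.card_union_add_card_inter A1 A2
    rw [← hI, k1, k2] at hcard
    by_cases hun : Df G x ⊆ Nf G (A1 ∪ A2)
    · have e4 := Finset.card_le_card hun
      rw [← card_Cf_eq hd hd0 x] at e4
      have e5 := hbig x hx1
      omega
    · have e6 : Cand G (A1 ∪ A2) :=
        ⟨x, Finset.mem_union_left _ hx1, Finset.union_subset s1 s2, hun⟩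
      have e7 := hmin _ e6
      omega
  -- automorphisms
  have himg : ∀ (φ : G ≃g G) (W : Finset V), Nf G (W.image φ) = (Nf G W).image φ := by
    intro φ W
    ext w
    simp only [mem_Nf, Finset.mem_image]
    constructor
    · rintro ⟨u, ⟨y, hy, rfl⟩, hw⟩
      refine ⟨φ.symm w, ⟨y, hy, ?_⟩, by simp⟩
      have := (φ.map_adj_iff (v := y) (w := φ.symm w)).1 (by simpa using hw)
      exact this
    · rintro ⟨w', ⟨y, hy, h⟩, rfl⟩
      exact ⟨φ y, ⟨y, hy, rfl⟩, φ.map_adj_iff.2 h⟩
  have himgC : ∀ (φ : G ≃g G) (x y : V), y ∈ Cf G x → φ y ∈ Cf G (φ x) := by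
    intro φ x y hy
    obtain ⟨p, hp⟩ := mem_Cf.1 hy
    exact mem_Cf.2 ⟨p.map φ.toHom, by simpa using hp⟩
  have himgD : ∀ (φ : G ≃g G) (x y : V), y ∈ Df G x → φ y ∈ Df G (φ x) := by
    intro φ x y hy
    obtain ⟨p, hp⟩ := mem_Df.1 hy
    exact mem_Df.2 ⟨p.map φ.toHom, by simpa using hp⟩
  have hcandφ : ∀ (φ : G ≃g G), Cand G (A.image φ) := by
    intro φ
    obtain ⟨v, hv, h1, h2⟩ := hAc
    refine ⟨φ v, Finset.mem_image_of_mem _ hv, ?_, ?_⟩
    · intro y hy
      obtain ⟨y', hy', rfl⟩ := Finset.mem_image.1 hy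
      exact himgC φ v y' (h1 hy')
    · intro h
      apply h2
      intro y hy
      have h3 := h (himgD φ v y hy)
      rw [himg, Finset.mem_image] at h3
      obtain ⟨y', hy', h4⟩ := h3
      rw [φ.injective h4] at hy'
      exact hy'
  have hcardφ : ∀ (φ : G ≃g G) (W : Finset V), (W.image φ).card = W.card := fun φ W =>
    Finset.card_image_of_injective _ φ.injective
  have hbigφ : ∀ (φ : G ≃g G), ∀ x ∈ A.image φ, 2 * a + κ ≤ (Cf G x).card := by
    intro φ x hx
    obtain ⟨y, hy, rfl⟩ := Finset.mem_image.1 hx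
    have h1 := hi y hy
    have h2 : (Cf G y).image φ ⊆ Cf G (φ y) := by
      intro z hz
      obtain ⟨z', hz', rfl⟩ := Finset.mem_image.1 hz
      exact himgC φ y z' hz'
    have h3 := Finset.card_le_card h2
    rw [hcardφ] at h3
    omega
  obtain ⟨x0, hx0A, -⟩ := hAc
  -- the atom of a vertex
  have hatom : ∀ x : V, ∃ φ : G ≃g G, φ x0 = x := fun x => hT x0 x
  choose φ hφ using hatom
  set At : V → Finset V := fun x => A.image (φ x) with hAt
  have hxAt : ∀ x, x ∈ At x := fun x => Finset.mem_image.2 ⟨x0, hx0A, hφ x⟩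
  have huniq : ∀ (ψ : G ≃g G) (x : V), x ∈ A.image ψ → A.image ψ = At x := by
    intro ψ x hx
    refine hii _ _ (hcandφ ψ) (hcandφ (φ x)) ?_ ?_ ?_ ?_ (hbigφ ψ) x hx (hxAt x)
    · rw [hcardφ]
    · rw [hcardφ]
    · rw [himg, hcardφ, hNA]
    · rw [himg, hcardφ, hNA]
  have hAteq : ∀ x y, y ∈ At x → At x = At y := fun x y hy => huniq (φ x) y hy
  have hAtφ : ∀ (ψ : G ≃g G) (x : V), At (ψ x) = (At x).image ψ := by
    intro ψ x
    have h1 : (At x).image ψ = A.image ((φ x).trans ψ) := by
      rw [hAt, Finset.image_image]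
      rfl
    rw [h1]
    refine (huniq ((φ x).trans ψ) (ψ x) ?_).symm
    rw [← h1]
    exact Finset.mem_image_of_mem _ (hxAt x)
  have hAtcard : ∀ x, (At x).card = a := fun x => by rw [hAt]; exact hcardφ _ _
  have hNAt : ∀ x, (Nf G (At x)).card = a + κ := fun x => by
    rw [hAt]
    show (Nf G (A.image (φ x))).card = _
    rw [himg, hcardφ, hNA]
  -- the counting
  set R : V → Finset V := fun v => univ.filter fun x => v ∈ Nf G (At x) with hR
  have hRconst : ∀ v w, (R v).card = (R w).card := by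
    intro v w
    obtain ⟨ψ, hψ⟩ := hT v w
    have h1 : R w = (R v).image ψ := by
      ext x
      simp only [hR, Finset.mem_filter, Finset.mem_univ, true_and, Finset.mem_image]
      constructor
      · intro hx
        refine ⟨ψ.symm x, ?_, by simp⟩
        have h2 : At x = (At (ψ.symm x)).image ψ := by
          rw [← hAtφ]; simp
        rw [h2, himg, Finset.mem_image] at hx
        obtain ⟨y, hy, hyw⟩ := hx
        rw [← hψ] at hyw
        rw [ψ.injective hyw] at hy
        exact hy
      · rintro ⟨y, hy, rfl⟩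
        rw [hAtφ, himg, ← hψ]
        exact Finset.mem_image_of_mem _ hy
    rw [h1, hcardφ]
  have hdvd : ∀ v, a ∣ (R v).card := by
    intro v
    rw [Finset.card_eq_sum_card_image At (R v)]
    refine Finset.dvd_sum fun B hB => ?_
    obtain ⟨x, hx, rfl⟩ := Finset.mem_image.1 hB
    have h1 : (R v).filter (fun y => At y = At x) = At x := by
      ext y
      simp only [Finset.mem_filter]
      constructor
      · rintro ⟨_, h⟩
        rw [← h]; exact hxAt y
      · intro hy
        have h2 := hAteq x y hy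
        refine ⟨?_, h2.symm⟩
        simp only [hR, Finset.mem_filter, Finset.mem_univ, true_and] at hx ⊢
        rw [← h2]; exact hx
    rw [h1, hAtcard]
  have hsum : ∑ x : V, (Nf G (At x)).card = ∑ v : V, (R v).card := by
    have h1 := Finset.sum_card_bipartiteAbove_eq_sum_card_bipartiteBelow
      (s := (univ : Finset V)) (t := (univ : Finset V)) (fun x v => v ∈ Nf G (At x))
    have h2 : ∀ x : V, (Finset.bipartiteAbove (fun x v => v ∈ Nf G (At x)) univ x).card =
        (Nf G (At x)).card := by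
      intro x
      congr 1
      ext v
      simp [Finset.bipartiteAbove]
    simp only [h2] at h1
    exact h1
  have hreq : (R x0).card = a + κ := by
    have h1 : ∑ x : V, (Nf G (At x)).card = Fintype.card V * (a + κ) := by
      rw [Finset.sum_congr rfl fun x _ => hNAt x]
      simp
    have h2 : ∑ v : V, (R v).card = Fintype.card V * (R x0).card := by
      rw [Finset.sum_congr rfl fun v _ => hRconst v x0]
      simp
    rw [h1, h2] at hsum
    have h3 : 0 < Fintype.card V := Fintype.card_pos_iff.2 ⟨x0⟩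
    exact (Nat.eq_of_mul_eq_mul_left h3 hsum).symm
  have hdvd2 : a ∣ κ := by
    have := hdvd x0
    rw [hreq] at this
    exact (Nat.dvd_add_right (dvd_refl a)).1 this
  have haκ : a ≤ κ := Nat.le_of_dvd hκpos hdvd2
  have hdle : d ≤ a + κ := by
    rw [← hNA, ← hd x0]
    refine Finset.card_le_card ?_
    intro w hw
    simp only [Finset.mem_filter, Finset.mem_univ, true_and] at hw
    exact mem_Nf.2 ⟨x0, hx0A, hw⟩
  have := hmin U hU
  omega

end Exp

open Exp

theorem nbhd_expansion {V : Type*} [Finite V] {G : SimpleGraph V} (hG : G.Connected) (hT : VT G)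
    (d : ℕ) (hd : ∀ v, (G.neighborSet v).ncard = d)
    (v₀ : V) (U : Set V) (hU : U.Nonempty)
    (hUC : ∀ u ∈ U, ∃ p : G.Walk v₀ u, Even p.length)
    (hne : ∃ w, (∃ p : G.Walk v₀ w, Odd p.length) ∧ w ∉ nbhd G U) :
    2 * U.ncard + d ≤ 2 * (nbhd G U).ncard := by
  have : Fintype V := Fintype.ofFinite V
  have hd' : ∀ v, (univ.filter fun w => G.Adj v w).card = d := by
    intro v
    rw [← hd v, ← Set.ncard_coe_finset]
    congr 1
    ext w; simp
  set U' : Finset V := U.toFinset with hU'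
  have hUU : (U' : Set V) = U := by simp [hU']
  have hN : (Nf G U' : Set V) = nbhd G U := by
    ext w
    simp only [Finset.mem_coe, mem_Nf, nbhd, Set.mem_ofPred_eq, hU', Set.mem_toFinset]
  obtain ⟨w, ⟨p, hp⟩, hw⟩ := hne
  have hd0 : 0 < d := by
    cases p with
    | nil => simp at hp
    | cons h q =>
      rw [← hd' v₀, Finset.card_pos]
      exact ⟨_, by simpa using h⟩
  obtain ⟨u, hu⟩ := hU
  have huC : u ∈ Cf G v₀ := mem_Cf.2 (hUC u hu)
  have hc : Cand G U' := by
    refine ⟨u, by simpa [hU'] using hu, ?_, ?_⟩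
    · rw [Cf_eq_of_mem huC]
      intro y hy
      exact mem_Cf.2 (hUC y (by simpa [hU'] using hy))
    · rw [Df_eq_of_mem huC]
      intro h
      have h1 := h (mem_Df.2 ⟨p, hp⟩)
      apply hw
      rw [← hN]
      exact h1
  have := expansion hd' hG hT hd0 hc
  rw [← hN, ← hUU, Set.ncard_coe_finset, Set.ncard_coe_finset]
  exact this

/-- the demand inequality inside one class -/
lemma demand_class {V : Type*} [Fintype V] {G : SimpleGraph V} (hG : G.Connected)
    (hT : VT G) {d : ℕ} (hd : ∀ v, (univ.filter fun w => G.Adj v w).card = d) (hd0 : 0 < d)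
    (β : V → ℕ) (lo hi : ℕ) (hlo : ∀ v, lo ≤ β v) (hhi : ∀ v, β v ≤ hi)
    (hcond : 2 * (hi - lo) * Fintype.card V ≤ lo * d)
    (hbal : ∀ v, ∑ w ∈ Cf G v, β w ≤ ∑ w ∈ Df G v, β w)
    (v : V) (U : Finset V) (hU : U ⊆ Cf G v) : ∑ w ∈ U, β w ≤ ∑ w ∈ Nf G U, β w := by
  by_cases h : Df G v ⊆ Nf G U
  · calc ∑ w ∈ U, β w ≤ ∑ w ∈ Cf G v, β w :=
          Finset.sum_le_sum_of_subset_of_nonneg hU fun _ _ _ => Nat.zero_le _
      _ ≤ ∑ w ∈ Df G v, β w := hbal v
      _ ≤ _ := Finset.sum_le_sum_of_subset_of_nonneg h fun _ _ _ => Nat.zero_le _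
  · rcases U.eq_empty_or_nonempty with rfl | ⟨u, hu⟩
    · simp
    · have hc : Cand G U := by
        refine ⟨u, hu, ?_, ?_⟩
        · rw [Cf_eq_of_mem (hU hu)]; exact hU
        · rw [Df_eq_of_mem (hU hu)]; exact h
      have h1 := expansion hd hG hT hd0 hc
      have h2 : ∑ w ∈ U, β w ≤ U.card * hi := by
        refine (Finset.sum_le_sum fun w _ => hhi w).trans ?_
        simp
      have h3 : (Nf G U).card * lo ≤ ∑ w ∈ Nf G U, β w := by
        refine le_trans ?_ (Finset.sum_le_sum fun w _ => hlo w)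
        simp
      have hle : lo ≤ hi := (hlo u).trans (hhi u)
      obtain ⟨δ, rfl⟩ := Nat.exists_eq_add_of_le hle
      rw [Nat.add_sub_cancel_left] at hcond
      have h4 : U.card ≤ Fintype.card V := Finset.card_le_univ _
      have h5 : 2 * δ * U.card ≤ lo * d := (Nat.mul_le_mul_left _ h4).trans hcond
      have h6 : 2 * (U.card * (lo + δ)) ≤ 2 * ((Nf G U).card * lo) := by
        calc 2 * (U.card * (lo + δ)) = 2 * U.card * lo + 2 * δ * U.card := by ring
          _ ≤ 2 * U.card * lo + lo * d := by omega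
          _ = (2 * U.card + d) * lo := by ring
          _ ≤ (2 * (Nf G U).card) * lo := Nat.mul_le_mul_right _ h1
          _ = _ := by ring
      omega

theorem transport {V : Type*} [Fintype V] [DecidableEq V] {G : SimpleGraph V} (hG : G.Connected)
    (hT : VT G) (d : ℕ) (hd : ∀ v, (G.neighborSet v).ncard = d)
    (β : V → ℕ) (lo hi : ℕ) (hlo : ∀ v, lo ≤ β v) (hhi : ∀ v, β v ≤ hi)
    (hcond : 2 * (hi - lo) * Fintype.card V ≤ lo * d)
    (hbal : ∀ S : Finset V, (∀ u v, G.Adj u v → (u ∈ S ↔ v ∉ S)) →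
      ∑ v ∈ S, β v = ∑ v ∈ Sᶜ, β v) :
    ∃ N : V → V → ℕ, (∀ u v, N u v ≠ 0 → G.Adj u v) ∧ (∀ u, ∑ v, N u v = β u) ∧
      (∀ v, ∑ u, N u v = β v) := by
  obtain rfl : ‹DecidableEq V› = Classical.decEq V := Subsingleton.elim _ _
  have hd' : ∀ v, (univ.filter fun w => G.Adj v w).card = d := by
    intro v
    rw [← hd v, ← Set.ncard_coe_finset]
    congr 1
    ext w; simp
  rcases Nat.eq_zero_or_pos d with hd0 | hd0
  · have hno : ∀ u v, ¬ G.Adj u v := by
      intro u v h
      have := hd' u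
      rw [hd0, Finset.card_eq_zero] at this
      have h2 : v ∈ univ.filter fun w => G.Adj u w := by simpa using h
      rw [this] at h2
      simp at h2
    have h1 := hbal univ (fun u v h => absurd h (hno u v))
    simp at h1
    exact ⟨fun _ _ => 0, by simp, by simp [h1], by simp [h1]⟩
  -- balance for the classes
  have hcover : ∀ v w, w ∈ Cf G v ∨ w ∈ Df G v := by
    intro v w
    obtain ⟨p⟩ := hG.preconnected v w
    rcases Nat.even_or_odd p.length with h | h
    · exact Or.inl (mem_Cf.2 ⟨p, h⟩)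
    · exact Or.inr (mem_Df.2 ⟨p, h⟩)
  have hbal' : ∀ v, ∑ w ∈ Cf G v, β w ≤ ∑ w ∈ Df G v, β w := by
    intro v
    by_cases hint : ∃ x, x ∈ Cf G v ∧ x ∈ Df G v
    · obtain ⟨x, h1, h2⟩ := hint
      have h3 : Cf G v = Df G v := by
        rw [← Cf_eq_of_mem h1, Cf_eq_Df_of_mem h2]
      rw [h3]
    · push Not at hint
      have h4 : (Cf G v)ᶜ = Df G v := by
        ext w
        rw [Finset.mem_compl]
        constructor
        · intro h
          exact (hcover v w).resolve_left h
        · intro h1 h2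
          exact hint w h2 h1
      rw [← h4]
      refine (hbal (Cf G v) ?_).le
      intro x y hxy
      constructor
      · intro hx hy
        exact hint y hy (adj_mem_Df hx hxy)
      · intro hy
        have hy' := (hcover v y).resolve_left hy
        exact adj_mem_Cf hy' hxy.symm
  have hdem : ∀ U : Finset V, ∑ w ∈ U, β w ≤ ∑ w ∈ Nf G U, β w := by
    intro U
    rcases U.eq_empty_or_nonempty with rfl | ⟨v, hv⟩
    · simp
    by_cases hint : ∃ x, x ∈ Cf G v ∧ x ∈ Df G v
    · refine demand_class hG hT hd' hd0 β lo hi hlo hhi hcond hbal' v U ?_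
      obtain ⟨x, h1, h2⟩ := hint
      have h3 : Cf G v = Df G v := by
        rw [← Cf_eq_of_mem h1, Cf_eq_Df_of_mem h2]
      intro w _
      rcases hcover v w with h | h
      · exact h
      · rw [h3]; exact h
    · push Not at hint
      obtain ⟨w0, hw0⟩ : (Df G v).Nonempty := by
        have := hd' v
        have h1 : (univ.filter fun w => G.Adj v w).Nonempty := by
          rw [← Finset.card_pos]; omega
        obtain ⟨w, hw⟩ := h1
        exact ⟨w, adj_mem_Df (self_mem_Cf v) (by simpa using hw)⟩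
      have hU : U = (U ∩ Cf G v) ∪ (U ∩ Df G v) := by
        rw [← Finset.inter_union_distrib_left]
        ext w
        simp only [Finset.mem_inter, Finset.mem_union]
        exact ⟨fun h => ⟨h, hcover v w⟩, fun h => h.1⟩
      have hdisj : Disjoint (U ∩ Cf G v) (U ∩ Df G v) := by
        rw [Finset.disjoint_left]
        intro x hx hx'
        exact hint x (Finset.mem_inter.1 hx).2 (Finset.mem_inter.1 hx').2
      have h1 := demand_class hG hT hd' hd0 β lo hi hlo hhi hcond hbal' v (U ∩ Cf G v)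
        Finset.inter_subset_right
      have h2 := demand_class hG hT hd' hd0 β lo hi hlo hhi hcond hbal' w0 (U ∩ Df G v)
        (by rw [Cf_eq_Df_of_mem hw0]; exact Finset.inter_subset_right)
      have hN1 : Nf G (U ∩ Cf G v) ⊆ Df G v := Nf_subset_Df Finset.inter_subset_right
      have hN2 : Nf G (U ∩ Df G v) ⊆ Cf G v := by
        rw [← Df_eq_Cf_of_mem hw0]
        refine Nf_subset_Df ?_
        rw [Cf_eq_Df_of_mem hw0]; exact Finset.inter_subset_right
      have hdisj2 : Disjoint (Nf G (U ∩ Cf G v)) (Nf G (U ∩ Df G v)) := by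
        rw [Finset.disjoint_left]
        intro x hx hx'
        exact hint x (hN2 hx') (hN1 hx)
      calc ∑ w ∈ U, β w = ∑ w ∈ (U ∩ Cf G v), β w + ∑ w ∈ (U ∩ Df G v), β w := by
            conv_lhs => rw [hU]
            exact Finset.sum_union hdisj
        _ ≤ ∑ w ∈ Nf G (U ∩ Cf G v), β w + ∑ w ∈ Nf G (U ∩ Df G v), β w := add_le_add h1 h2
        _ = ∑ w ∈ Nf G (U ∩ Cf G v) ∪ Nf G (U ∩ Df G v), β w := (Finset.sum_union hdisj2).symm
        _ ≤ ∑ w ∈ Nf G U, β w := by
            refine Finset.sum_le_sum_of_subset_of_nonneg ?_ fun _ _ _ => Nat.zero_le _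
            rw [← Nf_union, ← hU]
  -- Hall
  let t : (Σ u : V, Fin (β u)) → Finset (Σ u : V, Fin (β u)) := fun x =>
    univ.filter fun y => G.Adj x.1 y.1
  have hcardF : ∀ W : Finset V, (univ.filter fun y : Σ u : V, Fin (β u) => y.1 ∈ W).card =
      ∑ w ∈ W, β w := by
    intro W
    have : (univ.filter fun y : Σ u : V, Fin (β u) => y.1 ∈ W) =
        W.sigma fun w => (univ : Finset (Fin (β w))) := by
      ext y; simp
    rw [this, Finset.card_sigma]
    simp
  have hall : ∀ s : Finset (Σ u : V, Fin (β u)), s.card ≤ (s.biUnion t).card := by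
    intro s
    set U := s.image Sigma.fst with hU
    have h1 : s.card ≤ ∑ w ∈ U, β w := by
      rw [← hcardF]
      refine Finset.card_le_card ?_
      intro y hy
      simp only [Finset.mem_filter, Finset.mem_univ, true_and, hU]
      exact Finset.mem_image_of_mem _ hy
    have h2 : s.biUnion t = univ.filter fun y : Σ u : V, Fin (β u) => y.1 ∈ Nf G U := by
      ext y
      simp only [Finset.mem_biUnion, Finset.mem_filter, Finset.mem_univ, true_and, t, mem_Nf, hU,
        Finset.mem_image]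
      constructor
      · rintro ⟨x, hx, h⟩
        exact ⟨x.1, ⟨x, hx, rfl⟩, h⟩
      · rintro ⟨u, ⟨x, hx, rfl⟩, h⟩
        exact ⟨x, hx, h⟩
    rw [h2, hcardF]
    exact h1.trans (hdem U)
  obtain ⟨f, hfinj, hf⟩ := (Finset.all_card_le_biUnion_card_iff_exists_injective t).1 hall
  have hfbij : Function.Bijective f := Finite.injective_iff_bijective.1 hfinj
  refine ⟨fun u v => (univ.filter fun i : Fin (β u) => (f ⟨u, i⟩).1 = v).card, ?_, ?_, ?_⟩
  · intro u v h
    obtain ⟨i, hi⟩ := Finset.card_pos.1 (Nat.pos_of_ne_zero h)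
    simp only [Finset.mem_filter, Finset.mem_univ, true_and] at hi
    have := hf ⟨u, i⟩
    simp only [t, Finset.mem_filter, Finset.mem_univ, true_and] at this
    rw [hi] at this
    exact this
  · intro u
    have := Finset.card_eq_sum_card_fiberwise (f := fun i : Fin (β u) => (f ⟨u, i⟩).1)
      (s := univ) (t := univ) (fun _ _ => Finset.mem_coe.2 (Finset.mem_univ _))
    rw [← this]
    simp
  · intro v
    have h1 : (univ.filter fun y : Σ u : V, Fin (β u) => y.1 = v).card = β v := by
      have := hcardF {v}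
      simpa using this
    have h2 : (univ.filter fun x : Σ u : V, Fin (β u) => (f x).1 = v).card = β v := by
      rw [← h1]
      refine Finset.card_bij (fun x _ => f x) ?_ ?_ ?_
      · intro x hx; simpa using hx
      · intro x _ y _ h; exact hfinj h
      · intro y hy
        obtain ⟨x, rfl⟩ := hfbij.2 y
        exact ⟨x, by simpa using hy, rfl⟩
    rw [← h2]
    have h3 : (univ.filter fun x : Σ u : V, Fin (β u) => (f x).1 = v) =
        (univ : Finset V).sigma fun u => univ.filter fun i : Fin (β u) => (f ⟨u, i⟩).1 = v := by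
      ext x; simp
    rw [h3, Finset.card_sigma]

end Pool.Agent.UPS
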