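import Pool.Agent.Lib.MP_876e19_co.Defs

/-!
# Families of pairs of routes and their transport by automorphisms (helper96)
-/

set_option autoImplicit false

namespace Pool.Agent.UPS

open Finset

variable {V : Type*}

/-- pairs of internally disjoint routes for all pairs of vertices -/
structure RFam [Fintype V] (G : SimpleGraph V) (d : ℕ) where
  R : ∀ x u : V, Bool → G.Walk x u
  sym : ∀ x u b, R u x b = (R x u b).reverse
  path : ∀ x u b, (R x u b).IsPath
  disj : ∀ x u w, w ∈ (R x u false).support → w ∈ (R x u true).support → w = x ∨ w = u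
  len : ∀ x u, ((R x u false).length + (R x u true).length) * d ≤ 24 * Fintype.card V
  adj : ∀ x u b, G.Adj x u → (R x u b).length = 1

/-- transport of a walk system by an automorphism -/
def tr {G : SimpleGraph V} (γ : G ≃g G) (R : ∀ x u : V, Bool → G.Walk x u) :
    ∀ x u : V, Bool → G.Walk x u :=
  fun x u b => ((R (γ x) (γ u) b).map γ.symm.toHom).copy (γ.symm_apply_apply x)
    (γ.symm_apply_apply u)

section tr
variable {G : SimpleGraph V} (γ : G ≃g G) (R : ∀ x u : V, Bool → G.Walk x u)

lemma mem_support_tr (x u w : V) (b : Bool) :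
    w ∈ (tr γ R x u b).support ↔ γ w ∈ (R (γ x) (γ u) b).support := by
  unfold tr
  rw [SimpleGraph.Walk.support_copy, SimpleGraph.Walk.support_map, List.mem_map]
  constructor
  · rintro ⟨y, hy, h⟩
    have : γ w = y := by
      rw [← h]; exact γ.apply_symm_apply y
    rw [this]; exact hy
  · intro h
    exact ⟨γ w, h, γ.symm_apply_apply w⟩

lemma mem_edges_tr (x u : V) (e : Sym2 V) (b : Bool) :
    e ∈ (tr γ R x u b).edges ↔ Sym2.map γ e ∈ (R (γ x) (γ u) b).edges := by
  unfold tr
  rw [SimpleGraph.Walk.edges_copy, SimpleGraph.Walk.edges_map, List.mem_map]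
  constructor
  · rintro ⟨y, hy, h⟩
    have : Sym2.map γ e = y := by
      rw [← h, Sym2.map_map]
      have : (γ ∘ γ.symm.toHom : V → V) = id := by
        funext z; exact γ.apply_symm_apply z
      rw [this, Sym2.map_id]; rfl
    rw [this]; exact hy
  · intro h
    refine ⟨Sym2.map γ e, h, ?_⟩
    rw [Sym2.map_map]
    have : (γ.symm.toHom ∘ γ : V → V) = id := by
      funext z; exact γ.symm_apply_apply z
    rw [this, Sym2.map_id]; rfl

lemma length_tr (x u : V) (b : Bool) : (tr γ R x u b).length = (R (γ x) (γ u) b).length := by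
  unfold tr
  rw [SimpleGraph.Walk.length_copy, SimpleGraph.Walk.length_map]

lemma isPath_tr (hR : ∀ x u b, (R x u b).IsPath) (x u : V) (b : Bool) :
    (tr γ R x u b).IsPath := by
  unfold tr
  rw [SimpleGraph.Walk.isPath_copy]
  exact (hR _ _ _).map γ.symm.injective

lemma sym_tr (hR : ∀ x u b, R u x b = (R x u b).reverse) (x u : V) (b : Bool) :
    tr γ R u x b = (tr γ R x u b).reverse := by
  unfold tr
  rw [SimpleGraph.Walk.reverse_copy, SimpleGraph.Walk.reverse_map, ← hR]

end tr

/-- existence of a symmetric family from pairwise existence -/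
lemma exists_rfam [Fintype V] {G : SimpleGraph V} (d : ℕ)
    (h : ∀ x u : V, x ≠ u → ∃ A B : G.Walk x u, A.IsPath ∧ B.IsPath ∧
      (∀ w, w ∈ A.support → w ∈ B.support → w = x ∨ w = u) ∧
      (A.length + B.length) * d ≤ 24 * Fintype.card V ∧
      (G.Adj x u → A.length = 1 ∧ B.length = 1)) : Nonempty (RFam G d) := by
  classical
  have h' : ∀ x u : V, ∃ A B : G.Walk x u, A.IsPath ∧ B.IsPath ∧
      (∀ w, w ∈ A.support → w ∈ B.support → w = x ∨ w = u) ∧
      (A.length + B.length) * d ≤ 24 * Fintype.card V ∧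
      (G.Adj x u → A.length = 1 ∧ B.length = 1) := by
    intro x u
    by_cases hxu : x = u
    · subst hxu
      refine ⟨.nil, .nil, by simp, by simp, ?_, by simp, ?_⟩
      · intro w hw _
        simp only [SimpleGraph.Walk.support_nil, List.mem_singleton] at hw
        exact Or.inl hw
      · intro hadj; exact absurd hadj (G.loopless.irrefl x)
    · exact h x u hxu
  choose A B hA hB hd hl ha using h'
  set f := Fintype.equivFin V
  refine ⟨{
    R := fun x u b => if f x ≤ f u then (if b then B x u else A x u)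
      else ((if b then B u x else A u x)).reverse
    sym := ?_, path := ?_, disj := ?_, len := ?_, adj := ?_ }⟩
  · intro x u b
    by_cases h1 : f x ≤ f u
    · by_cases h2 : f u ≤ f x
      · have : x = u := f.injective (le_antisymm h1 h2)
        subst this
        have hp : (if b then B x x else A x x).IsPath := by
          cases b
          · exact hA x x
          · exact hB x x
        rw [if_pos le_rfl, SimpleGraph.Walk.eq_nil_iff_nil.2 (SimpleGraph.Walk.isPath_iff_nil.1 hp)]
        rfl
      · rw [if_neg h2, if_pos h1]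
    · have h2 : f u ≤ f x := le_of_not_ge h1
      rw [if_pos h2, if_neg h1, SimpleGraph.Walk.reverse_reverse]
  · intro x u b
    split_ifs <;> simp [hA, hB]
  · intro x u w
    by_cases h1 : f x ≤ f u
    · simp only [h1, if_true]
      exact hd x u w
    · simp only [h1, if_false]
      intro h2 h3
      simp only [SimpleGraph.Walk.support_reverse, List.mem_reverse] at h2 h3
      exact (hd u x w h2 h3).symm
  · intro x u
    by_cases h1 : f x ≤ f u
    · simp only [h1, if_true]
      exact hl x u
    · simp only [h1, if_false, SimpleGraph.Walk.length_reverse]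
      exact hl u x
  · intro x u b hadj
    have h1 := ha x u hadj
    have h2 := ha u x hadj.symm
    cases b <;> split_ifs <;> simp_all

/-! ### Sums over unordered pairs -/

lemma sum_lt_symm [Fintype V] [DecidableEq V] (f : V → ℕ) (hf : Function.Injective f)
    (F : V → V → ℝ)
    (hF : ∀ x u, F u x = F x u) :
    2 * ∑ x, ∑ u, (if f x < f u then F x u else 0) =
      ∑ x, ∑ u, (if x ≠ u then F x u else 0) := by
  have h1 : ∑ x, ∑ u, (if f x < f u then F x u else 0) =
      ∑ x, ∑ u, (if f u < f x then F x u else 0) := by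
    rw [Finset.sum_comm]
    simp_rw [hF]
  rw [two_mul]
  nth_rewrite 2 [h1]
  rw [← Finset.sum_add_distrib]
  apply Finset.sum_congr rfl
  intro x _
  rw [← Finset.sum_add_distrib]
  apply Finset.sum_congr rfl
  intro u _
  by_cases hxu : x = u
  · subst hxu; simp
  · rw [if_pos hxu]
    have : f x ≠ f u := fun h => hxu (hf h)
    rcases lt_or_gt_of_ne this with h | h
    · rw [if_pos h, if_neg (by omega)]; ring
    · rw [if_neg (by omega), if_pos h]; ring

open Classical in
lemma ncard_eq_sum [Fintype V] (f : V → ℕ) (hf : Function.Injective f)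
    (Q : V → V → Prop) :
    (({p : V × V | p.1 ≠ p.2 ∧ Q p.1 p.2}.ncard : ℕ) : ℝ) =
      ∑ x, ∑ u, (if f x < f u then ((if Q x u then (1:ℝ) else 0) + (if Q u x then (1:ℝ) else 0))
        else 0) := by
  have e0 : (({p : V × V | p.1 ≠ p.2 ∧ Q p.1 p.2}.ncard : ℕ) : ℝ) =
      ∑ x, ∑ u, (if x ≠ u then (if Q x u then (1:ℝ) else 0) else 0) := by
    rw [Set.ncard_eq_toFinset_card', Finset.card_eq_sum_ones]
    push_cast
    rw [← Finset.sum_product' (f := fun x u => (if x ≠ u then (if Q x u then (1:ℝ) else 0) else 0))]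
    rw [Finset.univ_product_univ]
    have : (Set.toFinset {p : V × V | p.1 ≠ p.2 ∧ Q p.1 p.2}) =
        Finset.univ.filter (fun p : V × V => p.1 ≠ p.2 ∧ Q p.1 p.2) := by
      ext p; simp
    rw [this, Finset.sum_filter]
    apply Finset.sum_congr rfl
    intro p _
    by_cases h1 : p.1 ≠ p.2 <;> by_cases h2 : Q p.1 p.2 <;> simp [h1, h2]
  have e1 := sum_lt_symm f hf (fun x u => (if Q x u then (1:ℝ) else 0) +
    (if Q u x then (1:ℝ) else 0)) (fun x u => add_comm _ _)
  have e2 : ∑ x, ∑ u, (if x ≠ u then ((if Q x u then (1:ℝ) else 0) +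
      (if Q u x then (1:ℝ) else 0)) else 0) =
      2 * ∑ x, ∑ u, (if x ≠ u then (if Q x u then (1:ℝ) else 0) else 0) := by
    have e3 : ∑ x, ∑ u, (if x ≠ u then (if Q u x then (1:ℝ) else 0) else 0) =
        ∑ x, ∑ u, (if x ≠ u then (if Q x u then (1:ℝ) else 0) else 0) := by
      rw [Finset.sum_comm]
      apply Finset.sum_congr rfl
      intro x _
      apply Finset.sum_congr rfl
      intro u _
      simp only [ne_comm]
    rw [two_mul]
    nth_rewrite 2 [← e3]
    rw [← Finset.sum_add_distrib]
    apply Finset.sum_congr rfl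
    intro x _
    rw [← Finset.sum_add_distrib]
    apply Finset.sum_congr rfl
    intro u _
    split_ifs <;> ring
  rw [e0]
  rw [e2] at e1
  linarith

/-! ### Averages over the automorphism group -/

instance instFiniteIso [Finite V] (G : SimpleGraph V) : Finite (G ≃g G) :=
  Finite.of_injective (fun φ : G ≃g G => (φ : V → V)) DFunLike.coe_injective

noncomputable instance instFintypeIso [Finite V] (G : SimpleGraph V) : Fintype (G ≃g G) :=
  Fintype.ofFinite _

lemma mean_inv [Fintype V] [DecidableEq V] {G : SimpleGraph V} {α : Type*}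
    (act : (G ≃g G) → α → α)
    (Φ : (G ≃g G) → V → V → α → ℝ)
    (hΦ : ∀ γ δ x u a, Φ γ (δ x) (δ u) (act δ a) = Φ (γ * δ) x u a)
    (hs : ∀ γ x u a, Φ γ u x a = Φ γ x u a) (f : V → ℕ) (hf : Function.Injective f)
    (δ : G ≃g G) (a : α) :
    ∑ x, ∑ u, (if f x < f u then ∑ γ, Φ γ x u (act δ a) else 0) =
      ∑ x, ∑ u, (if f x < f u then ∑ γ, Φ γ x u a else 0) := by
  have h1 := sum_lt_symm f hf (fun x u => ∑ γ, Φ γ x u (act δ a))
    (fun x u => Finset.sum_congr rfl fun γ _ => hs γ x u _)
  have h2 := sum_lt_symm f hf (fun x u => ∑ γ, Φ γ x u a)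
    (fun x u => Finset.sum_congr rfl fun γ _ => hs γ x u _)
  have h3 : ∑ x, ∑ u, (if x ≠ u then ∑ γ, Φ γ x u (act δ a) else 0) =
      ∑ x, ∑ u, (if x ≠ u then ∑ γ, Φ γ x u a else 0) := by
    rw [← Equiv.sum_comp δ.toEquiv]
    apply Finset.sum_congr rfl
    intro x _
    rw [← Equiv.sum_comp δ.toEquiv]
    apply Finset.sum_congr rfl
    intro u _
    have hne : (δ.toEquiv x ≠ δ.toEquiv u) ↔ x ≠ u := by
      rw [ne_eq, ne_eq, δ.toEquiv.apply_eq_iff_eq]
    simp only [hne]
    split_ifs
    · have : ∀ γ, Φ γ (δ.toEquiv x) (δ.toEquiv u) (act δ a) = Φ (γ * δ) x u a :=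
        fun γ => hΦ γ δ x u a
      simp_rw [this]
      exact Equiv.sum_comp (Equiv.mulRight δ) (fun γ => Φ γ x u a)
    · rfl
  linarith

open Classical in
/-- number (0,1,2) of transported routes between `x` and `u` using the edge `e` -/
noncomputable def ecount {G : SimpleGraph V} (R : ∀ x u : V, Bool → G.Walk x u)
    (γ : G ≃g G) (x u : V) (e : Sym2 V) : ℝ :=
  (if e ∈ (tr γ R x u false).edges then 1 else 0) + (if e ∈ (tr γ R x u true).edges then 1 else 0)

open Classical in
lemma ecount_inv {G : SimpleGraph V} (R : ∀ x u : V, Bool → G.Walk x u)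
    (γ δ : G ≃g G) (x u : V) (e : Sym2 V) :
    ecount R γ (δ x) (δ u) (Sym2.map δ e) = ecount R (γ * δ) x u e := by
  unfold ecount
  have h : ∀ b, Sym2.map δ e ∈ (tr γ R (δ x) (δ u) b).edges ↔ e ∈ (tr (γ * δ) R x u b).edges := by
    intro b
    rw [mem_edges_tr, mem_edges_tr, Sym2.map_map]
    rfl
  congr 1 <;> exact if_congr (h _) rfl rfl

open Classical in
lemma ecount_symm {G : SimpleGraph V} (R : ∀ x u : V, Bool → G.Walk x u)
    (hR : ∀ x u b, R u x b = (R x u b).reverse)
    (γ : G ≃g G) (x u : V) (e : Sym2 V) :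
    ecount R γ u x e = ecount R γ x u e := by
  unfold ecount
  have h : ∀ b, e ∈ (tr γ R u x b).edges ↔ e ∈ (tr γ R x u b).edges := by
    intro b
    rw [sym_tr γ R hR x u, SimpleGraph.Walk.edges_reverse, List.mem_reverse]
  congr 1 <;> exact if_congr (h _) rfl rfl

end Pool.Agent.UPS
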