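import Pool.Agent.Lib.MP_876e19_co.GswScalar

/-!
# The Gram-Schmidt walk discrepancy lemma (helper96)
-/

set_option autoImplicit false

namespace Pool.Agent.UPS

open Finset Real

section geometry

variable {E : Type*} [NormedAddCommGroup E] [InnerProductSpace ℝ E] [FiniteDimensional ℝ E]

/-- squared norm of the projection -/
noncomputable def pn (S : Submodule ℝ E) (θ : E) : ℝ := ‖S.starProjection θ‖ ^ 2

lemma pn_nonneg (S : Submodule ℝ E) (θ : E) : 0 ≤ pn S θ := sq_nonneg _

lemma pn_le (S : Submodule ℝ E) (θ : E) : pn S θ ≤ ‖θ‖ ^ 2 := by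
  unfold pn
  have := S.norm_starProjection_apply_le θ
  gcongr

lemma inner_proj (S : Submodule ℝ E) (θ y : E) (hy : y ∈ S) :
    (inner ℝ (S.starProjection θ) y) = (inner ℝ θ y) := by
  have := S.starProjection_inner_eq_zero θ y hy
  rw [inner_sub_left] at this
  linarith

/-- if `z ∈ S`, `z ⟂ T ≤ S`, then `‖P_T θ‖² ‖z‖² + <θ,z>² ≤ ‖P_S θ‖² ‖z‖²` -/
lemma proj_gain {S T : Submodule ℝ E} (hTS : T ≤ S) {z : E} (hz : z ∈ S)
    (hzT : ∀ t ∈ T, (inner ℝ t z) = 0) (θ : E) :
    pn T θ * ‖z‖ ^ 2 + (inner ℝ θ z) ^ 2 ≤ pn S θ * ‖z‖ ^ 2 := by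
  unfold pn
  set p := T.starProjection θ with hp
  have hpT : p ∈ T := T.starProjection_apply_mem θ
  -- y = ‖z‖² p + (inner ℝ θ z) z
  set y : E := (‖z‖ ^ 2) • p + (inner ℝ θ z) • z with hy
  have hyS : y ∈ S := S.add_mem (S.smul_mem _ (hTS hpT)) (S.smul_mem _ hz)
  have h1 : (inner ℝ θ p) = ‖p‖ ^ 2 := by
    rw [← inner_proj T θ p hpT, ← hp, real_inner_self_eq_norm_sq]
  have hpz : (inner ℝ p z) = 0 := hzT p hpT
  have h2 : (inner ℝ θ y) = ‖z‖ ^ 2 * ‖p‖ ^ 2 + (inner ℝ θ z) ^ 2 := by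
    rw [hy, inner_add_right, inner_smul_right, inner_smul_right, h1]; ring
  have h3 : ‖y‖ ^ 2 = ‖z‖ ^ 2 * (‖z‖ ^ 2 * ‖p‖ ^ 2 + (inner ℝ θ z) ^ 2) := by
    rw [← real_inner_self_eq_norm_sq, hy]
    simp only [inner_add_left, inner_add_right, inner_smul_left, inner_smul_right, hpz,
      real_inner_comm p z]
    rw [real_inner_self_eq_norm_sq, real_inner_self_eq_norm_sq]
    simp
    ring
  have h4 : (inner ℝ θ y) ≤ ‖S.starProjection θ‖ * ‖y‖ := by
    rw [← inner_proj S θ y hyS]
    exact real_inner_le_norm _ _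
  set Q := ‖z‖ ^ 2 * ‖p‖ ^ 2 + (inner ℝ θ z) ^ 2 with hQ
  have hQ0 : 0 ≤ Q := by positivity
  rcases hQ0.eq_or_lt with h | h
  · have : ‖p‖ ^ 2 * ‖z‖ ^ 2 + (inner ℝ θ z) ^ 2 = 0 := by rw [h]; rw [hQ]; ring
    rw [this]; positivity
  · have h5 : Q ^ 2 ≤ ‖S.starProjection θ‖ ^ 2 * (‖z‖ ^ 2 * Q) := by
      rw [h2] at h4
      calc Q ^ 2 ≤ (‖S.starProjection θ‖ * ‖y‖) ^ 2 := by gcongr
        _ = _ := by rw [mul_pow, h3]
    have h6 : Q ≤ ‖S.starProjection θ‖ ^ 2 * ‖z‖ ^ 2 := by
      have : Q * Q ≤ (‖S.starProjection θ‖ ^ 2 * ‖z‖ ^ 2) * Q := by nlinarith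
      exact le_of_mul_le_mul_right this h
    calc ‖p‖ ^ 2 * ‖z‖ ^ 2 + (inner ℝ θ z) ^ 2 = Q := by rw [hQ]; ring
      _ ≤ _ := h6

lemma pn_mono {S T : Submodule ℝ E} (hTS : T ≤ S) (θ : E) : pn T θ ≤ pn S θ := by
  unfold pn
  set p := T.starProjection θ with hp
  have hpT : p ∈ T := T.starProjection_apply_mem θ
  have h1 : (inner ℝ θ p) = ‖p‖ ^ 2 := by
    rw [← inner_proj T θ p hpT, ← hp, real_inner_self_eq_norm_sq]
  have h4 : (inner ℝ θ p) ≤ ‖S.starProjection θ‖ * ‖p‖ := by
    rw [← inner_proj S θ p (hTS hpT)]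
    exact real_inner_le_norm _ _
  have h5 : ‖p‖ ≤ ‖S.starProjection θ‖ := by
    rcases (norm_nonneg p).eq_or_lt with h | h
    · rw [← h]; positivity
    · rw [h1, pow_two] at h4
      exact le_of_mul_le_mul_right h4 h
  gcongr

variable {ι : Type*} [DecidableEq ι] (u : ι → E)

/-- span of the vectors with index in `A` -/
noncomputable def sp (A : Finset ι) : Submodule ℝ E := Submodule.span ℝ (u '' A)

lemma sp_mono {A B : Finset ι} (h : A ⊆ B) : sp u A ≤ sp u B :=
  Submodule.span_mono (Set.image_mono (by exact_mod_cast h))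

lemma mem_sp {A : Finset ι} {i : ι} (h : i ∈ A) : u i ∈ sp u A :=
  Submodule.subset_span ⟨i, h, rfl⟩

/-- component of `u p` orthogonal to the other alive vectors -/
noncomputable def wv (A : Finset ι) (p : ι) : E := u p - (sp u (A.erase p)).starProjection (u p)

lemma wv_orth (A : Finset ι) (p : ι) {t : E} (ht : t ∈ sp u (A.erase p)) : (inner ℝ t (wv u A p)) = 0 := by
  rw [real_inner_comm]
  exact (sp u (A.erase p)).starProjection_inner_eq_zero (u p) t ht

lemma wv_mem {A : Finset ι} {p : ι} (hp : p ∈ A) : wv u A p ∈ sp u A :=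
  (sp u A).sub_mem (mem_sp u hp)
    (sp_mono u (A.erase_subset p) ((sp u (A.erase p)).starProjection_apply_mem _))

lemma norm_wv_sq_le (A : Finset ι) (p : ι) (hu : ‖u p‖ ≤ 1) : ‖wv u A p‖ ^ 2 ≤ 1 := by
  have h0 : (inner ℝ ((sp u (A.erase p)).starProjection (u p)) (wv u A p)) = 0 :=
    wv_orth u A p ((sp u (A.erase p)).starProjection_apply_mem _)
  have h1 : (inner ℝ (u p) (wv u A p)) = ‖wv u A p‖ ^ 2 := by
    have : u p = wv u A p + (sp u (A.erase p)).starProjection (u p) := by
      unfold wv; abel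
    rw [← real_inner_self_eq_norm_sq]
    nth_rewrite 1 [this]
    rw [inner_add_left, h0, add_zero]
  have h2 : (inner ℝ (u p) (wv u A p)) ≤ ‖u p‖ * ‖wv u A p‖ := real_inner_le_norm _ _
  have h3 : ‖wv u A p‖ ^ 2 ≤ ‖wv u A p‖ := by
    rw [← h1]
    calc _ ≤ ‖u p‖ * ‖wv u A p‖ := h2
      _ ≤ 1 * ‖wv u A p‖ := by gcongr
      _ = _ := one_mul _
  have h4 : ‖wv u A p‖ ≤ 1 := by
    by_contra hneg
    push Not at hneg
    nlinarith
  nlinarith [norm_nonneg (wv u A p)]

/-- every element of `sp u A` is in the span of `sp u (A.erase p)` and `wv u A p` -/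
lemma sp_decomp {A : Finset ι} {p : ι} (hp : p ∈ A) :
    sp u A ≤ sp u (A.erase p) ⊔ Submodule.span ℝ {wv u A p} := by
  unfold sp
  rw [Submodule.span_le]
  rintro _ ⟨i, hi, rfl⟩
  by_cases hip : i = p
  · subst hip
    have : u i = (sp u (A.erase i)).starProjection (u i) + wv u A i := by unfold wv; abel
    rw [SetLike.mem_coe, this]
    exact Submodule.add_mem_sup ((sp u (A.erase i)).starProjection_apply_mem _)
      (Submodule.mem_span_singleton_self _)
  · exact Submodule.mem_sup_left (Submodule.subset_span ⟨i, by simp [hip]; exact hi, rfl⟩)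

/-- key comparison of potentials when the alive set shrinks and the pivot stays -/
lemma pot_keep {A A' : Finset ι} {p : ι} (hp : p ∈ A') (hA : A' ⊆ A) (hu : ‖u p‖ ≤ 1)
    {x : ℝ} (hx : |x| ≤ 1) (θ : E) :
    exp (2 * pn (sp u A') θ - 2 * (inner ℝ θ (wv u A' p)) ^ 2) * gG x (inner ℝ θ (wv u A' p)) ≤
      exp (2 * pn (sp u A) θ - 2 * (inner ℝ θ (wv u A p)) ^ 2) * gG x (inner ℝ θ (wv u A p)) := by
  have hpA : p ∈ A := hA hp
  set w := wv u A p with hw
  set w' := wv u A' p with hw'
  set c := (inner ℝ θ w) with hc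
  set c' := (inner ℝ θ w') with hc'
  set F := pn (sp u A) θ - pn (sp u A') θ with hF
  have hF0 : 0 ≤ F := by have := pn_mono (sp_mono u hA) θ; linarith
  have hsub : A'.erase p ⊆ A.erase p := Finset.erase_subset_erase p hA
  -- (inner ℝ w w') = ‖w‖²
  have hdiff : w' - w ∈ sp u (A.erase p) := by
    have : w' - w = (sp u (A.erase p)).starProjection (u p) -
        (sp u (A'.erase p)).starProjection (u p) := by
      rw [hw, hw']; unfold wv; abel
    rw [this]
    exact (sp u (A.erase p)).sub_mem ((sp u (A.erase p)).starProjection_apply_mem _)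
      (sp_mono u hsub ((sp u (A'.erase p)).starProjection_apply_mem _))
  have horth : (inner ℝ (w' - w) w) = 0 := wv_orth u A p hdiff
  have hww : (inner ℝ w' w) = ‖w‖ ^ 2 := by
    rw [inner_sub_left, real_inner_self_eq_norm_sq] at horth
    linarith
  set a := ‖w‖ ^ 2 with ha
  set b := ‖w' - w‖ ^ 2 with hb
  have hab : ‖w'‖ ^ 2 = a + b := by
    have : w' = w + (w' - w) := by abel
    rw [this, norm_add_sq_real, real_inner_comm, horth]; simp [ha, hb]
  have hab1 : a + b ≤ 1 := by rw [← hab]; exact norm_wv_sq_le u A' p hu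
  have ha0 : 0 ≤ a := sq_nonneg _
  have hb0 : 0 ≤ b := sq_nonneg _
  -- reduce to the scalar inequality
  suffices h : gG x c' * exp (2 * (c ^ 2 - c' ^ 2)) ≤ gG x c * exp (2 * F) by
    have e1 : exp (2 * pn (sp u A') θ - 2 * c' ^ 2) =
        exp (2 * pn (sp u A') θ - 2 * c ^ 2) * exp (2 * (c ^ 2 - c' ^ 2)) := by
      rw [← exp_add]; congr 1; ring
    have e2 : exp (2 * pn (sp u A) θ - 2 * c ^ 2) =
        exp (2 * pn (sp u A') θ - 2 * c ^ 2) * exp (2 * F) := by
      rw [← exp_add, hF]; congr 1; ring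
    rw [e1, e2]
    have := mul_le_mul_of_nonneg_left h (exp_pos (2 * pn (sp u A') θ - 2 * c ^ 2)).le
    nlinarith
  rcases ha0.eq_or_lt with ha' | ha'
  · -- w = 0
    have hw0 : w = 0 := by
      have : ‖w‖ = 0 := by
        have h := ha'.symm
        rw [ha] at h
        exact pow_eq_zero_iff (two_ne_zero) |>.1 h
      exact norm_eq_zero.1 this
    have hc0 : c = 0 := by rw [hc, hw0, inner_zero_right]
    rw [hc0]
    have h1 := gG_le hx c'
    have h2 : gG x c' * exp (2 * ((0:ℝ) ^ 2 - c' ^ 2)) ≤ 1 := by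
      calc _ ≤ exp (c' ^ 2) * exp (2 * ((0:ℝ) ^ 2 - c' ^ 2)) := by gcongr
        _ = exp (c' ^ 2 + 2 * ((0:ℝ) ^ 2 - c' ^ 2)) := by rw [exp_add]
        _ ≤ exp 0 := by apply exp_le_exp.2; nlinarith [sq_nonneg c']
        _ = 1 := exp_zero
    have h3 := one_le_gG hx 0
    have h4 : 1 ≤ exp (2 * F) := one_le_exp (by linarith)
    nlinarith
  rcases hb0.eq_or_lt with hb' | hb'
  · have hw0 : w' - w = 0 := by
      have : ‖w' - w‖ = 0 := by
        have h := hb'.symm
        rw [hb] at h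
        exact pow_eq_zero_iff (two_ne_zero) |>.1 h
      exact norm_eq_zero.1 this
    have hc0 : c' = c := by
      rw [hc, hc', sub_eq_zero.1 hw0]
    rw [hc0, sub_self, mul_zero, exp_zero, mul_one]
    have h3 := one_le_gG hx c
    have h4 : 1 ≤ exp (2 * F) := one_le_exp (by linarith)
    nlinarith
  · -- main case: z = (a+b) w - a w'
    apply gG_key hx ha' hb' hab1
    set z : E := (a + b) • w - a • w' with hz
    have hzS : z ∈ sp u A :=
      (sp u A).sub_mem ((sp u A).smul_mem _ (wv_mem u hpA))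
        ((sp u A).smul_mem _ (sp_mono u hA (wv_mem u hp)))
    have hzT : ∀ t ∈ sp u A', (inner ℝ t z) = 0 := by
      intro t ht
      have ht' := sp_decomp u hp ht
      rw [Submodule.mem_sup] at ht'
      obtain ⟨t1, ht1, t2, ht2, rfl⟩ := ht'
      rw [Submodule.mem_span_singleton] at ht2
      obtain ⟨r, rfl⟩ := ht2
      have e1 : (inner ℝ t1 w) = 0 := wv_orth u A p (sp_mono u hsub ht1)
      have e2 : (inner ℝ t1 w') = 0 := wv_orth u A' p ht1
      have e3 : (inner ℝ w' w') = a + b := by rw [real_inner_self_eq_norm_sq, hab]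
      rw [hz, inner_add_left, inner_sub_right, inner_sub_right, inner_smul_right, inner_smul_right,
        inner_smul_right, inner_smul_right, e1, e2, ← hw', inner_smul_left, inner_smul_left, hww,
        e3]
      simp
      ring
    have hg := proj_gain (sp_mono u hA) hzS hzT θ
    have hzn : ‖z‖ ^ 2 = a * b * (a + b) := by
      rw [← real_inner_self_eq_norm_sq, hz, inner_sub_left, inner_sub_right, inner_sub_right]
      simp only [inner_smul_left, inner_smul_right]
      rw [real_inner_self_eq_norm_sq, real_inner_self_eq_norm_sq, hab, hww, real_inner_comm, hww,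
        ← ha]
      simp
      ring
    have hin : (inner ℝ θ z) = b * c - a * (c' - c) := by
      rw [hz, inner_sub_right, inner_smul_right, inner_smul_right, ← hc, ← hc']; ring
    rw [hin, hzn] at hg
    rw [hF]
    linarith

/-- comparison of potentials when the pivot is frozen -/
lemma pot_drop {A A' : Finset ι} {p : ι} (hpA : p ∈ A) (hA : A' ⊆ A.erase p) (hu : ‖u p‖ ≤ 1)
    (θ : E) :
    2 * pn (sp u A') θ ≤ 2 * pn (sp u A) θ - 2 * (inner ℝ θ (wv u A p)) ^ 2 := by
  have hAA : A' ⊆ A := hA.trans (A.erase_subset p)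
  have hg := proj_gain (sp_mono u hAA) (wv_mem u hpA)
    (fun t ht => wv_orth u A p (sp_mono u hA ht)) θ
  have h1 := norm_wv_sq_le u A p hu
  have h2 := pn_mono (sp_mono u hAA) θ
  have h3 : 0 ≤ ‖wv u A p‖ ^ 2 := sq_nonneg _
  have h4 : (inner ℝ θ (wv u A p)) ^ 2 ≤ (pn (sp u A) θ - pn (sp u A') θ) * ‖wv u A p‖ ^ 2 := by linarith
  have h5 : (pn (sp u A) θ - pn (sp u A') θ) * ‖wv u A p‖ ^ 2 ≤
      (pn (sp u A) θ - pn (sp u A') θ) * 1 := by
    apply mul_le_mul_of_nonneg_left h1; linarith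
  linarith

/-- coefficients of the direction -/
lemma exists_dir {A : Finset ι} {p : ι} (hp : p ∈ A) :
    ∃ z : ι → ℝ, z p = 1 ∧ ∑ i ∈ A, z i • u i = wv u A p := by
  have h : (sp u (A.erase p)).starProjection (u p) ∈ sp u (A.erase p) :=
    (sp u (A.erase p)).starProjection_apply_mem _
  unfold sp at h
  rw [Submodule.mem_span_image_finset_iff_exists_fun] at h
  obtain ⟨c, hc⟩ := h
  refine ⟨fun i => if h : i ∈ A.erase p then - c ⟨i, h⟩ else 1, by simp, ?_⟩
  rw [← Finset.add_sum_erase A _ hp]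
  have h1 : ∑ i ∈ A.erase p, (if h : i ∈ A.erase p then - c ⟨i, h⟩ else 1) • u i =
      - ∑ i : (A.erase p), c i • u i := by
    rw [← Finset.sum_attach, ← Finset.sum_neg_distrib]
    apply Finset.sum_congr rfl
    intro i _
    rw [dif_pos i.2, neg_smul]
  rw [h1, hc]
  have h2 : (if h : p ∈ A.erase p then - c ⟨p, h⟩ else (1:ℝ)) = 1 := dif_neg (by simp)
  change (if h : p ∈ A.erase p then - c ⟨p, h⟩ else (1:ℝ)) • u p + _ = _
  rw [h2, one_smul]
  unfold wv sp
  rw [sub_eq_add_neg]

end geometry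

/-- maximal step -/
lemma exists_step {ι : Type*} (A : Finset ι) (x z : ι → ℝ) (hx : ∀ i ∈ A, |x i| < 1)
    (p : ι) (hp : p ∈ A) (hz : z p ≠ 0) :
    ∃ δ : ℝ, 0 < δ ∧ (∀ i ∈ A, |x i + δ * z i| ≤ 1) ∧ ∃ i ∈ A, |x i + δ * z i| = 1 := by
  classical
  set B := A.filter (fun i => z i ≠ 0) with hB
  have hBne : B.Nonempty := ⟨p, by simp [hB, hp, hz]⟩
  set r : ι → ℝ := fun i => if 0 < z i then (1 - x i) / z i else (1 + x i) / (- z i) with hr
  obtain ⟨i0, hi0, hmin⟩ := Finset.exists_min_image B r hBne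
  have hrpos : ∀ i ∈ B, 0 < r i := by
    intro i hi
    simp only [hB, Finset.mem_filter] at hi
    have hxi := abs_lt.1 (hx i hi.1)
    simp only [hr]
    split_ifs with h
    · apply div_pos _ h; linarith
    · have : 0 < - z i := by
        rcases lt_or_gt_of_ne hi.2 with h' | h'
        · linarith
        · exact absurd h' h
      apply div_pos _ this; linarith
  refine ⟨r i0, hrpos i0 hi0, ?_, i0, ?_, ?_⟩
  · intro i hi
    have hxi := abs_lt.1 (hx i hi)
    by_cases hzi : z i = 0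
    · rw [hzi, mul_zero, add_zero]; exact (hx i hi).le
    · have hiB : i ∈ B := by simp [hB, hi, hzi]
      have hle := hmin i hiB
      have hpos := hrpos i0 hi0
      rw [abs_le]
      by_cases hz0 : 0 < z i
      · have : r i = (1 - x i) / z i := by simp [hr, hz0]
        rw [this, le_div_iff₀ hz0] at hle
        constructor
        · have := mul_pos hpos hz0; linarith
        · linarith
      · have hneg : 0 < - z i := by
          rcases lt_or_gt_of_ne hzi with h' | h'
          · linarith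
          · exact absurd h' hz0
        have : r i = (1 + x i) / (- z i) := by simp [hr, hz0]
        rw [this, le_div_iff₀ hneg] at hle
        constructor
        · linarith
        · have := mul_pos hpos hneg; linarith
  · simp only [hB, Finset.mem_filter] at hi0
    exact hi0.1
  · simp only [hB, Finset.mem_filter] at hi0
    by_cases hz0 : 0 < z i0
    · have : r i0 = (1 - x i0) / z i0 := by simp [hr, hz0]
      rw [this, div_mul_cancel₀ _ hz0.ne']
      rw [show x i0 + (1 - x i0) = 1 by ring, abs_one]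
    · have hneg : 0 < - z i0 := by
        rcases lt_or_gt_of_ne hi0.2 with h' | h'
        · linarith
        · exact absurd h' hz0
      have h1 : r i0 = (1 + x i0) / (- z i0) := by simp [hr, hz0]
      have h2 : r i0 * z i0 = - (1 + x i0) := by
        rw [h1, div_neg, neg_mul, div_mul_cancel₀ _ hi0.2]
      rw [h2, show x i0 + -(1 + x i0) = -1 by ring, abs_neg, abs_one]

section main

variable {E : Type*} [NormedAddCommGroup E] [InnerProductSpace ℝ E] [FiniteDimensional ℝ E]
variable {ι Θ : Type*} [DecidableEq ι] [Fintype Θ]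

lemma gG_one (c : ℝ) : gG 1 c = 1 := by
  unfold gG
  rw [one_mul, one_mul, cosh_add_sinh, ← exp_add]; simp

lemma gG_neg_one (c : ℝ) : gG (-1) c = 1 := by
  have := gG_neg 1 (-c)
  rw [neg_neg] at this
  rw [this, gG_one]

/-- one step of the walk -/
lemma gsw_step (u : ι → E) (θ : Θ → E) (A : Finset ι) (p : ι) (x : ι → ℝ) (s : Θ → ℝ)
    (hp : p ∈ A) (hx : ∀ i ∈ A, |x i| < 1) :
    ∃ (y : ι → ℝ) (κ : ℝ), (∀ i ∈ A, |y i| ≤ 1) ∧ (∃ i ∈ A, |y i| = 1) ∧
      (∀ i, i ∉ A → y i = x i) ∧
      (∑ i ∈ A, (y i - x i) • u i = κ • wv u A p) ∧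
      ∑ t, exp (s t + κ * inner ℝ (θ t) (wv u A p)) *
          (exp (2 * pn (sp u A) (θ t) - 2 * (inner ℝ (θ t) (wv u A p)) ^ 2) *
             gG (y p) (inner ℝ (θ t) (wv u A p))) ≤
        ∑ t, exp (s t) * (exp (2 * pn (sp u A) (θ t) - 2 * (inner ℝ (θ t) (wv u A p)) ^ 2) *
             gG (x p) (inner ℝ (θ t) (wv u A p))) := by
  obtain ⟨z, hzp, hz⟩ := exists_dir u hp
  set c : Θ → ℝ := fun t => inner ℝ (θ t) (wv u A p) with hc
  set K : Θ → ℝ := fun t => exp (s t) * exp (2 * pn (sp u A) (θ t) - 2 * (c t) ^ 2) *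
    exp (-(x p * c t)) with hK
  -- general computation for a step κ
  have key : ∀ κ : ℝ, ∑ t, exp (s t + κ * c t) *
      (exp (2 * pn (sp u A) (θ t) - 2 * (c t) ^ 2) * gG (x p + κ) (c t)) =
      ∑ t, exp (s t) * (exp (2 * pn (sp u A) (θ t) - 2 * (c t) ^ 2) * gG (x p) (c t)) +
        κ * ∑ t, K t * sinh (c t) := by
    intro κ
    rw [Finset.mul_sum, ← Finset.sum_add_distrib]
    apply Finset.sum_congr rfl
    intro t _
    have h1 : exp (s t + κ * c t) * exp (-((x p + κ) * c t)) = exp (s t) * exp (-(x p * c t)) := by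
      rw [← exp_add, ← exp_add]; congr 1; ring
    unfold gG
    calc exp (s t + κ * c t) * (exp (2 * pn (sp u A) (θ t) - 2 * (c t) ^ 2) *
          (exp (-((x p + κ) * c t)) * (cosh (c t) + (x p + κ) * sinh (c t))))
        = (exp (s t + κ * c t) * exp (-((x p + κ) * c t))) *
          exp (2 * pn (sp u A) (θ t) - 2 * (c t) ^ 2) *
            (cosh (c t) + (x p + κ) * sinh (c t)) := by ring
      _ = (exp (s t) * exp (-(x p * c t))) * exp (2 * pn (sp u A) (θ t) - 2 * (c t) ^ 2) *
            (cosh (c t) + (x p + κ) * sinh (c t)) := by rw [h1]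
      _ = _ := by rw [hK]; ring
  -- a step in direction σ z
  have main : ∀ (z' : ι → ℝ) (σ : ℝ), (∀ i, z' i = σ * z i) → σ ≠ 0 →
      (σ * ∑ t, K t * sinh (c t) ≤ 0) →
      ∃ (y : ι → ℝ) (κ : ℝ), (∀ i ∈ A, |y i| ≤ 1) ∧ (∃ i ∈ A, |y i| = 1) ∧
      (∀ i, i ∉ A → y i = x i) ∧
      (∑ i ∈ A, (y i - x i) • u i = κ • wv u A p) ∧
      ∑ t, exp (s t + κ * c t) *
          (exp (2 * pn (sp u A) (θ t) - 2 * (c t) ^ 2) *
             gG (y p) (c t)) ≤
        ∑ t, exp (s t) * (exp (2 * pn (sp u A) (θ t) - 2 * (c t) ^ 2) *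
             gG (x p) (c t)) := by
    intro z' σ hz' hσ hle
    obtain ⟨δ, hδ, h1, i0, hi0, h2⟩ := exists_step A x z' hx p hp (by
      rw [hz', hzp, mul_one]; exact hσ)
    refine ⟨fun i => if i ∈ A then x i + δ * z' i else x i, δ * σ, ?_, ⟨i0, hi0, ?_⟩, ?_, ?_, ?_⟩
    · intro i hi; simp only [if_pos hi]; exact h1 i hi
    · simp only [if_pos hi0]; exact h2
    · intro i hi; simp only [if_neg hi]
    · rw [← hz, Finset.smul_sum]
      apply Finset.sum_congr rfl
      intro i hi
      beta_reduce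
      rw [if_pos hi, smul_smul, hz']
      congr 1
      ring
    · have e : (if p ∈ A then x p + δ * z' p else x p) = x p + δ * σ := by
        rw [if_pos hp, hz', hzp]; ring
      beta_reduce
      rw [e, key (δ * σ)]
      nlinarith
  rcases le_total (∑ t, K t * sinh (c t)) 0 with h | h
  · exact main z 1 (fun i => (one_mul _).symm) one_ne_zero (by linarith)
  · exact main (fun i => -1 * z i) (-1) (fun i => rfl) (by norm_num) (by linarith)

lemma gsw_ind (u : ι → E) (hu : ∀ i, ‖u i‖ ≤ 1) (θ : Θ → E) (m : ℕ) :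
    (∀ (A : Finset ι) (x : ι → ℝ) (s : Θ → ℝ), A.card ≤ m → (∀ i ∈ A, |x i| < 1) →
      ∃ x' : ι → ℝ, (∀ i ∈ A, x' i = 1 ∨ x' i = -1) ∧ (∀ i, i ∉ A → x' i = x i) ∧
        ∑ t, exp (s t + inner ℝ (θ t) (∑ i ∈ A, (x' i - x i) • u i)) ≤
          ∑ t, exp (s t + 2 * pn (sp u A) (θ t))) ∧
    (∀ (A : Finset ι) (p : ι) (x : ι → ℝ) (s : Θ → ℝ), A.card ≤ m → p ∈ A →
      (∀ i ∈ A, |x i| < 1) →
      ∃ x' : ι → ℝ, (∀ i ∈ A, x' i = 1 ∨ x' i = -1) ∧ (∀ i, i ∉ A → x' i = x i) ∧
        ∑ t, exp (s t + inner ℝ (θ t) (∑ i ∈ A, (x' i - x i) • u i)) ≤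
          ∑ t, exp (s t) * (exp (2 * pn (sp u A) (θ t) -
              2 * (inner ℝ (θ t) (wv u A p)) ^ 2) *
             gG (x p) (inner ℝ (θ t) (wv u A p)))) := by
  induction m with
  | zero =>
    constructor
    · intro A x s hA _
      have : A = ∅ := Finset.card_eq_zero.1 (Nat.le_zero.1 hA)
      subst this
      refine ⟨x, by simp, fun i _ => rfl, ?_⟩
      apply Finset.sum_le_sum
      intro t _
      apply exp_le_exp.2
      have := pn_nonneg (sp u (∅ : Finset ι)) (θ t)
      simp only [Finset.sum_empty, inner_zero_right]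
      linarith
    · intro A p x s hA hp _
      have : A = ∅ := Finset.card_eq_zero.1 (Nat.le_zero.1 hA)
      subst this
      exact absurd hp (Finset.notMem_empty p)
  | succ m ih =>
    obtain ⟨ih0, ih1⟩ := ih
    have claim1 : ∀ (A : Finset ι) (p : ι) (x : ι → ℝ) (s : Θ → ℝ), A.card ≤ m + 1 → p ∈ A →
      (∀ i ∈ A, |x i| < 1) →
      ∃ x' : ι → ℝ, (∀ i ∈ A, x' i = 1 ∨ x' i = -1) ∧ (∀ i, i ∉ A → x' i = x i) ∧
        ∑ t, exp (s t + inner ℝ (θ t) (∑ i ∈ A, (x' i - x i) • u i)) ≤
          ∑ t, exp (s t) * (exp (2 * pn (sp u A) (θ t) -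
              2 * (inner ℝ (θ t) (wv u A p)) ^ 2) *
             gG (x p) (inner ℝ (θ t) (wv u A p))) := by
      intro A p x s hA hp hx
      obtain ⟨y, κ, hy1, ⟨i0, hi0, hy2⟩, hy3, hy4, hy5⟩ := gsw_step u θ A p x s hp hx
      set A' := A.filter (fun i => |y i| < 1) with hA'
      have hsub : A' ⊆ A := Finset.filter_subset _ _
      have hcard : A'.card ≤ m := by
        have h1 : A' ⊂ A := by
          refine ⟨hsub, fun h => ?_⟩
          have := h hi0
          rw [hA', Finset.mem_filter] at this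
          exact absurd this.2 (by rw [hy2]; exact lt_irrefl _)
        have := Finset.card_lt_card h1
        omega
      have hA'1 : ∀ i ∈ A', |y i| < 1 := fun i hi => (Finset.mem_filter.1 hi).2
      -- conclusion from a solution on A'
      have concl : ∀ x' : ι → ℝ, (∀ i ∈ A', x' i = 1 ∨ x' i = -1) → (∀ i, i ∉ A' → x' i = y i) →
          (∀ i ∈ A, x' i = 1 ∨ x' i = -1) ∧ (∀ i, i ∉ A → x' i = x i) ∧
          (∀ t, s t + inner ℝ (θ t) (∑ i ∈ A, (x' i - x i) • u i) =
            (s t + κ * inner ℝ (θ t) (wv u A p)) +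
              inner ℝ (θ t) (∑ i ∈ A', (x' i - y i) • u i)) := by
        intro x' h1 h2
        refine ⟨?_, ?_, ?_⟩
        · intro i hi
          by_cases h : i ∈ A'
          · exact h1 i h
          · rw [h2 i h]
            have h3 : |y i| = 1 := by
              apply le_antisymm (hy1 i hi)
              by_contra hneg
              push Not at hneg
              exact h (Finset.mem_filter.2 ⟨hi, hneg⟩)
            exact eq_or_eq_neg_of_abs_eq h3
        · intro i hi
          rw [h2 i (fun h => hi (hsub h)), hy3 i hi]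
        · intro t
          have e1 : ∑ i ∈ A, (x' i - x i) • u i =
              ∑ i ∈ A', (x' i - y i) • u i + κ • wv u A p := by
            rw [← hy4]
            have e2 : ∑ i ∈ A', (x' i - y i) • u i = ∑ i ∈ A, (x' i - y i) • u i := by
              apply Finset.sum_subset hsub
              intro i _ hi
              rw [h2 i hi, sub_self, zero_smul]
            rw [e2, ← Finset.sum_add_distrib]
            apply Finset.sum_congr rfl
            intro i _
            rw [← add_smul]; congr 1; ring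
          rw [e1, inner_add_right, inner_smul_right]; ring
      by_cases hpA : p ∈ A'
      · obtain ⟨x', h1, h2, h3⟩ := ih1 A' p y (fun t => s t + κ * inner ℝ (θ t) (wv u A p))
          hcard hpA hA'1
        obtain ⟨c1, c2, c3⟩ := concl x' h1 h2
        refine ⟨x', c1, c2, ?_⟩
        simp_rw [c3]
        refine h3.trans (le_trans ?_ hy5)
        apply Finset.sum_le_sum
        intro t _
        apply mul_le_mul_of_nonneg_left _ (exp_pos _).le
        exact pot_keep u hpA hsub (hu p) (hy1 p hp) (θ t)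
      · obtain ⟨x', h1, h2, h3⟩ := ih0 A' y (fun t => s t + κ * inner ℝ (θ t) (wv u A p))
          hcard hA'1
        obtain ⟨c1, c2, c3⟩ := concl x' h1 h2
        refine ⟨x', c1, c2, ?_⟩
        simp_rw [c3]
        refine h3.trans (le_trans ?_ hy5)
        have hyp : |y p| = 1 := by
          apply le_antisymm (hy1 p hp)
          by_contra hneg
          push Not at hneg
          exact hpA (Finset.mem_filter.2 ⟨hp, hneg⟩)
        have hg : ∀ c, gG (y p) c = 1 := by
          intro c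
          rcases eq_or_eq_neg_of_abs_eq hyp with h | h
          · rw [h, gG_one]
          · rw [h, gG_neg_one]
        apply Finset.sum_le_sum
        intro t _
        rw [hg, mul_one, ← exp_add]
        apply exp_le_exp.2
        have hsub' : A' ⊆ A.erase p := by
          intro i hi
          rw [Finset.mem_erase]
          exact ⟨fun h => hpA (h ▸ hi), hsub hi⟩
        have := pot_drop u hp hsub' (hu p) (θ t)
        linarith
    refine ⟨?_, claim1⟩
    intro A x s hA hx
    rcases A.eq_empty_or_nonempty with h | ⟨p, hp⟩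
    · subst h
      refine ⟨x, by simp, fun i _ => rfl, ?_⟩
      apply Finset.sum_le_sum
      intro t _
      apply exp_le_exp.2
      have := pn_nonneg (sp u (∅ : Finset ι)) (θ t)
      simp only [Finset.sum_empty, inner_zero_right]
      linarith
    · obtain ⟨x', h1, h2, h3⟩ := claim1 A p x s hA hp hx
      refine ⟨x', h1, h2, h3.trans ?_⟩
      apply Finset.sum_le_sum
      intro t _
      rw [exp_add]
      apply mul_le_mul_of_nonneg_left _ (exp_pos _).le
      have h4 := gG_le (hx p hp).le (inner ℝ (θ t) (wv u A p))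
      calc exp (2 * pn (sp u A) (θ t) - 2 * (inner ℝ (θ t) (wv u A p)) ^ 2) *
            gG (x p) (inner ℝ (θ t) (wv u A p))
          ≤ exp (2 * pn (sp u A) (θ t) - 2 * (inner ℝ (θ t) (wv u A p)) ^ 2) *
            exp ((inner ℝ (θ t) (wv u A p)) ^ 2) := by gcongr
        _ = exp (2 * pn (sp u A) (θ t) - 2 * (inner ℝ (θ t) (wv u A p)) ^ 2 +
              (inner ℝ (θ t) (wv u A p)) ^ 2) := by rw [exp_add]
        _ ≤ exp (2 * pn (sp u A) (θ t)) := by
            apply exp_le_exp.2
            nlinarith [sq_nonneg (inner ℝ (θ t) (wv u A p))]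

end main

/-- **Gram-Schmidt walk** (existence form): a fractional colouring can be rounded with
subgaussian discrepancy in all given directions simultaneously. -/
theorem gsw {E : Type*} [NormedAddCommGroup E] [InnerProductSpace ℝ E] [FiniteDimensional ℝ E]
    {ι Θ : Type*} [Fintype ι] [Fintype Θ] (u : ι → E) (hu : ∀ i, ‖u i‖ ≤ 1) (θ : Θ → E)
    (x₀ : ι → ℝ) (hx₀ : ∀ i, |x₀ i| ≤ 1) :
    ∃ x : ι → ℝ, (∀ i, x i = 1 ∨ x i = -1) ∧
      ∑ t, Real.exp (inner ℝ (θ t) (∑ i, (x i - x₀ i) • u i)) ≤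
        ∑ t, Real.exp (2 * ‖θ t‖ ^ 2) := by
  classical
  set A : Finset ι := Finset.univ.filter (fun i => |x₀ i| < 1) with hA
  obtain ⟨x, h1, h2, h3⟩ := (gsw_ind u hu θ A.card).1 A x₀ (fun _ => 0) le_rfl
    (fun i hi => (Finset.mem_filter.1 hi).2)
  refine ⟨x, ?_, ?_⟩
  · intro i
    by_cases hi : i ∈ A
    · exact h1 i hi
    · rw [h2 i hi]
      have h3 : |x₀ i| = 1 := by
        apply le_antisymm (hx₀ i)
        by_contra hneg
        push Not at hneg
        exact hi (Finset.mem_filter.2 ⟨Finset.mem_univ i, hneg⟩)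
      exact eq_or_eq_neg_of_abs_eq h3
  · have e : ∑ i, (x i - x₀ i) • u i = ∑ i ∈ A, (x i - x₀ i) • u i := by
      symm
      apply Finset.sum_subset (Finset.subset_univ A)
      intro i _ hi
      rw [h2 i hi, sub_self, zero_smul]
    rw [e]
    simp only [zero_add] at h3
    refine h3.trans ?_
    apply Finset.sum_le_sum
    intro t _
    apply exp_le_exp.2
    have := pn_le (sp u A) (θ t)
    linarith

end Pool.Agent.UPS
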