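import Mathlib

/-!
# Scalar inequalities for the Gram-Schmidt walk (helper96)
-/

set_option autoImplicit false

namespace Pool.Agent.UPS

open Real

/-- `gG x c = E exp (c Y)` with `Y = 1 - x` w.p. `(1+x)/2` and `Y = -1-x` w.p. `(1-x)/2` -/
noncomputable def gG (x c : ℝ) : ℝ := exp (-(x * c)) * (cosh c + x * sinh c)

lemma gG_neg (x c : ℝ) : gG (-x) (-c) = gG x c := by
  unfold gG
  rw [cosh_neg, sinh_neg]
  ring_nf

lemma gG_eq (x c : ℝ) :
    gG x c = (1 + x) / 2 * exp (c * (1 - x)) + (1 - x) / 2 * exp (-(c * (1 + x))) := by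
  unfold gG
  rw [cosh_eq, sinh_eq]
  have h1 : exp (c * (1 - x)) = exp (-(x * c)) * exp c := by
    rw [← exp_add]; congr 1; ring
  have h2 : exp (-(c * (1 + x))) = exp (-(x * c)) * exp (-c) := by
    rw [← exp_add]; congr 1; ring
  rw [h1, h2]; ring

lemma one_le_gG {x : ℝ} (hx : |x| ≤ 1) (c : ℝ) : 1 ≤ gG x c := by
  rw [gG_eq]
  have h1 := add_one_le_exp (c * (1 - x))
  have h2 := add_one_le_exp (-(c * (1 + x)))
  obtain ⟨ha, hb⟩ := abs_le.1 hx
  have h3 : 0 ≤ (1 + x) / 2 := by linarith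
  have h4 : 0 ≤ (1 - x) / 2 := by linarith
  nlinarith [mul_le_mul_of_nonneg_left h1 h3, mul_le_mul_of_nonneg_left h2 h4]

lemma ch_pos {x : ℝ} (hx : |x| ≤ 1) (c : ℝ) : 0 < cosh c + x * sinh c := by
  have h := one_le_gG hx c
  unfold gG at h
  by_contra hneg
  push Not at hneg
  have := mul_nonpos_of_nonneg_of_nonpos (exp_pos (-(x * c))).le hneg
  linarith

lemma gG_le {x : ℝ} (hx : |x| ≤ 1) (c : ℝ) : gG x c ≤ exp (c ^ 2) := by
  have h1 := one_le_gG hx (-c)
  have h2 := one_le_gG hx c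
  have h3 : gG x c * gG x (-c) = cosh c ^ 2 - x ^ 2 * sinh c ^ 2 := by
    unfold gG
    rw [cosh_neg, sinh_neg]
    have : exp (-(x * c)) * exp (-(x * -c)) = 1 := by
      rw [← exp_add]; simp
    calc _ = (exp (-(x * c)) * exp (-(x * -c))) *
          ((cosh c + x * sinh c) * (cosh c - x * sinh c)) := by ring
      _ = _ := by rw [this]; ring
  have h4 : gG x c ≤ gG x c * gG x (-c) := by nlinarith
  have h5 : cosh c ^ 2 ≤ exp (c ^ 2) := by
    have := cosh_le_exp_half_sq c
    calc cosh c ^ 2 ≤ (exp (c ^ 2 / 2)) ^ 2 := by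
          gcongr
      _ = exp (c ^ 2) := by rw [← exp_nat_mul]; congr 1; push_cast; ring
  have h6 : 0 ≤ x ^ 2 * sinh c ^ 2 := by positivity
  linarith

/-- the tilted parameter -/
noncomputable def tT (x c : ℝ) : ℝ := (sinh c + x * cosh c) / (cosh c + x * sinh c)

lemma abs_tT {x : ℝ} (hx : |x| ≤ 1) (c : ℝ) : |tT x c| ≤ 1 := by
  have hp := ch_pos hx c
  obtain ⟨ha, hb⟩ := abs_le.1 hx
  unfold tT
  rw [abs_le]
  constructor
  · rw [le_div_iff₀ hp]
    have h : cosh c + sinh c = exp c := cosh_add_sinh c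
    nlinarith [exp_pos c, mul_nonneg (by linarith : (0:ℝ) ≤ 1 + x) (exp_pos c).le]
  · rw [div_le_iff₀ hp]
    have h : cosh c - sinh c = exp (-c) := cosh_sub_sinh c
    nlinarith [exp_pos (-c), mul_nonneg (by linarith : (0:ℝ) ≤ 1 - x) (exp_pos (-c)).le]

lemma gG_add {x : ℝ} (hx : |x| ≤ 1) (c e : ℝ) :
    gG x (c + e) = gG x c * exp ((tT x c - x) * e) * gG (tT x c) e := by
  have hp := (ch_pos hx c).ne'
  have h1 : cosh (c + e) + x * sinh (c + e) =
      (cosh c + x * sinh c) * (cosh e + tT x c * sinh e) := by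
    have h0 : (cosh c + x * sinh c) * tT x c = sinh c + x * cosh c := by
      unfold tT
      rw [mul_div_cancel₀ _ hp]
    calc cosh (c + e) + x * sinh (c + e)
        = (cosh c + x * sinh c) * cosh e + (sinh c + x * cosh c) * sinh e := by
          rw [cosh_add, sinh_add]; ring
      _ = _ := by rw [← h0]; ring
  unfold gG
  rw [h1]
  have h2 : exp (-(x * (c + e))) =
      exp (-(x * c)) * exp ((tT x c - x) * e) * exp (-(tT x c * e)) := by
    rw [← exp_add, ← exp_add]; congr 1; ring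
  rw [h2]; ring

lemma tT_sub {x : ℝ} (hx : |x| ≤ 1) (c : ℝ) :
    tT x c - x = (1 - x ^ 2) * sinh c / (cosh c + x * sinh c) := by
  have hp := (ch_pos hx c).ne'
  unfold tT
  rw [eq_div_iff hp, sub_mul, div_mul_cancel₀ _ hp]
  ring

lemma tT_sub_nonneg {x : ℝ} (hx : |x| ≤ 1) {c : ℝ} (hc : 0 ≤ c) : 0 ≤ tT x c - x := by
  rw [tT_sub hx]
  have hp := ch_pos hx c
  have h1 : 0 ≤ 1 - x ^ 2 := by
    have := (sq_le_one_iff_abs_le_one x).2 hx
    linarith
  have h2 : 0 ≤ sinh c := sinh_nonneg_iff.2 hc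
  positivity

lemma tT_sub_le {x : ℝ} (hx : |x| ≤ 1) {c : ℝ} (hc : 0 ≤ c) : tT x c - x ≤ 4 * c := by
  rcases le_or_gt (1/2) c with h | h
  · have := (abs_le.1 (abs_tT hx c)).2
    have := (abs_le.1 hx).1
    linarith
  · rw [tT_sub hx]
    have hp := ch_pos hx c
    obtain ⟨ha, hb⟩ := abs_le.1 hx
    rw [div_le_iff₀ hp]
    have h0 : |c| ≤ 1 := by rw [abs_of_nonneg hc]; linarith
    have h1 := abs_exp_sub_one_sub_id_le h0
    have h1' := (abs_le.1 h1).2
    have h2 := add_one_le_exp (-c)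
    have hs : sinh c ≤ c + c ^ 2 / 2 := by
      rw [sinh_eq]; linarith
    have hs0 : 0 ≤ sinh c := sinh_nonneg_iff.2 hc
    have hch : exp (-c) ≤ cosh c + x * sinh c := by
      have h : cosh c - sinh c = exp (-c) := cosh_sub_sinh c
      nlinarith [mul_nonneg (by linarith : (0:ℝ) ≤ 1 + x) hs0]
    have hx2 : (1 - x ^ 2) * sinh c ≤ sinh c := by
      nlinarith [sq_nonneg x, mul_nonneg (sq_nonneg x) hs0]
    have h3 : 4 * c * (1 / 2) ≤ 4 * c * (cosh c + x * sinh c) := by
      apply mul_le_mul_of_nonneg_left _ (by linarith)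
      linarith
    nlinarith

lemma gG_mono {x : ℝ} (hx : |x| ≤ 1) {c c' : ℝ} (hc : 0 ≤ c') (hcc : c' ≤ c) :
    gG x c' ≤ gG x c := by
  have h := gG_add hx c' (c - c')
  rw [show c' + (c - c') = c by ring] at h
  rw [h]
  have h1 := one_le_gG (abs_tT hx c') (c - c')
  have h2 := tT_sub_nonneg hx hc
  have h3 : 1 ≤ exp ((tT x c' - x) * (c - c')) := by
    apply one_le_exp
    exact mul_nonneg h2 (by linarith)
  have h4 := one_le_gG hx c'
  have h5 : gG x c' ≤ gG x c' * exp ((tT x c' - x) * (c - c')) := by nlinarith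
  have h6 : 0 ≤ gG x c' * exp ((tT x c' - x) * (c - c')) := by linarith
  nlinarith

lemma gG_growth {x : ℝ} (hx : |x| ≤ 1) {c c' : ℝ} (hc : 0 ≤ c) (hcc : c ≤ c') :
    gG x c' ≤ gG x c * exp (2 * (c' ^ 2 - c ^ 2)) := by
  have h := gG_add hx c (c' - c)
  rw [show c + (c' - c) = c' by ring] at h
  rw [h]
  have h0 := one_le_gG hx c
  rw [mul_assoc]
  apply mul_le_mul_of_nonneg_left _ (by linarith)
  calc exp ((tT x c - x) * (c' - c)) * gG (tT x c) (c' - c)
      ≤ exp ((tT x c - x) * (c' - c)) * exp ((c' - c) ^ 2) := by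
        apply mul_le_mul_of_nonneg_left (gG_le (abs_tT hx c) _) (exp_pos _).le
    _ = exp ((tT x c - x) * (c' - c) + (c' - c) ^ 2) := by rw [exp_add]
    _ ≤ exp (2 * (c' ^ 2 - c ^ 2)) := by
        apply exp_le_exp.2
        have h1 := tT_sub_le hx hc
        nlinarith [mul_le_mul_of_nonneg_right h1 (by linarith : 0 ≤ c' - c)]

/-- the key inequality, `c ≥ 0` -/
lemma gG_key_aux {x : ℝ} (hx : |x| ≤ 1) {a b F : ℝ} (ha : 0 < a) (hb : 0 < b)
    (hab : a + b ≤ 1) {c c' : ℝ} (hc : 0 ≤ c)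
    (hF : (b * c - a * (c' - c)) ^ 2 ≤ F * (a * b * (a + b))) :
    gG x c' * exp (2 * (c ^ 2 - c' ^ 2)) ≤ gG x c * exp (2 * F) := by
  have hpos : 0 < a * b * (a + b) := by positivity
  have hF0 : 0 ≤ F := by
    by_contra hneg
    push Not at hneg
    nlinarith [sq_nonneg (b * c - a * (c' - c)), mul_neg_of_neg_of_pos hneg hpos]
  have h1c := one_le_gG hx c
  rcases le_total c' 0 with h0 | h0
  · -- opposite signs
    have h1 : c ^ 2 ≤ F := by
      have h2 : ((a + b) * c) ^ 2 ≤ (b * c - a * (c' - c)) ^ 2 := by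
        have : (a + b) * c ≤ b * c - a * (c' - c) := by nlinarith
        have h3 : 0 ≤ (a + b) * c := by positivity
        nlinarith
      have h4 : c ^ 2 * (a * b * (a + b)) ≤ ((a + b) * c) ^ 2 := by
        have h5 : a * b ≤ a + b := by nlinarith
        have h6 : a * b * (a + b) ≤ (a + b) * (a + b) := by
          apply mul_le_mul_of_nonneg_right h5 (by linarith)
        nlinarith [mul_le_mul_of_nonneg_left h6 (sq_nonneg c)]
      have h7 : c ^ 2 * (a * b * (a + b)) ≤ F * (a * b * (a + b)) := by linarith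
      exact le_of_mul_le_mul_right h7 hpos
    calc gG x c' * exp (2 * (c ^ 2 - c' ^ 2))
        ≤ exp (c' ^ 2) * exp (2 * (c ^ 2 - c' ^ 2)) := by
          apply mul_le_mul_of_nonneg_right (gG_le hx c') (exp_pos _).le
      _ = exp (c' ^ 2 + 2 * (c ^ 2 - c' ^ 2)) := by rw [exp_add]
      _ ≤ exp (2 * F) := by
          apply exp_le_exp.2
          nlinarith [sq_nonneg c']
      _ ≤ gG x c * exp (2 * F) := by nlinarith [exp_pos (2 * F)]
  · rcases le_total c' c with h | h
    · have h1 : c ^ 2 - c' ^ 2 ≤ F := by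
        have h2 : 4 * (b * c) * (a * (c - c')) ≤ (b * c - a * (c' - c)) ^ 2 := by
          nlinarith [sq_nonneg (b * c - a * (c - c'))]
        have h3 : (c ^ 2 - c' ^ 2) * (a * b * (a + b)) ≤ 4 * (b * c) * (a * (c - c')) := by
          have h4 : (c ^ 2 - c' ^ 2) ≤ 2 * c * (c - c') := by nlinarith
          have h5 : (c ^ 2 - c' ^ 2) * (a * b) ≤ 2 * c * (c - c') * (a * b) :=
            mul_le_mul_of_nonneg_right h4 (by positivity)
          have h6 : 0 ≤ 2 * c * (c - c') * (a * b) := by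
            have : 0 ≤ c - c' := by linarith
            positivity
          have h7 : 0 ≤ (c ^ 2 - c' ^ 2) * (a * b) := by
            have : 0 ≤ c ^ 2 - c' ^ 2 := by nlinarith
            positivity
          nlinarith
        exact le_of_mul_le_mul_right (by linarith) hpos
      have h2 := gG_mono hx h0 h
      calc gG x c' * exp (2 * (c ^ 2 - c' ^ 2)) ≤ gG x c * exp (2 * (c ^ 2 - c' ^ 2)) := by
            apply mul_le_mul_of_nonneg_right h2 (exp_pos _).le
        _ ≤ gG x c * exp (2 * F) := by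
            apply mul_le_mul_of_nonneg_left _ (by linarith)
            apply exp_le_exp.2; linarith
    · have h2 := gG_growth hx hc h
      calc gG x c' * exp (2 * (c ^ 2 - c' ^ 2))
          ≤ gG x c * exp (2 * (c' ^ 2 - c ^ 2)) * exp (2 * (c ^ 2 - c' ^ 2)) := by
            apply mul_le_mul_of_nonneg_right h2 (exp_pos _).le
        _ = gG x c := by
            rw [mul_assoc, ← exp_add]
            rw [show 2 * (c' ^ 2 - c ^ 2) + 2 * (c ^ 2 - c' ^ 2) = 0 by ring, exp_zero, mul_one]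
        _ ≤ gG x c * exp (2 * F) := by
            have : 1 ≤ exp (2 * F) := one_le_exp (by linarith)
            nlinarith

lemma gG_key {x : ℝ} (hx : |x| ≤ 1) {a b F : ℝ} (ha : 0 < a) (hb : 0 < b)
    (hab : a + b ≤ 1) {c c' : ℝ}
    (hF : (b * c - a * (c' - c)) ^ 2 ≤ F * (a * b * (a + b))) :
    gG x c' * exp (2 * (c ^ 2 - c' ^ 2)) ≤ gG x c * exp (2 * F) := by
  rcases le_total 0 c with h | h
  · exact gG_key_aux hx ha hb hab h hF
  · have := gG_key_aux (x := -x) (by rwa [abs_neg]) (F := F) ha hb hab (c := -c) (c' := -c')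
      (by linarith) (by
        calc (b * -c - a * (-c' - -c)) ^ 2 = (b * c - a * (c' - c)) ^ 2 := by ring
          _ ≤ _ := hF)
    rw [gG_neg, gG_neg] at this
    simpa using this

end Pool.Agent.UPS
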