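import Pool.Agent.Lib.MP_876e19_co.Routes
import Pool.Agent.Lib.MP_876e19_co.Toggle
import Pool.Agent.Lib.MP_876e19_co.Expansion
import Pool.Agent.Lib.MP_876e19_co.Prob

/-!
# T8: the dense regime
-/

set_option autoImplicit false

namespace Pool.Agent.UPS

open Finset Classical

namespace VR

variable {V : Type*} {G : SimpleGraph V}

/-- symmetric base routes -/
structure Rts [Fintype V] (G : SimpleGraph V) (d : ℕ) where
  R : Bool → ∀ x u : V, G.Walk x u
  path : ∀ b x u, x ≠ u → (R b x u).IsPath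
  symm : ∀ b x u w, w ∈ (R b u x).support ↔ w ∈ (R b x u).support
  inter : ∀ x u w, x ≠ u → w ∈ (R true x u).support → w ∈ (R false x u).support → w = x ∨ w = u
  len : ∀ x u, x ≠ u → ((R true x u).length + (R false x u).length) * d ≤ 24 * Fintype.card V

theorem exists_Rts [Fintype V] (hG : G.Connected) (hT : VT G)
    (d : ℕ) (hd : ∀ v, (G.neighborSet v).ncard = d) : Nonempty (Rts G d) := by
  have h := fun x u hxu => exists_routes hG d hd (no_cut_vertex hG hT) x u hxu
  choose A B hA hB hI hL _ using h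
  set base : Bool → ∀ x u : V, G.Walk x u := fun b x u =>
    if h : x = u then h ▸ SimpleGraph.Walk.nil else (if b then A x u h else B x u h) with hbase
  have hbT : ∀ x u (h : x ≠ u), base true x u = A x u h := by
    intro x u h; simp [hbase, h]
  have hbF : ∀ x u (h : x ≠ u), base false x u = B x u h := by
    intro x u h; simp [hbase, h]
  set R : Bool → ∀ x u : V, G.Walk x u := fun b x u =>
    if (Quot.out s(x, u) : V × V) = (x, u) then base b x u else (base b u x).reverse with hR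
  have hout : ∀ x u : V, (Quot.out s(x, u) : V × V) = (x, u) ∨
      (Quot.out s(x, u) : V × V) = (u, x) := by
    intro x u
    have h1 : s((Quot.out s(x, u) : V × V).1, (Quot.out s(x, u) : V × V).2) = s(x, u) :=
      Quot.out_eq s(x, u)
    rw [Sym2.eq_iff] at h1
    rcases h1 with ⟨h1, h2⟩ | ⟨h1, h2⟩
    · left; ext <;> assumption
    · right; ext <;> assumption
  have hcase : ∀ x u : V, x ≠ u → ((∀ b, R b x u = base b x u ∧ R b u x = (base b x u).reverse) ∨
      (∀ b, R b x u = (base b u x).reverse ∧ R b u x = base b u x)) := by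
    intro x u hxu
    have hsw : s(u, x) = s(x, u) := Sym2.eq_swap
    rcases hout x u with h | h
    · left
      intro b
      simp only [hR]
      rw [if_pos h, hsw, h, if_neg]
      · exact ⟨rfl, rfl⟩
      · intro h2
        exact hxu (Prod.mk.inj h2).1
    · right
      intro b
      simp only [hR]
      rw [hsw, h, if_neg, if_pos rfl]
      · exact ⟨rfl, rfl⟩
      · intro h2
        exact hxu (Prod.mk.inj h2).1.symm
  refine ⟨⟨R, ?_, ?_, ?_, ?_⟩⟩
  · intro b x u hxu
    rcases hcase x u hxu with h | h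
    · rw [(h b).1]
      cases b
      · rw [hbF x u hxu]; exact hB _ _ _
      · rw [hbT x u hxu]; exact hA _ _ _
    · rw [(h b).1]
      cases b
      · rw [hbF u x hxu.symm]; exact (hB _ _ _).reverse
      · rw [hbT u x hxu.symm]; exact (hA _ _ _).reverse
  · intro b x u w
    rcases eq_or_ne x u with rfl | hxu
    · rfl
    · rcases hcase x u hxu with h | h
      · rw [(h b).1, (h b).2, SimpleGraph.Walk.support_reverse, List.mem_reverse]
      · rw [(h b).1, (h b).2, SimpleGraph.Walk.support_reverse, List.mem_reverse]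
  · intro x u w hxu h1 h2
    rcases hcase x u hxu with h | h
    · rw [(h _).1, hbT x u hxu] at h1
      rw [(h _).1, hbF x u hxu] at h2
      exact hI x u hxu w h1 h2
    · rw [(h _).1, hbT u x hxu.symm, SimpleGraph.Walk.support_reverse, List.mem_reverse] at h1
      rw [(h _).1, hbF u x hxu.symm, SimpleGraph.Walk.support_reverse, List.mem_reverse] at h2
      exact (hI u x hxu.symm w h1 h2).symm
  · intro x u hxu
    rcases hcase x u hxu with h | h
    · rw [(h _).1, (h _).1, hbT x u hxu, hbF x u hxu]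
      exact hL _ _ _
    · rw [(h _).1, (h _).1, hbT u x hxu.symm, hbF u x hxu.symm,
        SimpleGraph.Walk.length_reverse, SimpleGraph.Walk.length_reverse]
      exact hL _ _ _

variable [Fintype V] {d : ℕ} (R : Rts G d)

/-- the path system for the choice `ω` -/
noncomputable def PW (ω : Sym2 V → (G ≃g G) × Bool) (x u : V) : G.Walk x u :=
  ((R.R (ω s(x, u)).2 ((ω s(x, u)).1 x) ((ω s(x, u)).1 u)).map
    (ω s(x, u)).1.symm.toHom).copy (by simp) (by simp)

lemma mem_PW (ω : Sym2 V → (G ≃g G) × Bool) (x u w : V) :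
    w ∈ (PW R ω x u).support ↔
      (ω s(x, u)).1 w ∈ (R.R (ω s(x, u)).2 ((ω s(x, u)).1 x) ((ω s(x, u)).1 u)).support := by
  unfold PW
  rw [SimpleGraph.Walk.support_copy, SimpleGraph.Walk.support_map, List.mem_map]
  constructor
  · rintro ⟨y, hy, rfl⟩
    simpa using hy
  · intro h
    exact ⟨_, h, by simp⟩

lemma PW_paths (ω : Sym2 V → (G ≃g G) × Bool) : Paths (PW R ω) := by
  intro x u hxu
  unfold PW
  rw [SimpleGraph.Walk.isPath_copy]
  exact SimpleGraph.Walk.map_isPath_of_injective (ω s(x, u)).1.symm.injective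
    (R.path _ _ _ fun h => hxu ((ω s(x, u)).1.injective h))

/-- `w` is on the route of the unordered pair `e` for the choice `o` -/
def hit (w : V) (e : Sym2 V) (o : (G ≃g G) × Bool) : Prop :=
  ∃ x u, x ≠ u ∧ e = s(x, u) ∧ o.1 w ∈ (R.R o.2 (o.1 x) (o.1 u)).support

lemma hit_iff (w x u : V) (hxu : x ≠ u) (o : (G ≃g G) × Bool) :
    hit R w s(x, u) o ↔ o.1 w ∈ (R.R o.2 (o.1 x) (o.1 u)).support := by
  constructor
  · rintro ⟨x', u', _, he, h⟩
    rw [Sym2.eq_iff] at he
    rcases he with ⟨rfl, rfl⟩ | ⟨rfl, rfl⟩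
    · exact h
    · exact (R.symm _ _ _ _).1 h
  · intro h
    exact ⟨x, u, hxu, rfl, h⟩

lemma not_hit_diag (w x : V) (o : (G ≃g G) × Bool) : ¬ hit R w s(x, x) o := by
  rintro ⟨x', u', hne, he, _⟩
  rw [Sym2.eq_iff] at he
  rcases he with ⟨h1, h2⟩ | ⟨h1, h2⟩
  · exact hne (h1.symm.trans h2)
  · exact hne (h2.symm.trans h1)

lemma load_eq (ω : Sym2 V → (G ≃g G) × Bool) (w : V) :
    load (PW R ω) w = 2 * (univ.filter fun e : Sym2 V => hit R w e (ω e)).card := by
  unfold load
  have h1 : {p : V × V | p.1 ≠ p.2 ∧ w ∈ (PW R ω p.1 p.2).support} =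
      ↑(univ.filter fun p : V × V => hit R w s(p.1, p.2) (ω s(p.1, p.2))) := by
    ext ⟨x, u⟩
    simp only [Set.mem_ofPred_eq, Finset.coe_filter, Finset.mem_univ, true_and]
    rcases eq_or_ne x u with rfl | hxu
    · simp [not_hit_diag]
    · rw [mem_PW, hit_iff R w x u hxu]
      simp [hxu]
  rw [h1, Set.ncard_coe_finset]
  rw [Finset.card_eq_sum_card_fiberwise (f := fun p : V × V => s(p.1, p.2))
    (t := univ.filter fun e : Sym2 V => hit R w e (ω e))]
  · rw [Finset.sum_congr rfl (g := fun _ => 2), Finset.sum_const, smul_eq_mul, mul_comm]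
    intro e he
    induction e using Sym2.ind with
    | _ x u =>
      simp only [Finset.mem_filter, Finset.mem_univ, true_and] at he
      have hxu : x ≠ u := by
        rintro rfl
        exact not_hit_diag R _ _ _ he
      have h2 : (univ.filter fun p : V × V => hit R w s(p.1, p.2) (ω s(p.1, p.2))).filter
          (fun p => s(p.1, p.2) = s(x, u)) = {(x, u), (u, x)} := by
        ext ⟨x', u'⟩
        simp only [Finset.mem_filter, Finset.mem_univ, true_and, Finset.mem_insert,
          Finset.mem_singleton, Prod.mk.injEq]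
        constructor
        · rintro ⟨_, h⟩
          rw [Sym2.eq_iff] at h
          exact h
        · intro h
          have h3 : s(x', u') = s(x, u) := Sym2.eq_iff.2 h
          rw [h3]
          exact ⟨he, rfl⟩
      rw [h2, Finset.card_pair]
      intro h
      exact hxu (Prod.mk.inj h).1
  · intro p hp
    simpa using hp

/-! ### the mean load -/

omit [Fintype V] in
lemma finite_aut [Finite V] : Finite (G ≃g G) :=
  Finite.of_injective (fun γ : G ≃g G => (γ : V → V)) DFunLike.coe_injective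

/-- finiteness of the automorphism group -/
@[reducible] noncomputable def fintypeAut (G : SimpleGraph V) : Fintype (G ≃g G) :=
  @Fintype.ofFinite _ (finite_aut (G := G))

attribute [local instance] fintypeAut

/-- number of unordered pairs whose base route `b` passes through `z` -/
noncomputable def cnt (b : Bool) (z : V) : ℕ :=
  (univ.filter fun e : Sym2 V => ∃ x u, x ≠ u ∧ e = s(x, u) ∧ z ∈ (R.R b x u).support).card

lemma card_hit (w : V) (γ : G ≃g G) (b : Bool) :
    (univ.filter fun e : Sym2 V => hit R w e (γ, b)).card = cnt R b (γ w) := by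
  unfold cnt
  refine Finset.card_bij (fun e _ => e.map γ) ?_ ?_ ?_
  · intro e he
    simp only [Finset.mem_filter, Finset.mem_univ, true_and] at he ⊢
    obtain ⟨x, u, hxu, rfl, h⟩ := he
    exact ⟨γ x, γ u, fun h2 => hxu (γ.injective h2), by simp, h⟩
  · intro e _ e' _ h
    exact Sym2.map.injective γ.injective h
  · intro e he
    simp only [Finset.mem_filter, Finset.mem_univ, true_and] at he
    obtain ⟨x, u, hxu, rfl, h⟩ := he
    refine ⟨s(γ.symm x, γ.symm u), ?_, by simp⟩
    simp only [Finset.mem_filter, Finset.mem_univ, true_and]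
    refine ⟨γ.symm x, γ.symm u, fun h2 => hxu (γ.symm.injective h2), rfl, ?_⟩
    show γ w ∈ (R.R b (γ (γ.symm x)) (γ (γ.symm u))).support
    have hx : γ (γ.symm x) = x := by simp
    have hu : γ (γ.symm u) = u := by simp
    rw [hx, hu]
    exact h

/-- indicator of `hit` -/
noncomputable def XX (w : V) (e : Sym2 V) (o : (G ≃g G) × Bool) : ℝ := if hit R w e o then 1 else 0

/-- mean load (per unordered pairs) -/
noncomputable def mm (w : V) : ℝ :=
  ∑ e : Sym2 V, (∑ o, XX R w e o) / (Fintype.card ((G ≃g G) × Bool) : ℝ)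

lemma sum_XX (w : V) : ∑ e : Sym2 V, ∑ o, XX R w e o =
    ∑ γ : G ≃g G, ∑ b : Bool, (cnt R b (γ w) : ℝ) := by
  rw [Finset.sum_comm, Fintype.sum_prod_type]
  refine Finset.sum_congr rfl fun γ _ => Finset.sum_congr rfl fun b _ => ?_
  rw [← card_hit]
  simp only [XX, Finset.sum_boole]

lemma mm_eq (w : V) : (Fintype.card ((G ≃g G) × Bool) : ℝ) * mm R w =
    ∑ γ : G ≃g G, ∑ b : Bool, (cnt R b (γ w) : ℝ) := by
  unfold mm
  rw [← Finset.sum_div, sum_XX]
  have h : (Fintype.card ((G ≃g G) × Bool) : ℝ) ≠ 0 := by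
    have : Nonempty ((G ≃g G) × Bool) := ⟨(SimpleGraph.Iso.refl, true)⟩
    exact_mod_cast Fintype.card_ne_zero
  field_simp

lemma card_O_pos : (0 : ℝ) < (Fintype.card ((G ≃g G) × Bool) : ℝ) := by
  have : Nonempty ((G ≃g G) × Bool) := ⟨(SimpleGraph.Iso.refl, true)⟩
  exact_mod_cast Fintype.card_pos

lemma mm_const (hT : VT G) (w w' : V) : mm R w = mm R w' := by
  obtain ⟨ψ, hψ⟩ := hT w w'
  have h1 := mm_eq R w
  have h2 := mm_eq R w'
  have h3 : ∑ γ : G ≃g G, ∑ b : Bool, (cnt R b (γ w') : ℝ) =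
      ∑ γ : G ≃g G, ∑ b : Bool, (cnt R b (γ w) : ℝ) := by
    let E : (G ≃g G) ≃ (G ≃g G) :=
      { toFun := fun γ => ψ.symm.trans γ
        invFun := fun γ => ψ.trans γ
        left_inv := by intro γ; ext x; simp
        right_inv := by intro γ; ext x; simp }
    rw [← Equiv.sum_comp E]
    refine Finset.sum_congr rfl fun γ _ => Finset.sum_congr rfl fun b _ => ?_
    rw [← hψ]
    show ((cnt R b (γ (ψ.symm (ψ w))) : ℕ) : ℝ) = _
    have : ψ.symm (ψ w) = w := by simp
    rw [this]
  rw [h3, ← h1] at h2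
  exact (mul_left_cancel₀ card_O_pos.ne' h2).symm

lemma sum_cnt (hd0 : 0 < d) : ∑ b : Bool, ∑ z : V, (cnt R b z : ℝ) ≤
    (Fintype.card V : ℝ) ^ 2 * (24 * Fintype.card V / d + 2) := by
  have hd0' : (0 : ℝ) < d := by exact_mod_cast hd0
  have h1 : ∀ b : Bool, ∑ z : V, (cnt R b z : ℝ) = ∑ e : Sym2 V,
      ((univ.filter fun z : V => ∃ x u, x ≠ u ∧ e = s(x, u) ∧ z ∈ (R.R b x u).support).card : ℝ) := by
    intro b
    have := Finset.sum_card_bipartiteAbove_eq_sum_card_bipartiteBelow
      (s := (univ : Finset V)) (t := (univ : Finset (Sym2 V)))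
      (fun z e => ∃ x u, x ≠ u ∧ e = s(x, u) ∧ z ∈ (R.R b x u).support)
    unfold Finset.bipartiteAbove Finset.bipartiteBelow at this
    unfold cnt
    exact_mod_cast this
  simp only [h1]
  rw [Finset.sum_comm]
  have h2 : ∀ e : Sym2 V, ∑ b : Bool,
      ((univ.filter fun z : V => ∃ x u, x ≠ u ∧ e = s(x, u) ∧ z ∈ (R.R b x u).support).card : ℝ) ≤
      24 * Fintype.card V / d + 2 := by
    intro e
    induction e using Sym2.ind with
    | _ x u =>
      rcases eq_or_ne x u with rfl | hxu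
      · have h3 : ∀ b : Bool, (univ.filter fun z : V => ∃ x' u', x' ≠ u' ∧ s(x, x) = s(x', u') ∧
            z ∈ (R.R b x' u').support) = ∅ := by
          intro b
          rw [Finset.filter_eq_empty_iff]
          rintro z - ⟨x', u', hne, he, _⟩
          rw [Sym2.eq_iff] at he
          rcases he with ⟨h1, h2⟩ | ⟨h1, h2⟩
          · exact hne (h1.symm.trans h2)
          · exact hne (h2.symm.trans h1)
        simp only [h3, Finset.card_empty, Nat.cast_zero, Finset.sum_const_zero]
        positivity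
      · have h3 : ∀ b : Bool, ((univ.filter fun z : V => ∃ x' u', x' ≠ u' ∧ s(x, u) = s(x', u') ∧
            z ∈ (R.R b x' u').support).card : ℝ) ≤ (R.R b x u).length + 1 := by
          intro b
          have h4 : (univ.filter fun z : V => ∃ x' u', x' ≠ u' ∧ s(x, u) = s(x', u') ∧
            z ∈ (R.R b x' u').support) ⊆ (R.R b x u).support.toFinset := by
            intro z hz
            simp only [Finset.mem_filter, Finset.mem_univ, true_and] at hz
            obtain ⟨x', u', _, he, h⟩ := hz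
            rw [List.mem_toFinset]
            rw [Sym2.eq_iff] at he
            rcases he with ⟨rfl, rfl⟩ | ⟨rfl, rfl⟩
            · exact h
            · exact (R.symm _ _ _ _).1 h
          have h5 := (Finset.card_le_card h4).trans (List.toFinset_card_le _)
          rw [SimpleGraph.Walk.length_support] at h5
          exact_mod_cast h5
        have h6 := R.len x u hxu
        have h7 : (((R.R true x u).length : ℝ) + (R.R false x u).length) * d ≤
            24 * Fintype.card V := by exact_mod_cast h6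
        have h8 : ((R.R true x u).length : ℝ) + (R.R false x u).length ≤
            24 * Fintype.card V / d := by
          rw [le_div_iff₀ hd0']; exact h7
        rw [Fintype.sum_bool]
        have h9 := h3 true
        have h10 := h3 false
        linarith
  refine (Finset.sum_le_sum fun e _ => h2 e).trans ?_
  rw [Finset.sum_const, Finset.card_univ, nsmul_eq_mul]
  refine mul_le_mul_of_nonneg_right ?_ (by positivity)
  have h3 : Fintype.card (Sym2 V) ≤ Fintype.card (V × V) :=
    Fintype.card_le_of_surjective (fun p : V × V => s(p.1, p.2)) (by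
      intro e
      induction e using Sym2.ind with
      | _ x u => exact ⟨(x, u), rfl⟩)
  rw [Fintype.card_prod] at h3
  have h4 : (Fintype.card (Sym2 V) : ℝ) ≤ (Fintype.card V : ℝ) * Fintype.card V := by
    exact_mod_cast h3
  rw [pow_two]; exact h4

lemma mm_le (hT : VT G) (hd0 : 0 < d) (w : V) :
    mm R w ≤ Fintype.card V * (12 * Fintype.card V / d + 1) := by
  have hn : (0 : ℝ) < Fintype.card V := by
    have : Nonempty V := ⟨w⟩
    exact_mod_cast Fintype.card_pos
  have h1 : ∑ w' : V, (Fintype.card ((G ≃g G) × Bool) : ℝ) * mm R w' =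
      Fintype.card V * ((Fintype.card ((G ≃g G) × Bool) : ℝ) * mm R w) := by
    rw [Finset.sum_congr rfl fun w' _ => by rw [mm_const R hT w' w]]
    simp
  have h2 : ∑ w' : V, (Fintype.card ((G ≃g G) × Bool) : ℝ) * mm R w' =
      (Fintype.card (G ≃g G) : ℝ) * ∑ b : Bool, ∑ z : V, (cnt R b z : ℝ) := by
    rw [Finset.sum_congr rfl fun w' _ => mm_eq R w', Finset.sum_comm]
    have h3 : ∀ γ : G ≃g G, ∑ w' : V, ∑ b : Bool, (cnt R b (γ w') : ℝ) =
        ∑ b : Bool, ∑ z : V, (cnt R b z : ℝ) := by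
      intro γ
      rw [Finset.sum_comm]
      refine Finset.sum_congr rfl fun b _ => ?_
      exact Equiv.sum_comp γ.toEquiv (fun z => (cnt R b z : ℝ))
    rw [Finset.sum_congr rfl fun γ _ => h3 γ]
    simp
    ring
  have h4 := sum_cnt R hd0
  have h5 : (Fintype.card ((G ≃g G) × Bool) : ℝ) = 2 * (Fintype.card (G ≃g G) : ℝ) := by
    rw [Fintype.card_prod, Fintype.card_bool]
    push_cast
    ring
  have hΓ : (0 : ℝ) < (Fintype.card (G ≃g G) : ℝ) := by
    have := card_O_pos (G := G)
    rw [h5] at this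
    linarith
  rw [h1, h5] at h2
  have h6 : (Fintype.card (G ≃g G) : ℝ) * (2 * (Fintype.card V * mm R w)) ≤
      (Fintype.card (G ≃g G) : ℝ) *
        ((Fintype.card V : ℝ) ^ 2 * (24 * Fintype.card V / d + 2)) := by
    calc _ = (Fintype.card V : ℝ) * (2 * (Fintype.card (G ≃g G) : ℝ) * mm R w) := by ring
      _ = _ := h2
      _ ≤ _ := mul_le_mul_of_nonneg_left h4 hΓ.le
  have h7 := le_of_mul_le_mul_left h6 hΓ
  have h8 : (Fintype.card V : ℝ) * (2 * mm R w) ≤ (Fintype.card V : ℝ) *
      (2 * (Fintype.card V * (12 * Fintype.card V / d + 1))) := by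
    calc _ = 2 * (Fintype.card V * mm R w) := by ring
      _ ≤ _ := h7
      _ = _ := by ring
  have h9 := le_of_mul_le_mul_left h8 hn
  linarith

/-! ### choice of `ω` -/

/-- availability count -/
noncomputable def av (ω : Sym2 V → (G ≃g G) × Bool) (u v : V) : ℕ := (avail (PW R ω) u v).ncard

lemma av_eq (ω : Sym2 V → (G ≃g G) × Bool) (u v : V) :
    avail (PW R ω) u v = {x | x ≠ u ∧ x ≠ v ∧ ¬ hit R v s(x, u) (ω s(x, u)) ∧
        ¬ hit R u s(x, v) (ω s(x, v))} := by
  ext x
  simp only [avail, Set.mem_ofPred_eq]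
  constructor
  · rintro ⟨h1, h2, h3, h4⟩
    rw [mem_PW] at h3 h4
    refine ⟨h1, h2, ?_, ?_⟩
    · rw [hit_iff R v x u h1]; exact h3
    · rw [hit_iff R u x v h2]; exact h4
  · rintro ⟨h1, h2, h3, h4⟩
    rw [hit_iff R v x u h1] at h3
    rw [hit_iff R u x v h2] at h4
    refine ⟨h1, h2, ?_, ?_⟩
    · rw [mem_PW]; exact h3
    · rw [mem_PW]; exact h4

/-- half of the choices are good -/
lemma half_good (x u v : V) (hxu : x ≠ u) (hxv : x ≠ v) (huv : u ≠ v) :
    Fintype.card ((G ≃g G) × Bool) ≤ 2 * {o : (G ≃g G) × Bool | ¬ hit R v s(x, u) o}.ncard := by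
  have h1 : Set.InjOn (fun o : (G ≃g G) × Bool => o.1)
      ({o : (G ≃g G) × Bool | hit R v s(x, u) o}) := by
    rintro ⟨γ, b⟩ h ⟨γ', b'⟩ h' he
    simp only at he
    subst he
    simp only [Set.mem_ofPred_eq] at h h'
    rw [hit_iff R v x u hxu] at h h'
    simp only at h h'
    have hne : γ x ≠ γ u := fun h2 => hxu (γ.injective h2)
    by_contra hbb
    have hfin : v = x ∨ v = u := by
      cases b <;> cases b'
      · exact absurd rfl hbb
      · rcases R.inter _ _ _ hne h' h with h3 | h3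
        · exact Or.inl (γ.injective h3)
        · exact Or.inr (γ.injective h3)
      · rcases R.inter _ _ _ hne h h' with h3 | h3
        · exact Or.inl (γ.injective h3)
        · exact Or.inr (γ.injective h3)
      · exact absurd rfl hbb
    rcases hfin with h3 | h3
    · exact hxv h3.symm
    · exact huv h3.symm
  have h2 : {o : (G ≃g G) × Bool | hit R v s(x, u) o}.ncard ≤ Fintype.card (G ≃g G) := by
    rw [← Set.ncard_image_of_injOn h1]
    exact (Set.ncard_le_card _).trans (by rw [Nat.card_eq_fintype_card])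
  have h3 : {o : (G ≃g G) × Bool | hit R v s(x, u) o}.ncard +
      {o : (G ≃g G) × Bool | ¬ hit R v s(x, u) o}.ncard = Fintype.card ((G ≃g G) × Bool) := by
    have := Set.ncard_add_ncard_compl {o : (G ≃g G) × Bool | hit R v s(x, u) o}
    rw [Nat.card_eq_fintype_card] at this
    exact this
  rw [Fintype.card_prod, Fintype.card_bool] at h3 ⊢
  omega

/-- number of unordered pairs whose path passes through `w` -/
noncomputable def ell (ω : Sym2 V → (G ≃g G) × Bool) (w : V) : ℕ :=
  (univ.filter fun e : Sym2 V => hit R w e (ω e)).card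

lemma ell_eq (ω : Sym2 V → (G ≃g G) × Bool) (w : V) : (ell R ω w : ℝ) = ∑ e, XX R w e (ω e) := by
  unfold ell XX
  rw [Finset.sum_boole]

lemma sum_dev (w : V) (θ : ℝ) (hθ : |θ| ≤ 1) (M : ℝ) (hM : mm R w ≤ M) :
    ∑ ω : Sym2 V → (G ≃g G) × Bool, Real.exp (θ * ((ell R ω w : ℝ) - mm R w)) ≤
      (Fintype.card (Sym2 V → (G ≃g G) × Bool) : ℝ) * Real.exp (θ ^ 2 * M) := by
  have : Nonempty ((G ≃g G) × Bool) := ⟨(SimpleGraph.Iso.refl, true)⟩
  have h1 := exp_sum (XX R w) (by
    intro e o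
    unfold XX
    split_ifs
    · exact Or.inr rfl
    · exact Or.inl rfl) θ hθ
  simp only [ell_eq]
  refine h1.trans ?_
  refine mul_le_mul_of_nonneg_left ?_ (Nat.cast_nonneg _)
  rw [Real.exp_le_exp]
  exact mul_le_mul_of_nonneg_left hM (sq_nonneg _)

lemma sum_av (u v : V) (huv : u ≠ v) :
    ∑ ω : Sym2 V → (G ≃g G) × Bool, (1 / 2 : ℝ) ^ ((avail (PW R ω) u v).ncard) ≤
      (Fintype.card (Sym2 V → (G ≃g G) × Bool) : ℝ) * (7 / 8 : ℝ) ^ (Fintype.card V - 2) := by
  have h1 := avail_sum (fun x u v (o : (G ≃g G) × Bool) => ¬ hit R v s(x, u) o) u v huv (by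
    intro x hxu hxv
    exact ⟨half_good R x u v hxu hxv huv, half_good R x v u hxv hxu huv.symm⟩)
  simp only [av_eq]
  exact h1

theorem exists_omega (θ M E : ℝ) (hθ0 : 0 ≤ θ) (hθ1 : θ ≤ 1) (hM : ∀ w, mm R w ≤ M) (k0 : ℕ)
    (hnum : 2 * (Fintype.card V : ℝ) * Real.exp (θ ^ 2 * M - θ * E) +
      (Fintype.card V : ℝ) ^ 2 * ((7 / 8 : ℝ) ^ (Fintype.card V - 2) * 2 ^ k0) < 1) :
    ∃ ω : Sym2 V → (G ≃g G) × Bool, (∀ w, |(ell R ω w : ℝ) - mm R w| ≤ E) ∧
      (∀ u v, u ≠ v → k0 < (avail (PW R ω) u v).ncard) := by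
  by_contra hcon
  push Not at hcon
  have : Nonempty (Sym2 V → (G ≃g G) × Bool) := ⟨fun _ => (SimpleGraph.Iso.refl, true)⟩
  have hΩ : (0 : ℝ) < (Fintype.card (Sym2 V → (G ≃g G) × Bool) : ℝ) := by
    exact_mod_cast Fintype.card_pos
  set Ω : ℝ := (Fintype.card (Sym2 V → (G ≃g G) × Bool) : ℝ) with hΩdef
  set W1 : (Sym2 V → (G ≃g G) × Bool) → ℝ := fun ω => ∑ w : V,
    (Real.exp (θ * ((ell R ω w : ℝ) - mm R w)) + Real.exp (-θ * ((ell R ω w : ℝ) - mm R w))) *
      Real.exp (-(θ * E)) with hW1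
  set W2 : (Sym2 V → (G ≃g G) × Bool) → ℝ := fun ω => ∑ p : V × V,
    (if p.1 ≠ p.2 then (1 / 2 : ℝ) ^ ((avail (PW R ω) p.1 p.2).ncard) * 2 ^ k0 else 0) with hW2
  have hW1nn : ∀ ω, 0 ≤ W1 ω := fun ω => Finset.sum_nonneg fun w _ => by positivity
  have hW2nn : ∀ ω, 0 ≤ W2 ω := fun ω => Finset.sum_nonneg fun p _ => by
    split_ifs
    · positivity
    · exact le_rfl
  have hge : ∀ ω, 1 ≤ W1 ω + W2 ω := by
    intro ω
    by_cases hdev : ∀ w, |(ell R ω w : ℝ) - mm R w| ≤ E
    · obtain ⟨u, v, huv, hle⟩ := hcon ω hdev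
      have h1 : (1 : ℝ) ≤ (1 / 2 : ℝ) ^ ((avail (PW R ω) u v).ncard) * 2 ^ k0 := by
        have h2 : (2 : ℝ) ^ ((avail (PW R ω) u v).ncard) ≤ 2 ^ k0 :=
          pow_le_pow_right₀ (by norm_num) hle
        calc (1 : ℝ) = (1 / 2 : ℝ) ^ ((avail (PW R ω) u v).ncard) *
              2 ^ ((avail (PW R ω) u v).ncard) := by
              rw [← mul_pow]; norm_num
          _ ≤ _ := mul_le_mul_of_nonneg_left h2 (by positivity)
      have h3 : (1 / 2 : ℝ) ^ ((avail (PW R ω) u v).ncard) * 2 ^ k0 ≤ W2 ω := by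
        have h4 := Finset.single_le_sum (f := fun p : V × V =>
          (if p.1 ≠ p.2 then (1 / 2 : ℝ) ^ ((avail (PW R ω) p.1 p.2).ncard) * 2 ^ k0 else 0))
          (s := univ) (fun p _ => by
            split_ifs
            · positivity
            · exact le_rfl) (Finset.mem_univ (u, v))
        simp only [ne_eq, huv, not_false_eq_true, if_true] at h4
        exact h4
      have := hW1nn ω
      linarith
    · push Not at hdev
      obtain ⟨w, hw⟩ := hdev
      have h1 : (1 : ℝ) ≤ (Real.exp (θ * ((ell R ω w : ℝ) - mm R w)) +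
          Real.exp (-θ * ((ell R ω w : ℝ) - mm R w))) * Real.exp (-(θ * E)) := by
        rw [add_mul, ← Real.exp_add, ← Real.exp_add]
        rcases lt_abs.1 hw with h2 | h2
        · have h3 : (1 : ℝ) ≤ Real.exp (θ * ((ell R ω w : ℝ) - mm R w) + -(θ * E)) := by
            rw [Real.one_le_exp_iff]
            nlinarith
          have h4 := Real.exp_pos (-θ * ((ell R ω w : ℝ) - mm R w) + -(θ * E))
          linarith
        · have h3 : (1 : ℝ) ≤ Real.exp (-θ * ((ell R ω w : ℝ) - mm R w) + -(θ * E)) := by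
            rw [Real.one_le_exp_iff]
            nlinarith
          have h4 := Real.exp_pos (θ * ((ell R ω w : ℝ) - mm R w) + -(θ * E))
          linarith
      have h5 : (Real.exp (θ * ((ell R ω w : ℝ) - mm R w)) +
          Real.exp (-θ * ((ell R ω w : ℝ) - mm R w))) * Real.exp (-(θ * E)) ≤ W1 ω :=
        Finset.single_le_sum (f := fun w =>
          (Real.exp (θ * ((ell R ω w : ℝ) - mm R w)) +
          Real.exp (-θ * ((ell R ω w : ℝ) - mm R w))) * Real.exp (-(θ * E)))
          (s := univ) (fun w _ => by positivity) (Finset.mem_univ w)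
      have := hW2nn ω
      linarith
  have hsum1 : ∑ ω, W1 ω ≤ Ω * (2 * (Fintype.card V : ℝ) * Real.exp (θ ^ 2 * M - θ * E)) := by
    simp only [hW1]
    rw [Finset.sum_comm]
    have h1 : ∀ w : V, ∑ ω : Sym2 V → (G ≃g G) × Bool,
        (Real.exp (θ * ((ell R ω w : ℝ) - mm R w)) +
          Real.exp (-θ * ((ell R ω w : ℝ) - mm R w))) * Real.exp (-(θ * E)) ≤
        Ω * (2 * Real.exp (θ ^ 2 * M - θ * E)) := by
      intro w
      rw [← Finset.sum_mul, Finset.sum_add_distrib]
      have a1 := sum_dev R w θ (by rw [abs_le]; constructor <;> linarith) M (hM w)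
      have a2 := sum_dev R w (-θ) (by rw [abs_le]; constructor <;> linarith) M (hM w)
      rw [neg_sq] at a2
      calc _ ≤ (Ω * Real.exp (θ ^ 2 * M) + Ω * Real.exp (θ ^ 2 * M)) * Real.exp (-(θ * E)) :=
            mul_le_mul_of_nonneg_right (add_le_add a1 a2) (Real.exp_pos _).le
        _ = Ω * (2 * (Real.exp (θ ^ 2 * M) * Real.exp (-(θ * E)))) := by ring
        _ = _ := by rw [← Real.exp_add, ← sub_eq_add_neg]
    refine (Finset.sum_le_sum fun w _ => h1 w).trans ?_
    rw [Finset.sum_const, Finset.card_univ, nsmul_eq_mul]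
    apply le_of_eq
    ring
  have hsum2 : ∑ ω, W2 ω ≤
      Ω * ((Fintype.card V : ℝ) ^ 2 * ((7 / 8 : ℝ) ^ (Fintype.card V - 2) * 2 ^ k0)) := by
    simp only [hW2]
    rw [Finset.sum_comm]
    have h1 : ∀ p : V × V, ∑ ω : Sym2 V → (G ≃g G) × Bool,
        (if p.1 ≠ p.2 then (1 / 2 : ℝ) ^ ((avail (PW R ω) p.1 p.2).ncard) * 2 ^ k0 else 0) ≤
        Ω * ((7 / 8 : ℝ) ^ (Fintype.card V - 2) * 2 ^ k0) := by
      intro p
      split_ifs with hp
      · rw [← Finset.sum_mul]
        have := sum_av R p.1 p.2 hp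
        calc _ ≤ (Ω * (7 / 8 : ℝ) ^ (Fintype.card V - 2)) * 2 ^ k0 :=
              mul_le_mul_of_nonneg_right this (by positivity)
          _ = _ := by ring
      · rw [Finset.sum_const_zero]
        positivity
    refine (Finset.sum_le_sum fun p _ => h1 p).trans ?_
    rw [Finset.sum_const, Finset.card_univ, nsmul_eq_mul, Fintype.card_prod]
    apply le_of_eq
    push_cast
    ring
  have hsum : Ω ≤ ∑ ω, (W1 ω + W2 ω) := by
    have := Finset.sum_le_sum (s := (univ : Finset (Sym2 V → (G ≃g G) × Bool)))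
      fun ω _ => hge ω
    rw [Finset.sum_const, Finset.card_univ, nsmul_eq_mul, mul_one] at this
    exact this
  rw [Finset.sum_add_distrib] at hsum
  have hlast : Ω ≤ Ω * (2 * (Fintype.card V : ℝ) * Real.exp (θ ^ 2 * M - θ * E) +
      (Fintype.card V : ℝ) ^ 2 * ((7 / 8 : ℝ) ^ (Fintype.card V - 2) * 2 ^ k0)) := by
    rw [mul_add]; linarith
  have : Ω * (2 * (Fintype.card V : ℝ) * Real.exp (θ ^ 2 * M - θ * E) +
      (Fintype.card V : ℝ) ^ 2 * ((7 / 8 : ℝ) ^ (Fintype.card V - 2) * 2 ^ k0)) < Ω * 1 :=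
    mul_lt_mul_of_pos_left hnum hΩ
  linarith

/-! ### balance -/

/-- alternating sum along a walk -/
lemma walk_alt (S : Finset V) (hS : ∀ u v, G.Adj u v → (u ∈ S ↔ v ∉ S)) (x u : V)
    (p : G.Walk x u) : 2 * (p.support.map fun w => if w ∈ S then (1 : ℤ) else -1).sum =
      (if x ∈ S then (1 : ℤ) else -1) + (if u ∈ S then (1 : ℤ) else -1) := by
  induction p with
  | nil =>
    rw [SimpleGraph.Walk.support_nil, List.map_singleton, List.sum_singleton, two_mul]
  | cons h p ih =>
    rename_i a b c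
    rw [SimpleGraph.Walk.support_cons, List.map_cons, List.sum_cons, mul_add, ih]
    have := hS _ _ h
    by_cases h1 : a ∈ S
    · have h2 : b ∉ S := this.1 h1
      simp only [h1, h2, if_true, if_false]; ring
    · have h2 : b ∈ S := by
        by_contra h3
        exact h1 (this.2 h3)
      simp only [h1, h2, if_true, if_false]; ring

lemma load_balance (hd : ∀ v, (univ.filter fun w => G.Adj v w).card = d) (hd0 : 0 < d)
    (S : Finset V) (hS : ∀ u v, G.Adj u v → (u ∈ S ↔ v ∉ S)) (P : ∀ x y : V, G.Walk x y)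
    (hP : Paths P) : S.card = Sᶜ.card ∧ ∑ v ∈ S, load P v = ∑ v ∈ Sᶜ, load P v := by
  have hcard : S.card = Sᶜ.card := by
    have h1 : Exp.Nf G S ⊆ Sᶜ := by
      intro w hw
      obtain ⟨u, hu, h⟩ := Exp.mem_Nf.1 hw
      rw [Finset.mem_compl]
      exact (hS u w h).1 hu
    have h2 : Exp.Nf G Sᶜ ⊆ S := by
      intro w hw
      obtain ⟨u, hu, h⟩ := Exp.mem_Nf.1 hw
      rw [Finset.mem_compl] at hu
      by_contra h3
      exact hu ((hS u w h).2 h3)
    exact le_antisymm (Exp.card_le_of hd hd0 _ _ h1) (Exp.card_le_of hd hd0 _ _ h2)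
  refine ⟨hcard, ?_⟩
  set sg : V → ℤ := fun w => if w ∈ S then (1 : ℤ) else -1 with hsg
  have hsg0 : ∑ w, sg w = 0 := by
    have h1 : ∑ w, sg w = ∑ w ∈ S, sg w + ∑ w ∈ Sᶜ, sg w := by
      rw [Finset.sum_add_sum_compl]
    have h2 : ∑ w ∈ S, sg w = S.card := by
      rw [Finset.sum_congr rfl (g := fun _ => (1 : ℤ)) (fun w hw => by simp [hsg, hw])]
      simp
    have h3 : ∑ w ∈ Sᶜ, sg w = -(Sᶜ.card : ℤ) := by
      rw [Finset.sum_congr rfl (g := fun _ => (-1 : ℤ)) (fun w hw => by
        rw [Finset.mem_compl] at hw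
        simp [hsg, hw])]
      simp
    rw [h1, h2, h3, hcard]; ring
  have hload : ∀ w, (load P w : ℤ) = ∑ q : V × V,
      (if q.1 ≠ q.2 ∧ w ∈ (P q.1 q.2).support then (1 : ℤ) else 0) := by
    intro w
    unfold load
    rw [Finset.sum_boole]
    have h1 : {p : V × V | p.1 ≠ p.2 ∧ w ∈ (P p.1 p.2).support} =
        ↑(univ.filter fun q : V × V => q.1 ≠ q.2 ∧ w ∈ (P q.1 q.2).support) := by
      ext q; simp
    rw [h1, Set.ncard_coe_finset]
  have hkey : ∑ w, sg w * (load P w : ℤ) = 0 := by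
    simp only [hload, Finset.mul_sum]
    rw [Finset.sum_comm]
    have h1 : ∀ q : V × V, 2 * ∑ w, sg w *
        (if q.1 ≠ q.2 ∧ w ∈ (P q.1 q.2).support then (1 : ℤ) else 0) =
        if q.1 ≠ q.2 then sg q.1 + sg q.2 else 0 := by
      intro q
      by_cases hq : q.1 ≠ q.2
      · have hnd := (hP q.1 q.2 hq).support_nodup
        have h2 := walk_alt S hS q.1 q.2 (P q.1 q.2)
        have h3 : (((P q.1 q.2).support).map fun w => if w ∈ S then (1 : ℤ) else -1).sum =
            ∑ w ∈ (P q.1 q.2).support.toFinset, sg w := by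
          rw [List.sum_toFinset _ hnd]
        rw [h3] at h2
        have h4 : ∑ w, sg w * (if q.1 ≠ q.2 ∧ w ∈ (P q.1 q.2).support then (1 : ℤ) else 0) =
            ∑ w ∈ (P q.1 q.2).support.toFinset, sg w := by
          have h5 : (P q.1 q.2).support.toFinset =
              univ.filter fun w => w ∈ (P q.1 q.2).support := by
            ext w; simp
          rw [h5, Finset.sum_filter]
          refine Finset.sum_congr rfl fun w _ => ?_
          by_cases hw : w ∈ (P q.1 q.2).support
          · simp [hw, hq]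
          · simp [hw]
        rw [h4, h2, if_pos hq]
      · push Not at hq
        simp [hq]
    have h2 : 2 * ∑ q : V × V, ∑ w, sg w *
        (if q.1 ≠ q.2 ∧ w ∈ (P q.1 q.2).support then (1 : ℤ) else 0) = 0 := by
      rw [Finset.mul_sum, Finset.sum_congr rfl fun q _ => h1 q]
      have h3 : ∀ q : V × V, (if q.1 ≠ q.2 then sg q.1 + sg q.2 else 0) =
          (sg q.1 + sg q.2) - (if q.1 = q.2 then sg q.1 + sg q.2 else 0) := by
        intro q
        by_cases hq : q.1 = q.2 <;> simp [hq]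
      rw [Finset.sum_congr rfl fun q _ => h3 q, Finset.sum_sub_distrib, Finset.sum_add_distrib,
        Fintype.sum_prod_type, Fintype.sum_prod_type, Fintype.sum_prod_type]
      simp only [Finset.sum_const, Finset.card_univ, nsmul_eq_mul, ← Finset.mul_sum,
        hsg0, mul_zero, Finset.sum_ite_eq, Finset.mem_univ, if_true, Finset.sum_add_distrib,
        add_zero, sub_zero]
    have h4 : (2 : ℤ) ≠ 0 := by norm_num
    exact (mul_eq_zero.1 h2).resolve_left h4
  have h5 : ∑ w, sg w * (load P w : ℤ) = ∑ w ∈ S, (load P w : ℤ) - ∑ w ∈ Sᶜ, (load P w : ℤ) := by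
    rw [← Finset.sum_add_sum_compl S]
    rw [Finset.sum_congr rfl (g := fun w => (load P w : ℤ)) (s₁ := S)
      (fun w hw => by simp [hsg, hw]),
      Finset.sum_congr rfl (g := fun w => -(load P w : ℤ)) (s₁ := Sᶜ) (fun w hw => by
        rw [Finset.mem_compl] at hw
        simp [hsg, hw]), Finset.sum_neg_distrib]
    ring
  rw [hkey] at h5
  have h6 : ((∑ w ∈ S, load P w : ℕ) : ℤ) = ((∑ w ∈ Sᶜ, load P w : ℕ) : ℤ) := by
    push_cast
    linarith
  exact_mod_cast h6

/-! ### assembly -/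

theorem core (hG : G.Connected) (hT : VT G) (hd : ∀ v, (G.neighborSet v).ncard = d)
    (hd0 : 0 < d) (ω : Sym2 V → (G ≃g G) × Bool) (m E : ℝ)
    (hdev : ∀ w, |(ell R ω w : ℝ) - m| ≤ E) (k0 : ℕ)
    (hav : ∀ u v, u ≠ v → k0 < (avail (PW R ω) u v).ncard) (lo D : ℕ) (hD : 2 * E ≤ D)
    (hcond : 2 * D * Fintype.card V ≤ lo * d) (h4 : 4 * (lo + D) ≤ k0 + 1) : HasUPS G := by
  have hd' : ∀ v, (univ.filter fun w => G.Adj v w).card = d := by
    intro v
    rw [← hd v, ← Set.ncard_coe_finset]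
    congr 1
    ext w; simp
  have : Nonempty V := hG.nonempty
  obtain ⟨w0, hw0⟩ := Finite.exists_max (ell R ω)
  set β : V → ℕ := fun w => (ell R ω w0 - ell R ω w) + lo with hβ
  have hβsum : ∀ w, β w + ell R ω w = ell R ω w0 + lo := by
    intro w
    have := hw0 w
    simp only [hβ]
    omega
  have hdiff : ∀ w, ell R ω w0 - ell R ω w ≤ D := by
    intro w
    have h1 := abs_le.1 (hdev w)
    have h2 := abs_le.1 (hdev w0)
    have h3 : (ell R ω w0 : ℝ) ≤ ell R ω w + D := by linarith [h1.1, h2.2]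
    have h4 : ell R ω w0 ≤ ell R ω w + D := by exact_mod_cast h3
    omega
  obtain ⟨N, hN1, hN2, hN3⟩ := transport hG hT d hd β lo (lo + D)
    (fun w => by simp only [hβ]; omega) (fun w => by
      have := hdiff w
      simp only [hβ]; omega) (by
      rw [Nat.add_sub_cancel_left]; exact hcond) (by
      intro S hS
      obtain ⟨h1, h2⟩ := load_balance hd' hd0 S hS (PW R ω) (PW_paths R ω)
      have h3 : ∑ v ∈ S, ell R ω v = ∑ v ∈ Sᶜ, ell R ω v := by
        have e1 : ∀ T : Finset V, ∑ v ∈ T, load (PW R ω) v = 2 * ∑ v ∈ T, ell R ω v := by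
          intro T
          rw [Finset.mul_sum]
          refine Finset.sum_congr rfl fun v _ => ?_
          rw [load_eq]; rfl
        rw [e1, e1] at h2
        omega
      have h4 : ∀ T : Finset V, ∑ v ∈ T, β v + ∑ v ∈ T, ell R ω v =
          T.card * (ell R ω w0 + lo) := by
        intro T
        rw [← Finset.sum_add_distrib, Finset.sum_congr rfl fun v _ => hβsum v]
        simp
      have h5 := h4 S
      have h6 := h4 Sᶜ
      rw [h1] at h5
      omega)
  set t : Sym2 V → ℕ := Sym2.lift ⟨fun u v => N u v + N v u, fun u v => add_comm _ _⟩ with ht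
  have ht' : ∀ u v, t s(u, v) = N u v + N v u := fun u v => by
    simp only [ht, Sym2.lift_mk]
  have hloop : ∀ v, N v v = 0 := by
    intro v
    by_contra h
    exact (hN1 v v h).ne rfl
  have hdeg : ∀ v, ∑ e ∈ univ.filter (fun e : Sym2 V => v ∈ e), t e = 2 * β v := by
    intro v
    have h1 : univ.filter (fun e : Sym2 V => v ∈ e) = univ.image fun u => s(v, u) := by
      ext e
      simp only [Finset.mem_filter, Finset.mem_univ, true_and, Finset.mem_image]
      constructor
      · intro h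
        obtain ⟨u, hu⟩ := h
        exact ⟨u, hu.symm⟩
      · rintro ⟨u, rfl⟩
        exact Sym2.mem_mk_left _ _
    rw [h1, Finset.sum_image]
    · rw [Finset.sum_congr rfl fun u _ => ht' v u, Finset.sum_add_distrib, hN2, hN3]
      ring
    · intro u _ u' _ h
      exact Sym2.congr_right.1 h
  refine toggle_finish (PW R ω) (PW_paths R ω) t ?_ (2 * (lo + D)) (2 * (ell R ω w0 + lo)) ?_ ?_ ?_
  · intro e
    induction e using Sym2.ind with
    | _ u v =>
      intro h
      rw [ht'] at h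
      rw [SimpleGraph.mem_edgeSet]
      by_cases h1 : N u v = 0
      · have h2 : N v u ≠ 0 := by omega
        exact (hN1 v u h2).symm
      · exact hN1 u v h1
  · intro v
    have h1 := hdeg v
    have h2 := hdiff v
    have h3 : β v ≤ lo + D := by simp only [hβ]; omega
    calc _ = 2 * β v := by convert h1
      _ ≤ _ := by omega
  · intro u v huv
    have := hav u v huv.ne
    omega
  · intro v
    have h1 := hdeg v
    have h2 := hβsum v
    have h3 : load (PW R ω) v = 2 * ell R ω v := load_eq R ω v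
    calc _ = load (PW R ω) v + 2 * β v := by congr 1
      _ = _ := by omega

end VR

open VR Filter Topology

lemma numeric (c : ℝ) (hc : 0 < c) : ∀ᶠ n : ℕ in atTop, ∀ d : ℕ, d ≤ n →
    c * n < (d : ℝ) * Real.log n →
    ∃ (θ E : ℝ) (k0 lo D : ℕ), 0 ≤ θ ∧ θ ≤ 1 ∧
      2 * (n : ℝ) * Real.exp (θ ^ 2 * (n * (12 * n / d + 1)) - θ * E) +
        (n : ℝ) ^ 2 * ((7 / 8 : ℝ) ^ (n - 2) * 2 ^ k0) < 1 ∧ 2 * E ≤ D ∧
      2 * D * n ≤ lo * d ∧ 4 * (lo + D) ≤ k0 + 1 := by
  -- (b)
  have hb : ∀ᶠ n : ℕ in atTop, (n : ℝ) ^ 2 * (0.91875 : ℝ) ^ n < 1 / 4 := by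
    have := tendsto_pow_const_mul_const_pow_of_abs_lt_one 2 (r := (0.91875 : ℝ)) (by
      norm_num [abs_of_pos])
    exact this.eventually (gt_mem_nhds (by norm_num))
  have hlog : ∀ ε : ℝ, 0 < ε → ∀ᶠ n : ℕ in atTop, (Real.log n) ^ 4 ≤ ε * n := by
    intro ε hε
    have h1 := (Real.isLittleO_pow_log_id_atTop (n := 4)).bound hε
    have h2 := tendsto_natCast_atTop_atTop (R := ℝ) |>.eventually h1
    filter_upwards [h2, eventually_ge_atTop 1] with n hn hn1
    have h3 : (0 : ℝ) ≤ Real.log n := Real.log_nonneg (by exact_mod_cast hn1)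
    simp only [id_eq, Real.norm_eq_abs] at hn
    rw [abs_of_nonneg (pow_nonneg h3 4), abs_of_nonneg (Nat.cast_nonneg n)] at hn
    exact hn
  set ε : ℝ := c ^ 2 / (2 ^ 28 * (12 / c + 1)) with hε
  have hεpos : 0 < ε := by rw [hε]; positivity
  filter_upwards [hb, hlog ε hεpos, eventually_ge_atTop 1024] with n hbn hln hn d hdn hcd
  have hn' : (1024 : ℝ) ≤ n := by exact_mod_cast hn
  have hn0 : (0 : ℝ) < n := by linarith
  have hlog1 : 1 ≤ Real.log n := by
    rw [Real.le_log_iff_exp_le hn0]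
    have := Real.exp_one_lt_d9
    linarith
  have hlog0 : 0 < Real.log n := by linarith
  have hd0 : (0 : ℝ) < d := by
    by_contra h
    have h1 : (d : ℝ) = 0 := le_antisymm (not_lt.1 h) (Nat.cast_nonneg _)
    rw [h1, zero_mul] at hcd
    nlinarith
  set M : ℝ := n * (12 * n / d + 1) with hM
  have hnd : (n : ℝ) / d ≤ Real.log n / c := by
    rw [div_le_div_iff₀ hd0 hc]
    nlinarith
  have hMle : M ≤ n * ((12 / c + 1) * Real.log n) := by
    rw [hM]
    refine mul_le_mul_of_nonneg_left ?_ hn0.le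
    calc 12 * (n : ℝ) / d + 1 = 12 * ((n : ℝ) / d) + 1 := by ring
      _ ≤ 12 * (Real.log n / c) + Real.log n := by linarith
      _ = (12 / c + 1) * Real.log n := by ring
  have hMn : (n : ℝ) ≤ M := by
    rw [hM]
    have : 0 ≤ 12 * (n : ℝ) / d := by positivity
    nlinarith
  have hMpos : 0 < M := by linarith
  set θ : ℝ := Real.sqrt (Real.log n / M) with hθ
  set E : ℝ := 4 * Real.sqrt (M * Real.log n) with hE
  have hE0 : 0 ≤ E := by rw [hE]; positivity
  have hθE : θ * E = 4 * Real.log n := by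
    rw [hθ, hE]
    calc Real.sqrt (Real.log n / M) * (4 * Real.sqrt (M * Real.log n))
        = 4 * (Real.sqrt (Real.log n / M) * Real.sqrt (M * Real.log n)) := by ring
      _ = 4 * Real.sqrt ((Real.log n / M) * (M * Real.log n)) := by
          rw [← Real.sqrt_mul (by positivity : 0 ≤ Real.log n / M)]
      _ = 4 * Real.sqrt ((Real.log n) ^ 2) := by
          congr 2; field_simp
      _ = 4 * Real.log n := by rw [Real.sqrt_sq hlog0.le]
  have hθ2 : θ ^ 2 * M = Real.log n := by
    rw [hθ, Real.sq_sqrt (by positivity)]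
    field_simp
  have hEd : E ≤ d / 2048 := by
    have h1 : E ^ 2 ≤ ((d : ℝ) / 2048) ^ 2 := by
      rw [hE, mul_pow, Real.sq_sqrt (by positivity)]
      have h2 : (c * n) ^ 2 ≤ ((d : ℝ) * Real.log n) ^ 2 :=
        pow_le_pow_left₀ (by positivity) hcd.le 2
      have h3 : M * Real.log n * (Real.log n) ^ 2 ≤ n * ((12 / c + 1) * (Real.log n) ^ 4) := by
        calc M * Real.log n * (Real.log n) ^ 2 ≤
            (n * ((12 / c + 1) * Real.log n)) * Real.log n * (Real.log n) ^ 2 := by
              refine mul_le_mul_of_nonneg_right ?_ (by positivity)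
              exact mul_le_mul_of_nonneg_right hMle hlog0.le
          _ = _ := by ring
      have h4 : (n : ℝ) * ((12 / c + 1) * (Real.log n) ^ 4) ≤
          n * ((12 / c + 1) * (ε * n)) := by
        refine mul_le_mul_of_nonneg_left ?_ hn0.le
        exact mul_le_mul_of_nonneg_left hln (by positivity)
      have h5 : (n : ℝ) * ((12 / c + 1) * (ε * n)) = (c * n) ^ 2 / 2 ^ 28 := by
        rw [hε]; field_simp
      have h6 : 4 ^ 2 * (M * Real.log n) * (Real.log n) ^ 2 ≤
          ((d : ℝ) / 2048) ^ 2 * (Real.log n) ^ 2 := by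
        have h7 : 4 ^ 2 * (M * Real.log n) * (Real.log n) ^ 2 ≤ 4 ^ 2 * ((c * n) ^ 2 / 2 ^ 28) := by
          have := h3.trans (h4.trans h5.le)
          linarith
        calc _ ≤ _ := h7
          _ ≤ ((d : ℝ) * Real.log n) ^ 2 / 2048 ^ 2 := by
            have h8 : (4 : ℝ) ^ 2 * ((c * n) ^ 2 / 2 ^ 28) = (c * n) ^ 2 / 2 ^ 24 := by ring
            rw [h8]
            have h9 : (2 : ℝ) ^ 24 = 4 * 2048 ^ 2 := by norm_num
            rw [h9, div_le_div_iff₀ (by norm_num) (by norm_num)]
            nlinarith [sq_nonneg ((d : ℝ) * Real.log n)]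
          _ = _ := by ring
      exact le_of_mul_le_mul_right h6 (by positivity)
    exact (pow_le_pow_iff_left₀ hE0 (by positivity) (by norm_num)).1 h1
  have hE128 : 4 ≤ E := by
    rw [hE]
    have : 1 ≤ Real.sqrt (M * Real.log n) := by
      rw [Real.one_le_sqrt]
      nlinarith
    linarith
  have hDle : (⌈2 * E⌉₊ : ℝ) ≤ d / 512 := by
    have := Nat.ceil_lt_add_one (a := 2 * E) (by positivity)
    linarith
  refine ⟨θ, E, n / 16, n / 128 , ⌈2 * E⌉₊, Real.sqrt_nonneg _, ?_, ?_, Nat.le_ceil _, ?_, ?_⟩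
  · rw [hθ, Real.sqrt_le_one]
    rw [div_le_one hMpos]
    have := Real.log_le_sub_one_of_pos hn0
    linarith
  · rw [hθ2, hθE]
    have h1 : Real.exp (Real.log n - 4 * Real.log n) = 1 / (n : ℝ) ^ 3 := by
      have : Real.log n - 4 * Real.log n = -(Real.log ((n : ℝ) ^ 3)) := by
        rw [Real.log_pow]; push_cast; ring
      rw [this, Real.exp_neg, Real.exp_log (by positivity), one_div]
    rw [h1]
    have h2 : 2 * (n : ℝ) * (1 / (n : ℝ) ^ 3) < 1 / 2 := by
      have : 2 * (n : ℝ) * (1 / (n : ℝ) ^ 3) = 2 / (n : ℝ) ^ 2 := by field_simp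
      rw [this, div_lt_div_iff₀ (by positivity) (by norm_num)]
      nlinarith
    have h3 : (7 / 8 : ℝ) ^ (n - 2) * 2 ^ (n / 16) ≤ (64 / 49) * (0.91875 : ℝ) ^ n := by
      have h4 : (7 / 8 : ℝ) ^ (n - 2) = (64 / 49) * (7 / 8 : ℝ) ^ n := by
        have : n = (n - 2) + 2 := by omega
        conv_rhs => rw [this, pow_add]
        ring
      have h5 : (2 : ℝ) ^ (n / 16) ≤ (1.05 : ℝ) ^ n := by
        calc (2 : ℝ) ^ (n / 16) ≤ ((1.05 : ℝ) ^ 16) ^ (n / 16) :=
              pow_le_pow_left₀ (by norm_num) (by norm_num) _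
          _ = (1.05 : ℝ) ^ (16 * (n / 16)) := by rw [← pow_mul]
          _ ≤ (1.05 : ℝ) ^ n := pow_le_pow_right₀ (by norm_num) (Nat.mul_div_le n 16)
      rw [h4]
      calc (64 / 49) * (7 / 8 : ℝ) ^ n * 2 ^ (n / 16) ≤
            (64 / 49) * (7 / 8 : ℝ) ^ n * (1.05 : ℝ) ^ n :=
              mul_le_mul_of_nonneg_left h5 (by positivity)
        _ = (64 / 49) * (0.91875 : ℝ) ^ n := by
            rw [mul_assoc, ← mul_pow]; norm_num
    have h6 : (n : ℝ) ^ 2 * ((7 / 8 : ℝ) ^ (n - 2) * 2 ^ (n / 16)) < 1 / 2 := by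
      calc _ ≤ (n : ℝ) ^ 2 * ((64 / 49) * (0.91875 : ℝ) ^ n) :=
            mul_le_mul_of_nonneg_left h3 (by positivity)
        _ = (64 / 49) * ((n : ℝ) ^ 2 * (0.91875 : ℝ) ^ n) := by ring
        _ < (64 / 49) * (1 / 4) := mul_lt_mul_of_pos_left hbn (by norm_num)
        _ < 1 / 2 := by norm_num
    linarith
  · -- `2 D n ≤ lo d`
    have h1 := hDle
    have h2 : (n : ℝ) / 256 ≤ ((n / 128 : ℕ) : ℝ) := by
      have h3 : n ≤ 256 * (n / 128) := by omega
      have h4 : (n : ℝ) ≤ 256 * ((n / 128 : ℕ) : ℝ) := by exact_mod_cast h3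
      linarith
    have h5 : 2 * (⌈2 * E⌉₊ : ℝ) * n ≤ ((n / 128 : ℕ) : ℝ) * d := by
      calc 2 * (⌈2 * E⌉₊ : ℝ) * n ≤ 2 * (d / 512) * n := by
            refine mul_le_mul_of_nonneg_right ?_ hn0.le
            linarith
        _ = (n / 256) * d := by ring
        _ ≤ _ := mul_le_mul_of_nonneg_right h2 hd0.le
    exact_mod_cast h5
  · have h1 := hDle
    have hdn' : (d : ℝ) ≤ n := by exact_mod_cast hdn
    have h2 : (512 : ℝ) * ⌈2 * E⌉₊ ≤ n := by linarith
    have h3 : 512 * ⌈2 * E⌉₊ ≤ n := by exact_mod_cast h2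
    omega

theorem vertex_regime (c : ℝ) (hc : 0 < c) : ∃ (N : ℕ), ∀ (V : Type) [Fintype V]
    (G : SimpleGraph V)
    (d : ℕ), G.Connected → VT G → (∀ v, (G.neighborSet v).ncard = d) → N ≤ Fintype.card V →
    c * Fintype.card V < (d : ℝ) * Real.log (Fintype.card V) → HasUPS G := by
  obtain ⟨N, hN⟩ := Filter.eventually_atTop.1 (numeric c hc)
  refine ⟨max N 1, ?_⟩
  intro V _ G d hG hT hd hn hcd
  have hn1 : 1 ≤ Fintype.card V := (le_max_right _ _).trans hn
  have hn0 : (0 : ℝ) < Fintype.card V := by exact_mod_cast hn1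
  have hd0 : 0 < d := by
    by_contra h
    have h1 : d = 0 := by omega
    rw [h1] at hcd
    simp only [Nat.cast_zero, zero_mul] at hcd
    have := mul_pos hc hn0
    linarith
  obtain ⟨v0⟩ := hG.nonempty
  have hdn : d ≤ Fintype.card V := by
    rw [← hd v0, ← Nat.card_eq_fintype_card]
    exact Set.ncard_le_card _
  obtain ⟨θ, E, k0, lo, D, h1, h2, h3, h4, h5, h6⟩ :=
    hN (Fintype.card V) ((le_max_left _ _).trans hn) d hdn hcd
  obtain ⟨R⟩ := exists_Rts hG hT d hd
  obtain ⟨ω, hω1, hω2⟩ := exists_omega R θ (Fintype.card V * (12 * Fintype.card V / d + 1)) E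
    h1 h2 (fun w => mm_le R hT hd0 w) k0 h3
  refine core R hG hT hd hd0 ω (mm R v0) E ?_ k0 hω2 lo D h4 h5 h6
  intro w
  rw [mm_const R hT v0 w]
  exact hω1 w

end Pool.Agent.UPS
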