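import Pool.Agent.Lib.MP_876e19_co.EdgeRegime
import Pool.Agent.Lib.MP_876e19_co.VertexRegime

/-!
# All but finitely many connected vertex-transitive graphs have a uniform path system
-/

set_option autoImplicit false

namespace Pool.Agent.UPS

/-- all but finitely many connected vertex-transitive graphs have a uniform path system -/
theorem main : ∃ N : ℕ, ∀ (V : Type) [Finite V] (G : SimpleGraph V), G.Connected → VT G →
    N ≤ Nat.card V → HasUPS G := by
  obtain ⟨c, N1, hc, h1⟩ := edge_regime
  obtain ⟨N2, h2⟩ := vertex_regime c hc
  refine ⟨max N1 N2, fun V _ G hG hT hN => ?_⟩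
  have : Fintype V := Fintype.ofFinite V
  rw [Nat.card_eq_fintype_card] at hN
  obtain ⟨v0⟩ := hG.nonempty
  have hd : ∀ v, (G.neighborSet v).ncard = (G.neighborSet v0).ncard := by
    intro v
    obtain ⟨φ, hφ⟩ := hT v0 v
    subst hφ
    have : G.neighborSet (φ v0) = φ '' (G.neighborSet v0) := by
      ext w
      simp only [SimpleGraph.mem_neighborSet, Set.mem_image]
      constructor
      · intro h
        refine ⟨φ.symm w, ?_, by simp⟩
        have := (φ.map_adj_iff (v := v0) (w := φ.symm w)).1 (by simpa using h)
        exact this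
      · rintro ⟨y, hy, rfl⟩
        exact φ.map_adj_iff.2 hy
    rw [this, Set.ncard_image_of_injective _ φ.injective]
  rcases le_or_gt (((G.neighborSet v0).ncard : ℝ) * Real.log (Fintype.card V))
    (c * Fintype.card V) with h | h
  · exact h1 V G _ hG hT hd (le_trans (le_max_left _ _) hN) h
  · exact h2 V G _ hG hT hd (le_trans (le_max_right _ _) hN) h

end Pool.Agent.UPS
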